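import Mathlib

set_option autoImplicit false
set_option linter.unusedSectionVars false

namespace Pool.Agent.Lib.MP_829e7b_ag

open Finset

/-- Hermite's identity -/
theorem hermite (q : ℕ) (hq : 0 < q) (a : ℕ) : ∑ i ∈ range q, (a + i) / q = a := by
  induction a with
  | zero =>
    apply Finset.sum_eq_zero
    intro i hi
    rw [Nat.zero_add]
    exact Nat.div_eq_of_lt (Finset.mem_range.mp hi)
  | succ a ih =>
    have h1 : ∑ i ∈ range (q + 1), (a + i) / q = ∑ i ∈ range q, (a + i) / q + (a + q) / q :=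
      Finset.sum_range_succ _ _
    have h2 : ∑ i ∈ range (q + 1), (a + i) / q = ∑ i ∈ range q, (a + (i + 1)) / q + (a + 0) / q :=
      Finset.sum_range_succ' _ _
    have h3 : (a + q) / q = a / q + 1 := Nat.add_div_right a hq
    have h4 : ∑ i ∈ range q, (a + 1 + i) / q = ∑ i ∈ range q, (a + (i + 1)) / q := by
      apply Finset.sum_congr rfl
      intro i _
      congr 1
      ring
    rw [h4]
    simp only [Nat.add_zero] at h2
    omega

section

variable {ι : Type} [Fintype ι]

/-- order cone -/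
def cone (rel : ι → ι → Prop) : Set (ι → ℕ) := {u | ∀ a b, rel a b → u b ≤ u a}

theorem cone_add {rel : ι → ι → Prop} {u v : ι → ℕ} (hu : u ∈ cone rel) (hv : v ∈ cone rel) :
    u + v ∈ cone rel := fun a b h => add_le_add (hu a b h) (hv a b h)

theorem cone_zero {rel : ι → ι → Prop} : (0 : ι → ℕ) ∈ cone rel := fun _ _ _ => le_refl _

theorem cone_round {rel : ι → ι → Prop} {u : ι → ℕ} (hu : u ∈ cone rel) (i q : ℕ) :
    (fun p => (u p + i) / q) ∈ cone rel :=
  fun a b h => Nat.div_le_div_right (Nat.add_le_add_right (hu a b h) i)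

/-- sums of at least `k` elements of `E` and an element of the cone -/
def pw (rel : ι → ι → Prop) (E : Set (ι → ℕ)) (k : ℕ) : Set (ι → ℕ) :=
  {u | ∃ l : Multiset (ι → ℕ), (∀ e ∈ l, e ∈ E) ∧ k ≤ Multiset.card l ∧
    ∃ s ∈ cone rel, u = l.sum + s}

theorem pw_mono {rel : ι → ι → Prop} {E : Set (ι → ℕ)} {k k' : ℕ} (h : k ≤ k') :
    pw rel E k' ⊆ pw rel E k := by
  rintro u ⟨l, hl, hc, s, hs, hu⟩
  exact ⟨l, hl, h.trans hc, s, hs, hu⟩

/-- embedding into Euclidean space -/
noncomputable def emb (u : ι → ℕ) : EuclideanSpace ℝ ι := WithLp.toLp 2 (fun p => (u p : ℝ))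

theorem emb_apply (u : ι → ℕ) (p : ι) : emb u p = (u p : ℝ) := rfl

theorem emb_injective : Function.Injective (emb (ι := ι)) := by
  intro u v h
  funext p
  have := congrArg (fun x : EuclideanSpace ℝ ι => x p) h
  simpa [emb_apply] using this

/-- the displacement of rounding -/
noncomputable def tau (q i : ℕ) (u : ι → ℕ) : EuclideanSpace ℝ ι :=
  emb (fun p => (u p + i) / q) - (1 / (q : ℝ)) • emb u

theorem tau_apply (q i : ℕ) (u : ι → ℕ) (p : ι) :
    tau q i u p = (((u p + i) / q : ℕ) : ℝ) - (u p : ℝ) / q := by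
  simp only [tau, PiLp.sub_apply, PiLp.smul_apply, emb_apply, smul_eq_mul]
  ring

theorem tau_mod (q : ℕ) (hq : 0 < q) (i : ℕ) (u v : ι → ℕ) (h : ∀ p, u p % q = v p % q) :
    tau q i u = tau q i v := by
  have key : ∀ w : ι → ℕ, ∀ p, tau q i w p = (((w p % q + i) / q : ℕ) : ℝ) -
      ((w p % q : ℕ) : ℝ) / q := by
    intro w p
    rw [tau_apply]
    have h1 : w p + i = (w p % q + i) + q * (w p / q) := by
      have := Nat.mod_add_div (w p) q
      omega
    have h2 : (w p + i) / q = (w p % q + i) / q + w p / q := by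
      rw [h1, Nat.add_mul_div_left _ _ hq]
    have h3 : (w p : ℝ) = ((w p % q : ℕ) : ℝ) + q * ((w p / q : ℕ) : ℝ) := by
      exact_mod_cast (Nat.mod_add_div (w p) q).symm
    have hq' : (q : ℝ) ≠ 0 := by exact_mod_cast hq.ne'
    rw [h2]
    push_cast
    have h4 : (w p : ℝ) / q = ((w p % q : ℕ) : ℝ) / q + ((w p / q : ℕ) : ℝ) := by
      rw [h3]; field_simp
    rw [h4]; ring
  ext p
  rw [key u p, key v p, h p]

theorem sum_tau (q : ℕ) (hq : 0 < q) (u : ι → ℕ) : ∑ i ∈ range q, tau q i u = 0 := by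
  ext p
  have hq' : (q : ℝ) ≠ 0 := by exact_mod_cast hq.ne'
  have h1 : (∑ i ∈ range q, tau q i u) p = ∑ i ∈ range q, tau q i u p := by
    simp
  rw [h1]
  simp only [tau_apply, Finset.sum_sub_distrib, Finset.sum_const, Finset.card_range,
    nsmul_eq_mul]
  rw [← Nat.cast_sum, hermite q hq]
  simp only [PiLp.zero_apply]
  field_simp
  ring

/-- least index of a maximum -/
theorem exists_best (T : ℕ → ℝ) (q : ℕ) (hq : 0 < q) :
    ∃ i, i < q ∧ (∀ j, j < q → T j ≤ T i) ∧ ∀ i', i' < q → (∀ j, j < q → T j ≤ T i') → i ≤ i' := by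
  classical
  have hex : ∃ i, i < q ∧ ∀ j, j < q → T j ≤ T i := by
    obtain ⟨i, hi, h⟩ := Finset.exists_max_image (range q) T ⟨0, by simpa using hq⟩
    exact ⟨i, by simpa using hi, fun j hj => h j (by simpa using hj)⟩
  refine ⟨Nat.find hex, (Nat.find_spec hex).1, (Nat.find_spec hex).2, ?_⟩
  intro i' h1 h2
  exact Nat.find_min' hex ⟨h1, h2⟩

/-- metric projection onto a complete convex set -/
theorem exists_proj {V : Type*} [NormedAddCommGroup V] [InnerProductSpace ℝ V] (P : Set V)
    (hne : P.Nonempty) (hcomp : IsComplete P) (hconv : Convex ℝ P) :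
    ∃ π : V → V, (∀ x, π x ∈ P) ∧ ∀ x, ∀ w ∈ P, inner ℝ (x - π x) (w - π x) ≤ 0 := by
  have h : ∀ x, ∃ v ∈ P, ∀ w ∈ P, inner ℝ (x - v) (w - v) ≤ 0 := by
    intro x
    obtain ⟨v, hv, h⟩ := exists_norm_eq_iInf_of_complete_convex hne hcomp hconv x
    exact ⟨v, hv, (norm_eq_iInf_iff_real_inner_le_zero hconv hv).mp h⟩
  choose π h1 h2 using h
  exact ⟨π, h1, h2⟩

theorem firm {V : Type*} [NormedAddCommGroup V] [InnerProductSpace ℝ V] {P : Set V} {π : V → V}
    (h1 : ∀ x, π x ∈ P) (h2 : ∀ x, ∀ w ∈ P, inner ℝ (x - π x) (w - π x) ≤ 0) (x y : V)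
    (h : inner ℝ (x - y) ((x - π x) - (y - π y)) ≤ 0) : x - π x = y - π y := by
  set g := x - π x with hg
  set k := y - π y with hk
  have e1 : x - y = (g - k) + (π x - π y) := by rw [hg, hk]; abel
  have e2 := h2 x (π y) (h1 y)
  have e3 := h2 y (π x) (h1 x)
  rw [← hg] at e2
  rw [← hk] at e3
  rw [e1, inner_add_left] at h
  have e4 : inner ℝ (π x - π y) (g - k) = - inner ℝ g (π y - π x) - inner ℝ k (π x - π y) := by
    have a1 : inner ℝ (π x - π y) (g - k) = inner ℝ (π x - π y) g - inner ℝ (π x - π y) k :=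
      inner_sub_right _ _ _
    have a2 : inner ℝ (π x - π y) g = inner ℝ g (π x - π y) := real_inner_comm _ _
    have a3 : inner ℝ (π x - π y) k = inner ℝ k (π x - π y) := real_inner_comm _ _
    have a4 : inner ℝ g (π y - π x) = - inner ℝ g (π x - π y) := by
      rw [← neg_sub (π x) (π y), inner_neg_right]
    rw [a1, a2, a3, a4, neg_neg]
  have e5 : inner ℝ (g - k) (g - k) ≤ 0 := by rw [e4] at h; linarith
  have e6 := real_inner_self_nonpos.mp e5
  exact sub_eq_zero.mp e6

theorem round_injective (q : ℕ) (hq : 0 < q) {P : Set (EuclideanSpace ℝ ι)}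
    {π : EuclideanSpace ℝ ι → EuclideanSpace ℝ ι}
    (h1 : ∀ x, π x ∈ P) (h2 : ∀ x, ∀ w ∈ P, inner ℝ (x - π x) (w - π x) ≤ 0)
    (b : EuclideanSpace ℝ ι → (ι → ℕ) → ℕ)
    (hb1 : ∀ g u, b g u < q)
    (hb2 : ∀ g u j, j < q → inner ℝ (tau q j u) g ≤ inner ℝ (tau q (b g u) u) g)
    (hb3 : ∀ g u i', i' < q → (∀ j, j < q → inner ℝ (tau q j u) g ≤ inner ℝ (tau q i' u) g) →
      b g u ≤ i')
    (u v : ι → ℕ) (huv : ∀ p, u p % q = v p % q)
    (hφ : (fun p => (u p + b ((1 / (q : ℝ)) • emb u - π ((1 / (q : ℝ)) • emb u)) u) / q) =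
      (fun p => (v p + b ((1 / (q : ℝ)) • emb v - π ((1 / (q : ℝ)) • emb v)) v) / q)) :
    u = v := by
  set x := (1 / (q : ℝ)) • emb u with hx
  set y := (1 / (q : ℝ)) • emb v with hy
  set g := x - π x with hg
  set k := y - π y with hk
  have hxe : x = emb (fun p => (u p + b g u) / q) - tau q (b g u) u := by
    rw [tau, hx]; abel
  have hye : y = emb (fun p => (v p + b k v) / q) - tau q (b k v) v := by
    rw [tau, hy]; abel
  have ht : ∀ i, tau q i u = tau q i v := fun i => tau_mod q hq i u v huv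
  have hxy : x - y = tau q (b k v) v - tau q (b g u) v := by
    nth_rewrite 1 [hxe]
    rw [hye, ← hφ, ht]; abel
  have e1 : inner ℝ (tau q (b k v) v) g ≤ inner ℝ (tau q (b g u) v) g := by
    have := hb2 g u (b k v) (hb1 k v)
    rwa [ht, ht] at this
  have e2 : inner ℝ (tau q (b g u) v) k ≤ inner ℝ (tau q (b k v) v) k := hb2 k v (b g u) (hb1 g u)
  have e3 : inner ℝ (x - y) (g - k) ≤ 0 := by
    have a1 : ∀ a : EuclideanSpace ℝ ι, inner ℝ a (g - k) = inner ℝ a g - inner ℝ a k :=
      fun a => inner_sub_right _ _ _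
    rw [hxy, inner_sub_left, a1, a1]
    linarith
  have e4 : g = k := firm h1 h2 x y e3
  have e5 : b g u = b k v := by
    apply le_antisymm
    · apply hb3 g u (b k v) (hb1 k v)
      intro j hj
      rw [ht, ht, e4]
      exact hb2 k v j hj
    · apply hb3 k v (b g u) (hb1 g u)
      intro j hj
      rw [← ht, ← ht, ← e4]
      exact hb2 g u j hj
  have e6 : x = y := by
    rw [← sub_eq_zero, hxy, e5, sub_self]
  have hq' : (q : ℝ) ≠ 0 := by exact_mod_cast hq.ne'
  have e7 : emb u = emb v := by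
    have : (q : ℝ) • x = (q : ℝ) • y := by rw [e6]
    rw [hx, hy, smul_smul, smul_smul, mul_one_div_cancel hq', one_smul, one_smul] at this
    exact this
  exact emb_injective e7

theorem emb_sum_smul {κ : Type*} (s : Finset κ) (c : κ → ℝ) (e : κ → ι → ℕ) (p : ι) :
    (∑ j ∈ s, c j • emb (e j)) p = ∑ j ∈ s, c j * (e j p : ℝ) := by
  have h1 : (∑ j ∈ s, c j • emb (e j)) p = ∑ j ∈ s, (c j • emb (e j)) p := by simp
  rw [h1]
  apply Finset.sum_congr rfl
  intro j _
  simp [emb_apply]

/-- points of the dilated hull are sums of many elements -/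
theorem mem_pw_of_hull {rel : ι → ι → Prop} {E EN : Set (ι → ℕ)} (hEN : EN ⊆ E)
    (hE : E ⊆ cone rel) (k : ℕ) (u : ι → ℕ)
    (hq : 0 < k + Fintype.card ι)
    (hu : (1 / ((k + Fintype.card ι : ℕ) : ℝ)) • emb u ∈ convexHull ℝ (emb '' EN)) :
    u ∈ pw rel E k := by
  classical
  set q := k + Fintype.card ι with hqdef
  have hq' : (q : ℝ) ≠ 0 := by exact_mod_cast hq.ne'
  have hqpos : (0 : ℝ) < q := by exact_mod_cast hq
  obtain ⟨κ, hκ, z, w, hz, haff, hw, hsum, hwx⟩ := eq_pos_convex_span_of_mem_convexHull hu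
  have hcard : Fintype.card κ ≤ Fintype.card ι + 1 := by
    have h1 := haff.card_le_finrank_succ
    have h2 := Submodule.finrank_le (vectorSpan ℝ (Set.range z))
    rw [finrank_euclideanSpace] at h2
    omega
  choose e he hze using fun j => hz ⟨j, rfl⟩
  let c : κ → ℕ := fun j => ⌊(q : ℝ) * w j⌋₊
  have hc1 : ∀ j, (c j : ℝ) ≤ q * w j := fun j => Nat.floor_le (by have := hw j; positivity)
  have hc2 : ∀ j, (q : ℝ) * w j < c j + 1 := fun j => Nat.lt_floor_add_one _
  -- the real identity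
  have hreal : ∀ p, (u p : ℝ) = ∑ j, (q * w j) * (e j p : ℝ) := by
    intro p
    have h1 : emb u = ∑ j, (q * w j) • emb (e j) := by
      have h2 : (q : ℝ) • ((1 / (q : ℝ)) • emb u) = emb u := by
        rw [smul_smul, mul_one_div_cancel hq', one_smul]
      rw [← h2, ← hwx, Finset.smul_sum]
      apply Finset.sum_congr rfl
      intro j _
      rw [smul_smul, hze j]
    have h3 : emb u p = (∑ j, (q * w j) • emb (e j)) p := by rw [h1]
    rw [emb_sum_smul] at h3
    exact h3
  have hle : ∀ p, ∑ j, c j * e j p ≤ u p := by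
    intro p
    have : ((∑ j, c j * e j p : ℕ) : ℝ) ≤ (u p : ℝ) := by
      rw [hreal p]
      push_cast
      apply Finset.sum_le_sum
      intro j _
      exact mul_le_mul_of_nonneg_right (hc1 j) (Nat.cast_nonneg _)
    exact_mod_cast this
  refine ⟨∑ j, Multiset.replicate (c j) (e j), ?_, ?_, fun p => u p - ∑ j, c j * e j p, ?_, ?_⟩
  · intro e' he'
    rw [Multiset.mem_sum] at he'
    obtain ⟨j, _, hj⟩ := he'
    rw [Multiset.eq_of_mem_replicate hj]
    exact hEN (he j)
  · rw [Multiset.card_sum]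
    simp only [Multiset.card_replicate]
    have h1 : (k : ℝ) < ((∑ j, c j : ℕ) : ℝ) + 1 := by
      have h2 : (q : ℝ) = ∑ j, q * w j := by
        rw [← Finset.mul_sum, hsum, mul_one]
      have h3 : (q : ℝ) - Fintype.card κ ≤ ((∑ j, c j : ℕ) : ℝ) := by
        rw [h2]
        push_cast
        have h4 : ∑ j, (q : ℝ) * w j ≤ ∑ j, ((c j : ℝ) + 1) :=
          Finset.sum_le_sum (fun j _ => (hc2 j).le)
        rw [Finset.sum_add_distrib] at h4
        simp only [Finset.sum_const, Finset.card_univ, nsmul_eq_mul, mul_one] at h4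
        linarith
      -- strictness
      have hne : Nonempty κ := by
        by_contra hcon
        rw [not_nonempty_iff] at hcon
        simp at hsum
      have h5 : ∑ j, (q : ℝ) * w j < ∑ j, ((c j : ℝ) + 1) :=
        Finset.sum_lt_sum_of_nonempty Finset.univ_nonempty (fun j _ => hc2 j)
      rw [← h2, Finset.sum_add_distrib] at h5
      simp only [Finset.sum_const, Finset.card_univ, nsmul_eq_mul, mul_one] at h5
      have h6 : (q : ℝ) = k + Fintype.card ι := by rw [hqdef]; push_cast; ring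
      have h7 : (Fintype.card κ : ℝ) ≤ Fintype.card ι + 1 := by exact_mod_cast hcard
      push_cast
      linarith
    have h8 : k < ∑ j, c j + 1 := by exact_mod_cast h1
    omega
  · intro a b hab
    have : ((u b - ∑ j, c j * e j b : ℕ) : ℝ) ≤ ((u a - ∑ j, c j * e j a : ℕ) : ℝ) := by
      rw [Nat.cast_sub (hle b), Nat.cast_sub (hle a), hreal a, hreal b]
      push_cast
      rw [← Finset.sum_sub_distrib, ← Finset.sum_sub_distrib]
      apply Finset.sum_le_sum
      intro j _
      rw [← sub_mul, ← sub_mul]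
      have h1 : (e j b : ℝ) ≤ (e j a : ℝ) := by exact_mod_cast hE (hEN (he j)) a b hab
      exact mul_le_mul_of_nonneg_left h1 (by linarith [hc1 j])
    exact_mod_cast this
  · funext p
    rw [Pi.add_apply, Multiset.sum_sum]
    simp only [Multiset.sum_replicate, Finset.sum_apply, Pi.smul_apply, smul_eq_mul]
    have := hle p
    omega

/-- **Main combinatorial inequality**. -/
theorem comb_main {rel : ι → ι → Prop} {E : Set (ι → ℕ)} (hE : E ⊆ cone rel)
    (hfin : (cone rel \ E).Finite) (p0 : ι) (htop : ∀ u ∈ cone rel, ∀ p, u p ≤ u p0) (k : ℕ) :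
    (cone rel \ pw rel E k).Finite ∧
      (cone rel \ pw rel E k).ncard ≤
        (k + Fintype.card ι) ^ Fintype.card ι * (cone rel \ E).ncard := by
  classical
  have hd : 0 < Fintype.card ι := Fintype.card_pos_iff.mpr ⟨p0⟩
  set q := k + Fintype.card ι with hqdef
  have hq : 0 < q := by omega
  have hq' : (q : ℝ) ≠ 0 := by exact_mod_cast hq.ne'
  have hqpos : (0 : ℝ) < q := by exact_mod_cast hq
  -- elements with large top coordinate are in E
  obtain ⟨N, hN⟩ : ∃ N : ℕ, ∀ u ∈ cone rel, N ≤ u p0 → u ∈ E := by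
    obtain ⟨M, hM⟩ := (hfin.image (fun u => u p0)).bddAbove
    refine ⟨M + 1, fun u hu hle => ?_⟩
    by_contra hcon
    have := hM ⟨u, ⟨hu, hcon⟩, rfl⟩
    simp only at this
    omega
  let EN : Set (ι → ℕ) := {e | e ∈ E ∧ e p0 ≤ N}
  have hENE : EN ⊆ E := fun e he => he.1
  have hENfin : EN.Finite := by
    apply (Set.finite_Iic (fun _ : ι => N)).subset
    intro e he p
    exact (htop e (hE he.1) p).trans he.2
  have hNmem : (fun _ : ι => N) ∈ EN :=
    ⟨hN _ (fun _ _ _ => le_refl _) (le_refl _), le_refl _⟩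
  set P : Set (EuclideanSpace ℝ ι) := convexHull ℝ (emb '' EN) with hP
  have hPne : P.Nonempty := ⟨_, subset_convexHull ℝ _ ⟨_, hNmem, rfl⟩⟩
  have hPcomp : IsComplete P :=
    ((hENfin.image emb).isCompact_convexHull (𝕜 := ℝ)).isComplete
  have hPconv : Convex ℝ P := convex_convexHull ℝ _
  obtain ⟨π, hπ1, hπ2⟩ := exists_proj P hPne hPcomp hPconv
  have hbest := fun (g : EuclideanSpace ℝ ι) (u : ι → ℕ) =>
    exists_best (fun i => inner ℝ (tau q i u) g) q hq
  choose b hb1 hb2 hb3 using hbest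
  let x : (ι → ℕ) → EuclideanSpace ℝ ι := fun u => (1 / (q : ℝ)) • emb u
  let φ : (ι → ℕ) → (ι → ℕ) := fun u p => (u p + b (x u - π (x u)) u) / q
  let A : Set (ι → ℕ) := {u | u ∈ cone rel ∧ u p0 ≤ q * N ∧ x u ∉ P}
  -- rounding keeps points outside
  have hout : ∀ u, x u ∉ P → emb (φ u) ∉ P := by
    intro u hu hcon
    set g := x u - π (x u) with hg
    have hg0 : g ≠ 0 := by
      intro h0
      apply hu
      have : x u = π (x u) := sub_eq_zero.mp h0
      rw [this]; exact hπ1 _
    have e1 : emb (φ u) = x u + tau q (b g u) u := by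
      simp only [tau, φ, x, ← hg]
      abel
    have e2 := hπ2 (x u) _ hcon
    rw [← hg] at e2
    have e3 : emb (φ u) - π (x u) = g + tau q (b g u) u := by rw [e1, hg]; abel
    rw [e3, inner_add_right] at e2
    have e4 : 0 ≤ inner ℝ (tau q (b g u) u) g := by
      have h1 : ∑ i ∈ range q, inner ℝ (tau q i u) g = 0 := by
        rw [← sum_inner, sum_tau q hq, inner_zero_left]
      have h2 : ∑ i ∈ range q, inner ℝ (tau q i u) g ≤
          ∑ i ∈ range q, inner ℝ (tau q (b g u) u) g := by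
        apply Finset.sum_le_sum
        intro i hi
        exact hb2 g u i (Finset.mem_range.mp hi)
      rw [h1, Finset.sum_const, Finset.card_range, nsmul_eq_mul] at h2
      by_contra hneg
      push Not at hneg
      have := mul_neg_of_pos_of_neg hqpos hneg
      linarith
    have e5 : 0 < inner ℝ g g := real_inner_self_pos.mpr hg0
    rw [real_inner_comm] at e4
    linarith
  -- the injection
  let Ψ : (ι → ℕ) → (ι → Fin q) × (ι → ℕ) := fun u => (fun p => ⟨u p % q, Nat.mod_lt _ hq⟩, φ u)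
  have hmaps : Set.MapsTo Ψ A ((Set.univ : Set (ι → Fin q)) ×ˢ (cone rel \ E)) := by
    rintro u ⟨hu1, hu2, hu3⟩
    refine ⟨Set.mem_univ _, cone_round hu1 _ _, ?_⟩
    intro hcon
    apply hout u hu3
    apply subset_convexHull ℝ _
    refine ⟨φ u, ⟨hcon, ?_⟩, rfl⟩
    show (u p0 + b (x u - π (x u)) u) / q ≤ N
    have h1 := hb1 (x u - π (x u)) u
    have h2 : u p0 + b (x u - π (x u)) u < q * (N + 1) := by
      rw [Nat.mul_add, Nat.mul_one]; omega
    have h3 := Nat.div_lt_of_lt_mul h2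
    omega
  have hinj : Set.InjOn Ψ A := by
    rintro u ⟨_, _, _⟩ v ⟨_, _, _⟩ huv
    have h1 : ∀ p, u p % q = v p % q := by
      intro p
      have := congrFun (congrArg Prod.fst huv) p
      exact congrArg Fin.val this
    exact round_injective q hq hπ1 hπ2 b hb1 hb2 hb3 u v h1 (congrArg Prod.snd huv)
  have hTfin : ((Set.univ : Set (ι → Fin q)) ×ˢ (cone rel \ E)).Finite :=
    Set.finite_univ.prod hfin
  have hAfin : A.Finite := Set.Finite.of_injOn hmaps hinj hTfin
  have hAcard : A.ncard ≤ q ^ Fintype.card ι * (cone rel \ E).ncard := by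
    have h1 := Set.ncard_le_ncard_of_injOn Ψ hmaps hinj hTfin
    rw [Set.ncard_prod, Set.ncard_univ, Nat.card_eq_fintype_card, Fintype.card_fun,
      Fintype.card_fin] at h1
    exact h1
  have hsub : cone rel \ pw rel E k ⊆ A := by
    rintro u ⟨hu1, hu2⟩
    refine ⟨hu1, ?_, ?_⟩
    · by_contra hcon
      push Not at hcon
      apply hu2
      apply pw_mono (k' := q) (by omega)
      refine ⟨(Multiset.range q).map (fun i p => (u p + i) / q), ?_, by simp, 0, cone_zero, ?_⟩
      · intro e he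
        rw [Multiset.mem_map] at he
        obtain ⟨i, _, rfl⟩ := he
        apply hN _ (cone_round hu1 _ _)
        show N ≤ (u p0 + i) / q
        rw [Nat.le_div_iff_mul_le hq]
        rw [Nat.mul_comm]; omega
      · rw [add_zero]
        funext p
        have h1 := hermite q hq (u p)
        have h2 : ((Multiset.range q).map (fun i p => (u p + i) / q)).sum =
            ∑ i ∈ range q, (fun p => (u p + i) / q) := rfl
        rw [h2, Finset.sum_apply, h1]
    · intro hcon
      exact hu2 (mem_pw_of_hull hENE hE k u hq hcon)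
  exact ⟨hAfin.subset hsub, (Set.ncard_le_ncard hsub hAfin).trans hAcard⟩

end

end Pool.Agent.Lib.MP_829e7b_ag
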