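import Mathlib

set_option autoImplicit false

namespace Pool.Agent.Lib.MP_829e7b_ag

open Finset

/-- local rule -/
def locRule (N W D : ℕ → ℕ) (m : ℕ) : ℕ → ℕ
  | 0 => max (N 0) (W 0) + m
  | k + 1 => max (N (k + 1)) (W (k + 1)) + min (N k) (W k) - D k

/-- growth diagram of a matrix -/
def lam (μ : ℕ → ℕ → ℕ) : ℕ → ℕ → ℕ → ℕ
  | 0, _ => fun _ => 0
  | _ + 1, 0 => fun _ => 0
  | i + 1, j + 1 => locRule (lam μ i (j + 1)) (lam μ (i + 1) j) (lam μ i j) (μ i j)

theorem lam_zero_left (μ : ℕ → ℕ → ℕ) (j k : ℕ) : lam μ 0 j k = 0 := by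
  rw [lam]

theorem lam_zero_right (μ : ℕ → ℕ → ℕ) (i k : ℕ) : lam μ i 0 k = 0 := by
  cases i <;> rw [lam]

theorem lam_succ (μ : ℕ → ℕ → ℕ) (i j : ℕ) : lam μ (i + 1) (j + 1) =
    locRule (lam μ i (j + 1)) (lam μ (i + 1) j) (lam μ i j) (μ i j) := by
  rw [lam]

theorem locRule_spec {N W D : ℕ → ℕ} (m : ℕ) (hDN : ∀ k, D k ≤ N k) (hDW : ∀ k, D k ≤ W k)
    (hN : ∀ k, N (k + 1) ≤ D k) (hW : ∀ k, W (k + 1) ≤ D k) :
    (∀ k, N k ≤ locRule N W D m k) ∧ (∀ k, W k ≤ locRule N W D m k) ∧
    (∀ k, locRule N W D m (k + 1) ≤ N k) ∧ (∀ k, locRule N W D m (k + 1) ≤ W k) := by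
  refine ⟨?_, ?_, ?_, ?_⟩
  · intro k
    cases k with
    | zero => simp only [locRule]; omega
    | succ k => simp only [locRule]; have := hDN k; have := hDW k; omega
  · intro k
    cases k with
    | zero => simp only [locRule]; omega
    | succ k => simp only [locRule]; have := hDN k; have := hDW k; omega
  · intro k
    simp only [locRule]; have := hDN k; have := hDW k; have := hN k; have := hW k; omega
  · intro k
    simp only [locRule]; have := hDN k; have := hDW k; have := hN k; have := hW k; omega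

theorem lam_interlace (μ : ℕ → ℕ → ℕ) : ∀ i j,
    ((∀ k, lam μ i j k ≤ lam μ (i + 1) j k) ∧ (∀ k, lam μ (i + 1) j (k + 1) ≤ lam μ i j k)) ∧
    ((∀ k, lam μ i j k ≤ lam μ i (j + 1) k) ∧ (∀ k, lam μ i (j + 1) (k + 1) ≤ lam μ i j k)) := by
  intro i
  induction i with
  | zero =>
    intro j
    have hV : ∀ j, (∀ k, lam μ 0 j k ≤ lam μ 0 (j + 1) k) ∧
        (∀ k, lam μ 0 (j + 1) (k + 1) ≤ lam μ 0 j k) := by
      intro j
      simp [lam_zero_left]
    refine ⟨?_, hV j⟩
    induction j with
    | zero => simp [lam_zero_right]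
    | succ j ih =>
      rw [lam_succ]
      have := locRule_spec (μ 0 j) (hV j).1 ih.1 (hV j).2 ih.2
      exact ⟨this.1, this.2.2.1⟩
  | succ i ihi =>
    intro j
    have hV : ∀ j, (∀ k, lam μ (i + 1) j k ≤ lam μ (i + 1) (j + 1) k) ∧
        (∀ k, lam μ (i + 1) (j + 1) (k + 1) ≤ lam μ (i + 1) j k) := by
      intro j
      rw [lam_succ]
      have := locRule_spec (μ i j) (ihi j).2.1 (ihi j).1.1 (ihi j).2.2 (ihi j).1.2
      exact ⟨this.2.1, this.2.2.2⟩
    refine ⟨?_, hV j⟩
    induction j with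
    | zero => simp [lam_zero_right]
    | succ j ih =>
      rw [lam_succ μ (i + 1) j]
      have := locRule_spec (μ (i + 1) j) (hV j).1 ih.1 (hV j).2 ih.2
      exact ⟨this.1, this.2.2.1⟩

theorem lam_eq_zero_of_le_left (μ : ℕ → ℕ → ℕ) : ∀ i j k, i ≤ k → lam μ i j k = 0 := by
  intro i
  induction i with
  | zero => intro j k _; exact lam_zero_left μ j k
  | succ i ih =>
    intro j k hk
    obtain ⟨k', rfl⟩ : ∃ k', k = k' + 1 := ⟨k - 1, by omega⟩
    have h1 := (lam_interlace μ i j).1.2 k'
    rw [ih j k' (by omega)] at h1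
    omega

theorem lam_eq_zero_of_le_right (μ : ℕ → ℕ → ℕ) : ∀ j i k, j ≤ k → lam μ i j k = 0 := by
  intro j
  induction j with
  | zero => intro i k _; exact lam_zero_right μ i k
  | succ j ih =>
    intro i k hk
    obtain ⟨k', rfl⟩ : ∃ k', k = k' + 1 := ⟨k - 1, by omega⟩
    have h1 := (lam_interlace μ i j).2.2 k'
    rw [ih i k' (by omega)] at h1
    omega

theorem locRule_sum {N W D : ℕ → ℕ} (m K : ℕ) (hDN : ∀ k, D k ≤ N k) (hDW : ∀ k, D k ≤ W k)
    (hK : min (N K) (W K) = 0) :
    ∑ k ∈ range (K + 1), locRule N W D m k + ∑ k ∈ range (K + 1), D k =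
      m + ∑ k ∈ range (K + 1), N k + ∑ k ∈ range (K + 1), W k := by
  have h : ∀ K, ∑ k ∈ range (K + 1), locRule N W D m k + ∑ k ∈ range K, D k + min (N K) (W K) =
      m + ∑ k ∈ range (K + 1), N k + ∑ k ∈ range (K + 1), W k := by
    intro K
    induction K with
    | zero =>
      simp only [zero_add, Finset.sum_range_one, Finset.range_zero, Finset.sum_empty, locRule]
      omega
    | succ K ih =>
      rw [Finset.sum_range_succ (fun k => locRule N W D m k), Finset.sum_range_succ (fun k => D k),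
        Finset.sum_range_succ (fun k => N k), Finset.sum_range_succ (fun k => W k)]
      have e : locRule N W D m (K + 1) =
        max (N (K + 1)) (W (K + 1)) + min (N K) (W K) - D K := rfl
      have := hDN K
      have := hDW K
      omega
  have h1 := h K
  rw [Finset.sum_range_succ (fun k => D k)]
  have := hDN K
  have := hDW K
  omega

theorem lam_sum (μ : ℕ → ℕ → ℕ) (K : ℕ) : ∀ i j, i ≤ K →
    ∑ k ∈ range (K + 1), lam μ i j k = ∑ a ∈ range i, ∑ b ∈ range j, μ a b := by
  intro i
  induction i with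
  | zero => intro j _; simp [lam_zero_left]
  | succ i ihi =>
    intro j hi
    induction j with
    | zero => simp [lam_zero_right]
    | succ j ihj =>
      have h1 := (lam_interlace μ i j)
      have h2 := locRule_sum (N := lam μ i (j + 1)) (W := lam μ (i + 1) j) (D := lam μ i j)
        (μ i j) K h1.2.1 h1.1.1 (by
          rw [lam_eq_zero_of_le_left μ i (j + 1) K (by omega)]
          simp)
      rw [← lam_succ, ihi (j + 1) (by omega), ihi j (by omega), ihj] at h2
      rw [Finset.sum_range_succ (fun a => ∑ b ∈ range (j + 1), μ a b)]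
      rw [Finset.sum_range_succ (fun a => ∑ b ∈ range j, μ a b)] at h2
      rw [Finset.sum_range_succ (fun b => μ i b)]
      omega

theorem locRule_inj {N W D D' : ℕ → ℕ} {m m' : ℕ} (hDN : ∀ k, D k ≤ N k) (hDW : ∀ k, D k ≤ W k)
    (hDN' : ∀ k, D' k ≤ N k) (hDW' : ∀ k, D' k ≤ W k)
    (h : locRule N W D m = locRule N W D' m') : D = D' ∧ m = m' := by
  refine ⟨?_, ?_⟩
  · funext k
    have h1 := congrFun h (k + 1)
    simp only [locRule] at h1
    have := hDN k
    have := hDW k
    have := hDN' k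
    have := hDW' k
    omega
  · have h1 := congrFun h 0
    simp only [locRule] at h1
    omega

theorem lam_injective (μ μ' : ℕ → ℕ → ℕ) (n m : ℕ) (h1 : ∀ i, i ≤ n → lam μ i m = lam μ' i m)
    (h2 : ∀ j, j ≤ m → lam μ n j = lam μ' n j) :
    ∀ a, a ≤ n → ∀ b, b ≤ m → lam μ (n - a) (m - b) = lam μ' (n - a) (m - b) := by
  intro a
  induction a with
  | zero => intro _ b _; exact h2 _ (by omega)
  | succ a iha =>
    intro ha b
    induction b with
    | zero => intro _; exact h1 _ (by omega)
    | succ b ihb =>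
      intro hb
      have e1 := iha (by omega) b (by omega)
      have e2 := iha (by omega) (b + 1) hb
      have e3 := ihb (by omega)
      obtain ⟨i, hi⟩ : ∃ i, n - a = i + 1 := ⟨n - a - 1, by omega⟩
      obtain ⟨j, hj⟩ : ∃ j, m - b = j + 1 := ⟨m - b - 1, by omega⟩
      have hi' : n - (a + 1) = i := by omega
      have hj' : m - (b + 1) = j := by omega
      rw [hi, hj] at e1
      rw [hi, hj'] at e2
      rw [hi', hj] at e3
      rw [hi', hj']
      rw [lam_succ, lam_succ, ← e2, ← e3] at e1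
      have i1 := lam_interlace μ i j
      have i2 := lam_interlace μ' i j
      rw [← e3] at i2
      rw [← e2] at i2
      exact (locRule_inj i1.2.1 i1.1.1 i2.2.1 i2.1.1 e1).1

theorem lam_injective' (μ μ' : ℕ → ℕ → ℕ) (n m : ℕ) (h1 : ∀ i, i ≤ n → lam μ i m = lam μ' i m)
    (h2 : ∀ j, j ≤ m → lam μ n j = lam μ' n j) (i j : ℕ) (hi : i < n) (hj : j < m) :
    μ i j = μ' i j := by
  have key : ∀ i j, i ≤ n → j ≤ m → lam μ i j = lam μ' i j := by
    intro i j hi hj
    have := lam_injective μ μ' n m h1 h2 (n - i) (by omega) (m - j) (by omega)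
    rwa [Nat.sub_sub_self hi, Nat.sub_sub_self hj] at this
  have e1 := key (i + 1) (j + 1) hi hj
  have e2 := key (i + 1) j hi hj.le
  have e3 := key i (j + 1) hi.le hj
  rw [lam_succ, lam_succ, ← e2, ← e3] at e1
  have i1 := lam_interlace μ i j
  have i2 := lam_interlace μ' i j
  rw [← e3, ← e2] at i2
  exact (locRule_inj i1.2.1 i1.1.1 i2.2.1 i2.1.1 e1).2

/-- the plane partition attached to a matrix -/
def rsk (μ : ℕ → ℕ → ℕ) (n m x y : ℕ) : ℕ := lam μ (n - (x - y)) (m - (y - x)) (min x y)

theorem rsk_anti_left (μ : ℕ → ℕ → ℕ) (n m x y : ℕ) (hx : x + 1 ≤ n) (hy : y < m) :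
    rsk μ n m (x + 1) y ≤ rsk μ n m x y := by
  unfold rsk
  rcases le_or_gt y x with h | h
  · have e1 : y - (x + 1) = 0 := by omega
    have e2 : y - x = 0 := by omega
    rw [e1, e2, min_eq_right (by omega : y ≤ x + 1), min_eq_right h]
    have e3 : n - (x - y) = (n - (x + 1 - y)) + 1 := by omega
    rw [e3]
    exact (lam_interlace μ _ _).1.1 y
  · have e1 : x - y = 0 := by omega
    have e2 : x + 1 - y = 0 := by omega
    rw [e1, e2, min_eq_left (by omega : x + 1 ≤ y), min_eq_left h.le]
    have e3 : m - (y - (x + 1)) = (m - (y - x)) + 1 := by omega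
    rw [e3]
    exact (lam_interlace μ _ _).2.2 x

theorem rsk_anti_right (μ : ℕ → ℕ → ℕ) (n m x y : ℕ) (hx : x < n) (hy : y + 1 ≤ m) :
    rsk μ n m x (y + 1) ≤ rsk μ n m x y := by
  unfold rsk
  rcases le_or_gt x y with h | h
  · have e1 : x - (y + 1) = 0 := by omega
    have e2 : x - y = 0 := by omega
    rw [e1, e2, min_eq_left (by omega : x ≤ y + 1), min_eq_left h]
    have e3 : m - (y - x) = (m - (y + 1 - x)) + 1 := by omega
    rw [e3]
    exact (lam_interlace μ _ _).2.1 x
  · have e1 : y - x = 0 := by omega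
    have e2 : y + 1 - x = 0 := by omega
    rw [e1, e2, min_eq_right (by omega : y + 1 ≤ x), min_eq_right h.le]
    have e3 : n - (x - (y + 1)) = (n - (x - y)) + 1 := by omega
    rw [e3]
    exact (lam_interlace μ _ _).1.2 y

theorem rsk_injective (μ μ' : ℕ → ℕ → ℕ) (n m : ℕ)
    (h : ∀ x, x < n → ∀ y, y < m → rsk μ n m x y = rsk μ' n m x y) (i j : ℕ) (hi : i < n)
    (hj : j < m) : μ i j = μ' i j := by
  apply lam_injective' μ μ' n m _ _ i j hi hj
  · intro i hi
    funext k
    by_cases hk : k < i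
    · by_cases hk' : k < m
      · have := h (k + (n - i)) (by omega) k hk'
        unfold rsk at this
        rw [Nat.add_sub_cancel_left, min_eq_right (by omega : k ≤ k + (n - i)),
          Nat.sub_sub_self hi] at this
        have e : k - (k + (n - i)) = 0 := by omega
        rw [e] at this
        simpa using this
      · rw [lam_eq_zero_of_le_right μ m i k (by omega), lam_eq_zero_of_le_right μ' m i k (by omega)]
    · rw [lam_eq_zero_of_le_left μ i m k (by omega), lam_eq_zero_of_le_left μ' i m k (by omega)]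
  · intro j hj
    funext k
    by_cases hk : k < j
    · by_cases hk' : k < n
      · have := h k hk' (k + (m - j)) (by omega)
        unfold rsk at this
        rw [Nat.add_sub_cancel_left, min_eq_left (by omega : k ≤ k + (m - j)),
          Nat.sub_sub_self hj] at this
        have e : k - (k + (m - j)) = 0 := by omega
        rw [e] at this
        simpa using this
      · rw [lam_eq_zero_of_le_left μ n j k (by omega), lam_eq_zero_of_le_left μ' n j k (by omega)]
    · rw [lam_eq_zero_of_le_right μ j n k (by omega), lam_eq_zero_of_le_right μ' j n k (by omega)]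

theorem rsk_trace (μ : ℕ → ℕ → ℕ) (n m : ℕ) :
    ∑ k ∈ range (min n m), rsk μ n m k k = ∑ a ∈ range n, ∑ b ∈ range m, μ a b := by
  rw [← lam_sum μ n n m le_rfl]
  have h1 : range (min n m) ⊆ range (n + 1) := by
    intro k hk
    rw [Finset.mem_range] at hk ⊢
    omega
  rw [← Finset.sum_subset h1]
  · apply Finset.sum_congr rfl
    intro k _
    simp [rsk]
  · intro k _ hk
    rw [Finset.mem_range, not_lt] at hk
    rcases le_total n m with h | h
    · exact lam_eq_zero_of_le_left μ n m k (by omega)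
    · exact lam_eq_zero_of_le_right μ m n k (by omega)

end Pool.Agent.Lib.MP_829e7b_ag
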