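import Mathlib

set_option autoImplicit false
set_option linter.unusedSectionVars false

namespace Pool.Agent.Lib.MP_829e7b_ag

open Finset MvPolynomial

section LexLemma

variable {I ρ κ : Type} [LinearOrder I] [Fintype I] [LinearOrder ρ] [LinearOrder κ]

/-- exponent vector of a product of variables -/
noncomputable def expo (A : I → ρ) (C : I → κ) : (ρ ×ₗ κ) →₀ ℕ :=
  ∑ i, Finsupp.single (toLex (A i, C i)) 1

theorem expo_apply (A : I → ρ) (C : I → κ) (q : ρ ×ₗ κ) :
    expo A C q = ∑ i, if toLex (A i, C i) = q then 1 else 0 := by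
  rw [expo, Finsupp.finsetSum_apply]
  apply Finset.sum_congr rfl
  intro i _
  rw [Finsupp.single_apply]

theorem expo_lt (A : I → ρ) (hA : StrictMono A) (C C0 : I → κ) (i0 : I)
    (h1 : ∀ i, i < i0 → C i = C0 i) (h2 : C0 i0 < C i0) :
    toLex (expo A C) < toLex (expo A C0) := by
  rw [Finsupp.Lex.lt_iff]
  refine ⟨toLex (A i0, C0 i0), ?_, ?_⟩
  · intro q hq
    show expo A C q = expo A C0 q
    rw [expo_apply, expo_apply]
    apply Finset.sum_congr rfl
    intro i _
    rcases lt_or_ge i i0 with hi | hi
    · rw [h1 i hi]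
    · have e1 : toLex (A i, C i) ≠ q := by
        rintro rfl
        rw [Prod.Lex.toLex_lt_toLex] at hq
        rcases hq with hq | ⟨hq, hq'⟩
        · exact absurd hq (not_lt.mpr (hA.monotone hi))
        · have : i = i0 := hA.injective hq
          rw [this] at hq'
          exact lt_asymm h2 hq'
      have e2 : toLex (A i, C0 i) ≠ q := by
        rintro rfl
        rw [Prod.Lex.toLex_lt_toLex] at hq
        rcases hq with hq | ⟨hq, hq'⟩
        · exact absurd hq (not_lt.mpr (hA.monotone hi))
        · have : i = i0 := hA.injective hq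
          rw [this] at hq'
          exact lt_irrefl _ hq'
      rw [if_neg e1, if_neg e2]
  · show expo A C (toLex (A i0, C0 i0)) < expo A C0 (toLex (A i0, C0 i0))
    rw [expo_apply, expo_apply]
    have e1 : ∑ i, (if toLex (A i, C i) = toLex (A i0, C0 i0) then 1 else 0) = 0 := by
      apply Finset.sum_eq_zero
      intro i _
      rw [if_neg]
      intro h
      have h' := toLex.injective h
      rw [Prod.mk.injEq] at h'
      have : i = i0 := hA.injective h'.1
      rw [this] at h'
      exact h2.ne h'.2.symm
    rw [e1]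
    apply Finset.sum_pos'
    · intro i _; positivity
    · exact ⟨i0, Finset.mem_univ _, by simp⟩

end LexLemma

/-- expansion of the determinant of a product of rectangular matrices -/
theorem det_mul_rect {R : Type*} [CommRing R] {s r : ℕ} (M : Matrix (Fin s) (Fin r) R)
    (N : Matrix (Fin r) (Fin s) R) :
    (M * N).det = ∑ c : Fin s → Fin r, (∏ i, M i (c i)) * (N.submatrix c id).det := by
  have h1 : (M * N).det = Matrix.detRowAlternating (fun i => ∑ k, M i k • N k) := by
    show Matrix.detRowAlternating (M * N) = _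
    congr 1
    funext i j
    simp [Matrix.mul_apply]
  rw [h1]
  rw [show (Matrix.detRowAlternating (n := Fin s) (R := R)) (fun i => ∑ k, M i k • N k) =
    (Matrix.detRowAlternating (n := Fin s) (R := R)).toMultilinearMap
      (fun i => ∑ k, M i k • N k) from rfl]
  rw [MultilinearMap.map_sum]
  apply Finset.sum_congr rfl
  intro c _
  rw [MultilinearMap.map_smul_univ, smul_eq_mul]
  rfl

theorem det_mul_rect_inj {R : Type*} [CommRing R] {s r : ℕ} (M : Matrix (Fin s) (Fin r) R)
    (N : Matrix (Fin r) (Fin s) R) [DecidablePred (fun c : Fin s → Fin r => Function.Injective c)] :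
    (M * N).det = ∑ c ∈ Finset.univ.filter (fun c : Fin s → Fin r => Function.Injective c),
      (∏ i, M i (c i)) * (N.submatrix c id).det := by
  rw [det_mul_rect, Finset.sum_filter]
  apply Finset.sum_congr rfl
  intro c _
  split_ifs with h
  · rfl
  · have : ∃ i j, c i = c j ∧ i ≠ j := by
      rw [Function.Injective] at h
      push Not at h
      exact h
    obtain ⟨i, j, hij, hne⟩ := this
    rw [Matrix.det_zero_of_row_eq hne, mul_zero]
    funext k
    simp [Matrix.submatrix_apply, hij]

/-- the determinant vanishes when the inner dimension is too small -/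
theorem det_mul_rect_eq_zero {R : Type*} [CommRing R] {s r : ℕ} (h : r < s)
    (M : Matrix (Fin s) (Fin r) R) (N : Matrix (Fin r) (Fin s) R) : (M * N).det = 0 := by
  classical
  rw [det_mul_rect_inj]
  apply Finset.sum_eq_zero
  intro c hc
  exfalso
  have hc' : Function.Injective c := by simpa using hc
  have := Fintype.card_le_of_injective c hc'
  simp at this
  omega

/-- variables of the parametrising polynomial ring -/
abbrev BV (n m r : ℕ) := (((Fin n)ᵒᵈ ⊕ₗ (Fin m)ᵒᵈ) ×ₗ Fin r)

/-- first kind of variables -/
def yv {n m r : ℕ} (a : Fin n) (k : Fin r) : BV n m r := toLex (toLex (Sum.inl (OrderDual.toDual a)), k)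

/-- second kind of variables -/
def zv {n m r : ℕ} (b : Fin m) (k : Fin r) : BV n m r := toLex (toLex (Sum.inr (OrderDual.toDual b)), k)

theorem yv_ne_zv {n m r : ℕ} (a : Fin n) (k : Fin r) (b : Fin m) (k' : Fin r) :
    (yv a k : BV n m r) ≠ zv b k' := by
  intro h
  have h1 := toLex.injective h
  rw [Prod.mk.injEq] at h1
  have h2 := toLex.injective h1.1
  cases h2

theorem yv_inj {n m r : ℕ} {a a' : Fin n} {k k' : Fin r} :
    (yv a k : BV n m r) = yv a' k' ↔ a = a' ∧ k = k' := by
  constructor
  · intro h
    have h1 := toLex.injective h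
    rw [Prod.mk.injEq] at h1
    have h2 := toLex.injective h1.1
    exact ⟨OrderDual.toDual.injective (Sum.inl.inj h2), h1.2⟩
  · rintro ⟨rfl, rfl⟩; rfl

theorem zv_inj {n m r : ℕ} {b b' : Fin m} {k k' : Fin r} :
    (zv b k : BV n m r) = zv b' k' ↔ b = b' ∧ k = k' := by
  constructor
  · intro h
    have h1 := toLex.injective h
    rw [Prod.mk.injEq] at h1
    have h2 := toLex.injective h1.1
    exact ⟨OrderDual.toDual.injective (Sum.inr.inj h2), h1.2⟩
  · rintro ⟨rfl, rfl⟩; rfl

variable {K : Type*} [Field K]

/-- the parametrisation `X = Y Z` of matrices of rank at most `r` -/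
noncomputable def psi (K : Type*) [Field K] (n m r : ℕ) :
    MvPolynomial (Fin n × Fin m) K →ₐ[K] MvPolynomial (BV n m r) K :=
  aeval (fun p => ∑ k : Fin r, X (yv p.1 k) * X (zv p.2 k))

/-- the generic matrix over the polynomial ring -/
noncomputable def XP (K : Type*) [Field K] (n m : ℕ) :
    Matrix (Fin n) (Fin m) (MvPolynomial (Fin n × Fin m) K) := Matrix.of fun i j => X (i, j)

noncomputable def YP (K : Type*) [Field K] (n m r : ℕ) :
    Matrix (Fin n) (Fin r) (MvPolynomial (BV n m r) K) := Matrix.of fun i k => X (yv i k)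

noncomputable def ZP (K : Type*) [Field K] (n m r : ℕ) :
    Matrix (Fin r) (Fin m) (MvPolynomial (BV n m r) K) := Matrix.of fun k j => X (zv j k)

theorem psi_minor (n m r : ℕ) {s : ℕ} (a : Fin s → Fin n) (b : Fin s → Fin m) :
    psi K n m r ((XP K n m).submatrix a b).det =
      ((YP K n m r).submatrix a id * (ZP K n m r).submatrix id b).det := by
  rw [AlgHom.map_det]
  congr 1
  ext i j
  simp [psi, XP, YP, ZP, Matrix.mul_apply]

theorem psi_minor_eq_zero (n m r : ℕ) {s : ℕ} (h : r < s) (a : Fin s → Fin n) (b : Fin s → Fin m) :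
    psi K n m r ((XP K n m).submatrix a b).det = 0 := by
  rw [psi_minor]
  exact det_mul_rect_eq_zero h _ _

/-- row labels -/
def rowLab {n m s : ℕ} (a : Fin s → Fin n) (b : Fin s → Fin m) :
    (Fin s ⊕ₗ Fin s) → ((Fin n)ᵒᵈ ⊕ₗ (Fin m)ᵒᵈ) :=
  fun i => toLex (Sum.map (fun i => OrderDual.toDual (a i)) (fun i => OrderDual.toDual (b i)) (ofLex i))

theorem rowLab_strictMono {n m s : ℕ} (a : Fin s → Fin n) (b : Fin s → Fin m)
    (ha : StrictAnti a) (hb : StrictAnti b) : StrictMono (rowLab a b) := by
  intro i j hij
  induction i using Lex.rec with | _ i => ?_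
  induction j using Lex.rec with | _ j => ?_
  cases i with
  | inl i =>
    cases j with
    | inl j =>
      simp only [rowLab, ofLex_toLex, Sum.map_inl]
      rw [Sum.Lex.inl_lt_inl_iff] at hij ⊢
      exact OrderDual.toDual_lt_toDual.mpr (ha hij)
    | inr j =>
      simp only [rowLab, ofLex_toLex, Sum.map_inl, Sum.map_inr]
      exact Sum.Lex.inl_lt_inr _ _
  | inr i =>
    cases j with
    | inl j => exact absurd hij Sum.Lex.not_inr_lt_inl
    | inr j =>
      simp only [rowLab, ofLex_toLex, Sum.map_inr]
      rw [Sum.Lex.inr_lt_inr_iff] at hij ⊢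
      exact OrderDual.toDual_lt_toDual.mpr (hb hij)

/-- column labels -/
def colLab {s r : ℕ} (c c' : Fin s → Fin r) : (Fin s ⊕ₗ Fin s) → Fin r :=
  fun i => Sum.elim c c' (ofLex i)

theorem prod_eq_monomial (n m r : ℕ) {s : ℕ} (a : Fin s → Fin n) (b : Fin s → Fin m)
    (c c' : Fin s → Fin r) :
    (∏ i, (X (yv (a i) (c i)) : MvPolynomial (BV n m r) K)) * ∏ i, X (zv (b i) (c' i)) =
      monomial (expo (rowLab a b) (colLab c c')) 1 := by
  rw [expo, monomial_sum_one]
  have h1 : ∏ i : Fin s ⊕ₗ Fin s, (monomial (Finsupp.single (toLex (rowLab a b i, colLab c c' i)) 1)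
      (1 : K) : MvPolynomial (BV n m r) K) =
      ∏ i : Fin s ⊕ Fin s, (monomial (Finsupp.single (toLex (rowLab a b (toLex i),
        colLab c c' (toLex i))) 1) (1 : K) : MvPolynomial (BV n m r) K) :=
    (Fintype.prod_equiv toLex _ _ (fun _ => rfl)).symm
  rw [h1, Fintype.prod_sum_type]
  rfl

theorem expo_minor_lt {n m r s : ℕ} (a : Fin s → Fin n) (b : Fin s → Fin m)
    (ha : StrictAnti a) (hb : StrictAnti b) (h : s ≤ r) (c : Fin s → Fin r)
    (hc : Function.Injective c) (σ : Equiv.Perm (Fin s)) (hne : ¬ (c = Fin.castLE h ∧ σ = 1)) :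
    toLex (expo (rowLab a b) (colLab c (c ∘ σ))) <
      toLex (expo (rowLab a b) (colLab (Fin.castLE h) (Fin.castLE h))) := by
  by_cases hcc : c = Fin.castLE h
  · have hσ : σ ≠ 1 := fun h' => hne ⟨hcc, h'⟩
    have hex : ({i | σ i ≠ i} : Set (Fin s)).Nonempty := by
      by_contra hcon
      rw [Set.not_nonempty_iff_eq_empty] at hcon
      apply hσ
      ext i
      have : i ∉ ({i | σ i ≠ i} : Set (Fin s)) := by rw [hcon]; simp
      simp only [Set.mem_ofPred_eq, not_not] at this
      rw [this]; rfl
    obtain ⟨i0, hi0, hmin⟩ := WellFounded.has_min (wellFounded_lt (α := Fin s)) _ hex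
    have hfix : ∀ i, i < i0 → σ i = i := by
      intro i hi
      by_contra hcon
      exact hmin i hcon hi
    have hgt : i0 < σ i0 := by
      rcases lt_trichotomy (σ i0) i0 with h1 | h1 | h1
      · exfalso
        have := hfix _ h1
        exact hi0 (σ.injective this)
      · exact absurd h1 hi0
      · exact h1
    apply expo_lt (rowLab a b) (rowLab_strictMono a b ha hb) _ _ (toLex (Sum.inr i0))
    · intro i hi
      induction i using Lex.rec with | _ i => ?_
      cases i with
      | inl i => simp only [colLab, ofLex_toLex, Sum.elim_inl, hcc]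
      | inr i =>
        rw [Sum.Lex.inr_lt_inr_iff] at hi
        simp only [colLab, ofLex_toLex, Sum.elim_inr, hcc, Function.comp_apply, hfix i hi]
    · simp only [colLab, ofLex_toLex, Sum.elim_inr, hcc, Function.comp_apply]
      exact (Fin.castLE_lt_castLE_iff h).mpr hgt
  · have hex : ({i | c i ≠ Fin.castLE h i} : Set (Fin s)).Nonempty := by
      by_contra hcon
      rw [Set.not_nonempty_iff_eq_empty] at hcon
      apply hcc
      funext i
      have : i ∉ ({i | c i ≠ Fin.castLE h i} : Set (Fin s)) := by rw [hcon]; simp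
      simpa using this
    obtain ⟨i0, hi0, hmin⟩ := WellFounded.has_min (wellFounded_lt (α := Fin s)) _ hex
    have hfix : ∀ i, i < i0 → c i = Fin.castLE h i := by
      intro i hi
      by_contra hcon
      exact hmin i hcon hi
    have hgt : Fin.castLE h i0 < c i0 := by
      rcases lt_trichotomy (c i0) (Fin.castLE h i0) with h1 | h1 | h1
      · exfalso
        have h1' : (c i0).val < i0.val := h1
        have h2 := hfix ⟨(c i0).val, h1'.trans i0.isLt⟩ h1'
        have h3 : c ⟨(c i0).val, h1'.trans i0.isLt⟩ = c i0 := by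
          rw [h2]; ext; simp
        have h4 := hc h3
        have h5 := congrArg Fin.val h4
        simp only at h5
        omega
      · exact absurd h1 hi0
      · exact h1
    apply expo_lt (rowLab a b) (rowLab_strictMono a b ha hb) _ _ (toLex (Sum.inl i0))
    · intro i hi
      induction i using Lex.rec with | _ i => ?_
      cases i with
      | inl i =>
        rw [Sum.Lex.inl_lt_inl_iff] at hi
        simp only [colLab, ofLex_toLex, Sum.elim_inl, hfix i hi]
      | inr i => exact absurd hi Sum.Lex.not_inr_lt_inl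
    · simpa only [colLab, ofLex_toLex, Sum.elim_inl] using hgt

theorem degree_eq_of_support {τ : Type*} (mo : MonomialOrder τ) (f : MvPolynomial τ K) (d : τ →₀ ℕ)
    (h1 : f.coeff d ≠ 0) (h2 : ∀ e ∈ f.support, mo.toSyn e ≤ mo.toSyn d) : mo.degree f = d := by
  apply mo.toSyn.injective
  apply le_antisymm
  · rw [mo.degree_le_iff]
    exact h2
  · exact mo.le_degree (by rwa [mem_support_iff])

theorem psi_minor_eq_sum (n m r : ℕ) {s : ℕ} (a : Fin s → Fin n) (b : Fin s → Fin m) :
    psi K n m r ((XP K n m).submatrix a b).det =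
      ∑ c ∈ Finset.univ.filter (fun c : Fin s → Fin r => Function.Injective c),
        ∑ σ : Equiv.Perm (Fin s), (Equiv.Perm.sign σ : ℤ) •
          monomial (expo (rowLab a b) (colLab c (c ∘ σ))) (1 : K) := by
  rw [psi_minor, det_mul_rect_inj]
  apply Finset.sum_congr rfl
  intro c _
  rw [Matrix.det_apply', Finset.mul_sum]
  apply Finset.sum_congr rfl
  intro σ _
  rw [← prod_eq_monomial (K := K) n m r a b c (c ∘ σ)]
  simp only [YP, ZP, Matrix.submatrix_apply, Matrix.of_apply, id, Function.comp_apply,
    zsmul_eq_mul]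
  ring

/-- leading term of a minor -/
theorem psi_minor_degree {n m r s : ℕ} (a : Fin s → Fin n) (b : Fin s → Fin m)
    (ha : StrictAnti a) (hb : StrictAnti b) (h : s ≤ r) :
    psi K n m r ((XP K n m).submatrix a b).det ≠ 0 ∧
    (MonomialOrder.lex (σ := BV n m r)).degree (psi K n m r ((XP K n m).submatrix a b).det) =
      expo (rowLab a b) (colLab (Fin.castLE h) (Fin.castLE h)) := by
  classical
  have hcoeff : ∀ e, (psi K n m r ((XP K n m).submatrix a b).det).coeff e =
      ∑ c ∈ Finset.univ.filter (fun c : Fin s → Fin r => Function.Injective c),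
        ∑ σ : Equiv.Perm (Fin s), (Equiv.Perm.sign σ : ℤ) •
          (if expo (rowLab a b) (colLab c (c ∘ σ)) = e then (1 : K) else 0) := by
    intro e
    rw [psi_minor_eq_sum, coeff_sum]
    apply Finset.sum_congr rfl
    intro c _
    rw [coeff_sum]
    apply Finset.sum_congr rfl
    intro σ _
    rw [coeff_smul, coeff_monomial]
  have h1 : (psi K n m r ((XP K n m).submatrix a b).det).coeff
      (expo (rowLab a b) (colLab (Fin.castLE h) (Fin.castLE h))) = 1 := by
    rw [hcoeff, Finset.sum_eq_single (Fin.castLE h), Finset.sum_eq_single 1]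
    · simp
    · intro σ _ hσ
      rw [if_neg, smul_zero]
      intro heq
      have := expo_minor_lt a b ha hb h (Fin.castLE h) (Fin.castLE_injective h) σ
        (fun hh => hσ hh.2)
      rw [heq] at this
      exact lt_irrefl _ this
    · intro hh; exact absurd (Finset.mem_univ _) hh
    · intro c hc hcc
      apply Finset.sum_eq_zero
      intro σ _
      rw [if_neg, smul_zero]
      intro heq
      have hc' : Function.Injective c := by simpa using hc
      have := expo_minor_lt a b ha hb h c hc' σ (fun hh => hcc hh.1)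
      rw [heq] at this
      exact lt_irrefl _ this
    · intro hh
      exfalso
      apply hh
      simpa using Fin.castLE_injective h
  refine ⟨?_, ?_⟩
  · intro h0
    rw [h0, coeff_zero] at h1
    exact zero_ne_one h1
  · apply degree_eq_of_support
    · rw [h1]; exact one_ne_zero
    · intro e he
      rw [mem_support_iff, hcoeff] at he
      obtain ⟨c, hc, hce⟩ := Finset.exists_ne_zero_of_sum_ne_zero he
      obtain ⟨σ, _, hσe⟩ := Finset.exists_ne_zero_of_sum_ne_zero hce
      have hc' : Function.Injective c := by simpa using hc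
      have heq : expo (rowLab a b) (colLab c (c ∘ σ)) = e := by
        by_contra hcon
        apply hσe
        rw [if_neg hcon, smul_zero]
      rw [← heq]
      by_cases hh : c = Fin.castLE h ∧ σ = 1
      · rw [hh.1, hh.2]
        exact le_refl _
      · exact (expo_minor_lt a b ha hb h c hc' σ hh).le

end Pool.Agent.Lib.MP_829e7b_ag
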