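import Mathlib
import Pool.Agent.Lib.MP_829e7b_ag.Minors
import Pool.Agent.Lib.MP_829e7b_ag.Growth
import Pool.Agent.Lib.MP_829e7b_ag.Comb

set_option autoImplicit false
set_option linter.unusedSectionVars false

namespace Pool.Agent.Lib.MP_829e7b_ag

open Finset MvPolynomial

/-- the cells of the truncated rectangle -/
abbrev Cell (n m r : ℕ) := {p : Fin n × Fin m // min p.1.val p.2.val < r}

/-- the covering relation -/
def crel {n m r : ℕ} (p q : Cell n m r) : Prop :=
  (q.1.1.val = p.1.1.val + 1 ∧ q.1.2.val = p.1.2.val) ∨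
    (q.1.1.val = p.1.1.val ∧ q.1.2.val = p.1.2.val + 1)

/-- plane partitions in a rectangle, as functions on `ℕ × ℕ` -/
structure PP (n m : ℕ) (U : ℕ → ℕ → ℕ) : Prop where
  left : ∀ x y, U (x + 1) y ≤ U x y
  right : ∀ x y, U x (y + 1) ≤ U x y
  zl : ∀ x y, n ≤ x → U x y = 0
  zr : ∀ x y, m ≤ y → U x y = 0

theorem PP.anti_left {n m : ℕ} {U : ℕ → ℕ → ℕ} (h : PP n m U) {x x' : ℕ} (hx : x ≤ x') (y : ℕ) :
    U x' y ≤ U x y := by
  induction hx with
  | refl => exact le_refl _
  | step _ ih => exact (h.left _ y).trans ih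

theorem PP.anti_right {n m : ℕ} {U : ℕ → ℕ → ℕ} (h : PP n m U) (x : ℕ) {y y' : ℕ} (hy : y ≤ y') :
    U x y' ≤ U x y := by
  induction hy with
  | refl => exact le_refl _
  | step _ ih => exact (h.right x _).trans ih

/-- initial segments -/
theorem exists_threshold (P : ℕ → Prop) (n : ℕ) (hP : ∀ k, P (k + 1) → P k)
    (hn : ∀ k, n ≤ k → ¬ P k) : ∃ s, s ≤ n ∧ ∀ k, P k ↔ k < s := by
  classical
  have hex : ∃ k, ¬ P k := ⟨n, hn n le_rfl⟩
  refine ⟨Nat.find hex, Nat.find_min' hex (hn n le_rfl), ?_⟩
  intro k
  constructor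
  · intro hk
    by_contra hcon
    push Not at hcon
    have h1 : ∀ j, Nat.find hex ≤ j → ¬ P j := by
      intro j hj
      induction hj with
      | refl => exact Nat.find_spec hex
      | step _ ih => exact fun h => ih (hP _ h)
    exact h1 k hcon hk
  · intro hk
    have := Nat.find_min hex hk
    simpa using this

theorem young {n m : ℕ} {U : ℕ → ℕ → ℕ} (h : PP n m U) :
    ∃ (s : ℕ) (a : Fin s → Fin n) (b : Fin s → Fin m), StrictAnti a ∧ StrictAnti b ∧
      (∀ k, 1 ≤ U k k ↔ k < s) ∧
      (∀ x y, y ≤ x → (1 ≤ U x y ↔ ∃ hy : y < s, x - y ≤ (a ⟨y, hy⟩).val)) ∧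
      (∀ x y, x ≤ y → (1 ≤ U x y ↔ ∃ hx : x < s, y - x ≤ (b ⟨x, hx⟩).val)) := by
  obtain ⟨s, _, hs⟩ := exists_threshold (fun k => 1 ≤ U k k) n
    (fun k hk => hk.trans ((h.left k (k + 1)).trans (h.right k k)))
    (fun k hk => by rw [h.zl k k hk]; omega)
  have hcol := fun y => exists_threshold (fun x => 1 ≤ U x y) n
    (fun x hx => hx.trans (h.left x y)) (fun x hx => by rw [h.zl x y hx]; omega)
  have hrow := fun x => exists_threshold (fun y => 1 ≤ U x y) m
    (fun y hy => hy.trans (h.right x y)) (fun y hy => by rw [h.zr x y hy]; omega)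
  choose col hcol1 hcol2 using hcol
  choose row hrow1 hrow2 using hrow
  have hcs : ∀ k, k < s → k < col k := fun k hk => (hcol2 k k).mp ((hs k).mpr hk)
  have hrs : ∀ k, k < s → k < row k := fun k hk => (hrow2 k k).mp ((hs k).mpr hk)
  have hcmono : ∀ k k', k ≤ k' → col k' ≤ col k := by
    intro k k' hkk
    by_contra hcon
    push Not at hcon
    have h1 := (hcol2 k' (col k)).mpr hcon
    have h2 := h1.trans (h.anti_right (col k) hkk)
    have h3 := (hcol2 k (col k)).mp h2
    omega
  have hrmono : ∀ k k', k ≤ k' → row k' ≤ row k := by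
    intro k k' hkk
    by_contra hcon
    push Not at hcon
    have h1 := (hrow2 k' (row k)).mpr hcon
    have h2 := h1.trans (h.anti_left hkk (row k))
    have h3 := (hrow2 k (row k)).mp h2
    omega
  refine ⟨s, fun k => ⟨col k - 1 - k, ?_⟩, fun k => ⟨row k - 1 - k, ?_⟩, ?_, ?_, hs, ?_, ?_⟩
  · have := hcol1 k.val; have := hcs k.val k.isLt; omega
  · have := hrow1 k.val; have := hrs k.val k.isLt; omega
  · intro k k' hkk
    have h1 := hcmono k.val k'.val (le_of_lt hkk)
    have h2 := hcs k.val k.isLt
    have h3 := hcs k'.val k'.isLt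
    have h4 : k.val < k'.val := hkk
    rw [Fin.lt_def]
    simp only
    omega
  · intro k k' hkk
    have h1 := hrmono k.val k'.val (le_of_lt hkk)
    have h2 := hrs k.val k.isLt
    have h3 := hrs k'.val k'.isLt
    have h4 : k.val < k'.val := hkk
    rw [Fin.lt_def]
    simp only
    omega
  · intro x y hxy
    constructor
    · intro h1
      have hy : y < s := (hs y).mp (h1.trans (h.anti_left hxy y))
      refine ⟨hy, ?_⟩
      have h2 := (hcol2 y x).mp h1
      simp only
      omega
    · rintro ⟨hy, h1⟩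
      simp only at h1
      have h2 := hcs y hy
      exact (hcol2 y x).mpr (by omega)
  · intro x y hxy
    constructor
    · intro h1
      have hx : x < s := (hs x).mp (h1.trans (h.anti_right x hxy))
      refine ⟨hx, ?_⟩
      have h2 := (hrow2 x y).mp h1
      simp only
      omega
    · rintro ⟨hx, h1⟩
      simp only at h1
      have h2 := hrs x hx
      exact (hrow2 x y).mpr (by omega)

/-- partial sums of exponents -/
noncomputable def T {n m r : ℕ} (e : BV n m r →₀ ℕ) (p : Cell n m r) : ℕ :=
  if p.1.2.val ≤ p.1.1.val then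
    ∑ a : Fin n, if p.1.1.val - p.1.2.val ≤ a.val then e (yv a ⟨_, p.2⟩) else 0
  else ∑ b : Fin m, if p.1.2.val - p.1.1.val ≤ b.val then e (zv b ⟨_, p.2⟩) else 0

theorem T_add {n m r : ℕ} (e e' : BV n m r →₀ ℕ) (p : Cell n m r) :
    T (e + e') p = T e p + T e' p := by
  unfold T
  split_ifs with h
  · rw [← Finset.sum_add_distrib]
    apply Finset.sum_congr rfl
    intro a _
    split_ifs <;> simp
  · rw [← Finset.sum_add_distrib]
    apply Finset.sum_congr rfl
    intro a _
    split_ifs <;> simp

theorem T_zero {n m r : ℕ} (p : Cell n m r) : T (0 : BV n m r →₀ ℕ) p = 0 := by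
  unfold T
  split_ifs <;> simp

theorem expo_yv {n m r s : ℕ} (a : Fin s → Fin n) (b : Fin s → Fin m) (c c' : Fin s → Fin r)
    (a0 : Fin n) (k : Fin r) :
    expo (rowLab a b) (colLab c c') (yv a0 k) = ∑ i, if a i = a0 ∧ c i = k then 1 else 0 := by
  rw [expo_apply, ← Equiv.sum_comp (toLex : (Fin s ⊕ Fin s) ≃ (Fin s ⊕ₗ Fin s)),
    Fintype.sum_sum_type]
  refine (congrArg₂ (· + ·) (Finset.sum_congr rfl fun i _ => ?_)
    (Finset.sum_eq_zero fun i _ => ?_)).trans (add_zero _)
  · exact if_congr yv_inj rfl rfl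
  · exact if_neg (fun h => yv_ne_zv a0 k (b i) (c' i) h.symm)

theorem expo_zv {n m r s : ℕ} (a : Fin s → Fin n) (b : Fin s → Fin m) (c c' : Fin s → Fin r)
    (b0 : Fin m) (k : Fin r) :
    expo (rowLab a b) (colLab c c') (zv b0 k) = ∑ i, if b i = b0 ∧ c' i = k then 1 else 0 := by
  rw [expo_apply, ← Equiv.sum_comp (toLex : (Fin s ⊕ Fin s) ≃ (Fin s ⊕ₗ Fin s)),
    Fintype.sum_sum_type]
  refine (congrArg₂ (· + ·) (Finset.sum_eq_zero fun i _ => ?_)
    (Finset.sum_congr rfl fun i _ => ?_)).trans (zero_add _)
  · exact if_neg (yv_ne_zv (a i) (c i) b0 k)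
  · exact if_congr zv_inj rfl rfl

theorem T_expo {n m r s : ℕ} (h : s ≤ r) (a : Fin s → Fin n) (b : Fin s → Fin m)
    (p : Cell n m r) :
    T (expo (rowLab a b) (colLab (Fin.castLE h) (Fin.castLE h))) p =
      if p.1.2.val ≤ p.1.1.val then
        (if ∃ hy : p.1.2.val < s, p.1.1.val - p.1.2.val ≤ (a ⟨_, hy⟩).val then 1 else 0)
      else (if ∃ hx : p.1.1.val < s, p.1.2.val - p.1.1.val ≤ (b ⟨_, hx⟩).val then 1 else 0) := by
  unfold T
  by_cases hc : p.1.2.val ≤ p.1.1.val
  · rw [if_pos hc, if_pos hc]
    simp only [expo_yv]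
    have h1 : ∀ a0 : Fin n, (if p.1.1.val - p.1.2.val ≤ a0.val then
        ∑ i : Fin s, (if a i = a0 ∧ Fin.castLE h i = (⟨_, p.2⟩ : Fin r) then 1 else 0) else 0) =
        ∑ i : Fin s, (if a i = a0 ∧ (i.val = p.1.2.val ∧ p.1.1.val - p.1.2.val ≤ (a i).val)
          then 1 else 0) := by
      intro a0
      split_ifs with h2
      · apply Finset.sum_congr rfl
        intro i _
        congr 1
        apply propext
        constructor
        · rintro ⟨h3, h4⟩
          refine ⟨h3, ?_, by rw [h3]; exact h2⟩
          have := congrArg Fin.val h4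
          simp only [Fin.val_castLE] at this
          omega
        · rintro ⟨h3, h4, h5⟩
          refine ⟨h3, ?_⟩
          ext
          simp only [Fin.val_castLE]
          omega
      · symm
        apply Finset.sum_eq_zero
        intro i _
        rw [if_neg]
        rintro ⟨h3, h4, h5⟩
        rw [h3] at h5
        exact h2 h5
    rw [Finset.sum_congr rfl (fun a0 _ => h1 a0), Finset.sum_comm]
    have h2 : ∀ i : Fin s, ∑ a0 : Fin n, (if a i = a0 ∧ (i.val = p.1.2.val ∧
        p.1.1.val - p.1.2.val ≤ (a i).val) then 1 else 0) =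
        if (i.val = p.1.2.val ∧ p.1.1.val - p.1.2.val ≤ (a i).val) then 1 else 0 := by
      intro i
      split_ifs with h3
      · simp [h3]
      · apply Finset.sum_eq_zero
        intro a0 _
        rw [if_neg]
        rintro ⟨_, h4⟩
        exact h3 h4
    rw [Finset.sum_congr rfl (fun i _ => h2 i)]
    by_cases h3 : ∃ hy : p.1.2.val < s, p.1.1.val - p.1.2.val ≤ (a ⟨_, hy⟩).val
    · rw [if_pos h3]
      obtain ⟨hy, h4⟩ := h3
      rw [Finset.sum_eq_single ⟨p.1.2.val, hy⟩]
      · simp [h4]
      · intro i _ hi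
        rw [if_neg]
        rintro ⟨h5, _⟩
        exact hi (Fin.ext h5)
      · intro h5; exact absurd (Finset.mem_univ _) h5
    · rw [if_neg h3]
      apply Finset.sum_eq_zero
      intro i _
      rw [if_neg]
      rintro ⟨h4, h5⟩
      apply h3
      have h6 : p.1.2.val < s := by rw [← h4]; exact i.isLt
      refine ⟨h6, ?_⟩
      have h7 : i = ⟨p.1.2.val, h6⟩ := Fin.ext h4
      rw [← h7]; exact h5
  · rw [if_neg hc, if_neg hc]
    simp only [expo_zv]
    have h1 : ∀ a0 : Fin m, (if p.1.2.val - p.1.1.val ≤ a0.val then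
        ∑ i : Fin s, (if b i = a0 ∧ Fin.castLE h i = (⟨_, p.2⟩ : Fin r) then 1 else 0) else 0) =
        ∑ i : Fin s, (if b i = a0 ∧ (i.val = p.1.1.val ∧ p.1.2.val - p.1.1.val ≤ (b i).val)
          then 1 else 0) := by
      intro a0
      split_ifs with h2
      · apply Finset.sum_congr rfl
        intro i _
        congr 1
        apply propext
        constructor
        · rintro ⟨h3, h4⟩
          refine ⟨h3, ?_, by rw [h3]; exact h2⟩
          have := congrArg Fin.val h4
          simp only [Fin.val_castLE] at this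
          omega
        · rintro ⟨h3, h4, h5⟩
          refine ⟨h3, ?_⟩
          ext
          simp only [Fin.val_castLE]
          omega
      · symm
        apply Finset.sum_eq_zero
        intro i _
        rw [if_neg]
        rintro ⟨h3, h4, h5⟩
        rw [h3] at h5
        exact h2 h5
    rw [Finset.sum_congr rfl (fun a0 _ => h1 a0), Finset.sum_comm]
    have h2 : ∀ i : Fin s, ∑ a0 : Fin m, (if b i = a0 ∧ (i.val = p.1.1.val ∧
        p.1.2.val - p.1.1.val ≤ (b i).val) then 1 else 0) =
        if (i.val = p.1.1.val ∧ p.1.2.val - p.1.1.val ≤ (b i).val) then 1 else 0 := by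
      intro i
      split_ifs with h3
      · simp [h3]
      · apply Finset.sum_eq_zero
        intro a0 _
        rw [if_neg]
        rintro ⟨_, h4⟩
        exact h3 h4
    rw [Finset.sum_congr rfl (fun i _ => h2 i)]
    by_cases h3 : ∃ hx : p.1.1.val < s, p.1.2.val - p.1.1.val ≤ (b ⟨_, hx⟩).val
    · rw [if_pos h3]
      obtain ⟨hy, h4⟩ := h3
      rw [Finset.sum_eq_single ⟨p.1.1.val, hy⟩]
      · simp [h4]
      · intro i _ hi
        rw [if_neg]
        rintro ⟨h5, _⟩
        exact hi (Fin.ext h5)
      · intro h5; exact absurd (Finset.mem_univ _) h5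
    · rw [if_neg h3]
      apply Finset.sum_eq_zero
      intro i _
      rw [if_neg]
      rintro ⟨h4, h5⟩
      apply h3
      have h6 : p.1.1.val < s := by rw [← h4]; exact i.isLt
      refine ⟨h6, ?_⟩
      have h7 : i = ⟨p.1.1.val, h6⟩ := Fin.ext h4
      rw [← h7]; exact h5

variable {K : Type*} [Field K]

/-- the ideal of `t`-minors in the polynomial ring -/
noncomputable def minP (K : Type*) [Field K] (n m t : ℕ) : Ideal (MvPolynomial (Fin n × Fin m) K) :=
  Ideal.span {f | ∃ (a : Fin t → Fin n) (b : Fin t → Fin m), f = ((XP K n m).submatrix a b).det}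

theorem minor_mem {n m t s : ℕ} (h : t ≤ s) : ∀ (a : Fin s → Fin n) (b : Fin s → Fin m),
    ((XP K n m).submatrix a b).det ∈ minP K n m t := by
  induction h with
  | refl => intro a b; exact Ideal.subset_span ⟨a, b, rfl⟩
  | step _ ih =>
    intro a b
    rw [Matrix.det_succ_row_zero]
    apply Ideal.sum_mem
    intro j _
    apply Ideal.mul_mem_left
    rw [Matrix.submatrix_submatrix]
    exact ih _ _

theorem minor_homogeneous {n m s : ℕ} (a : Fin s → Fin n) (b : Fin s → Fin m) :
    (((XP K n m).submatrix a b).det).IsHomogeneous s := by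
  rw [Matrix.det_apply]
  apply IsHomogeneous.sum
  intro σ _
  have h1 : (∏ i, (XP K n m).submatrix a b (σ i) i).IsHomogeneous (∑ i : Fin s, 1) := by
    apply IsHomogeneous.prod
    intro i _
    simp only [XP, Matrix.submatrix_apply, Matrix.of_apply]
    exact isHomogeneous_X _ _
  simp only [Finset.sum_const, Finset.card_univ, Fintype.card_fin, smul_eq_mul, mul_one] at h1
  rw [Units.smul_def]
  have h2 : (Equiv.Perm.sign σ : ℤ) • (∏ i, (XP K n m).submatrix a b (σ i) i) ∈
      homogeneousSubmodule (Fin n × Fin m) K s := zsmul_mem h1 _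
  exact h2

theorem minP_le_ker (n m r : ℕ) (f : MvPolynomial (Fin n × Fin m) K)
    (hf : f ∈ minP K n m (r + 1)) : psi K n m r f = 0 := by
  have : minP K n m (r + 1) ≤ RingHom.ker (psi K n m r) := by
    rw [minP, Ideal.span_le]
    rintro _ ⟨a, b, rfl⟩
    exact psi_minor_eq_zero n m r (Nat.lt_succ_self r) a b
  exact this hf

theorem PP.pred {n m : ℕ} {U : ℕ → ℕ → ℕ} (h : PP n m U) : PP n m (fun x y => U x y - 1) :=
  ⟨fun x y => Nat.sub_le_sub_right (h.left x y) 1, fun x y => Nat.sub_le_sub_right (h.right x y) 1,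
    fun x y hx => by simp [h.zl x y hx], fun x y hy => by simp [h.zr x y hy]⟩

/-- existence of standard products of minors -/
theorem exists_std (K : Type*) [Field K] (n m : ℕ) : ∀ (N : ℕ) (U : ℕ → ℕ → ℕ), PP n m U →
    U 0 0 ≤ N → ∃ f : MvPolynomial (Fin n × Fin m) K,
      f.IsHomogeneous (∑ k ∈ range (min n m), U k k) ∧
      (∀ r, U r r = 0 → psi K n m r f ≠ 0 ∧
        ∀ p : Cell n m r, T ((MonomialOrder.lex (σ := BV n m r)).degree (psi K n m r f)) p =
          U p.1.1.val p.1.2.val) ∧
      (∀ t, 1 ≤ U t t → f ∈ minP K n m (t + 1)) := by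
  intro N
  induction N with
  | zero =>
    intro U hU h0
    have hz : ∀ x y, U x y = 0 := by
      intro x y
      have h1 := hU.anti_left (Nat.zero_le x) y
      have h2 := hU.anti_right 0 (Nat.zero_le y)
      omega
    refine ⟨1, ?_, ?_, ?_⟩
    · simp only [hz, Finset.sum_const_zero]
      exact isHomogeneous_one _ _
    · intro r _
      refine ⟨by rw [map_one]; exact one_ne_zero, ?_⟩
      intro p
      rw [map_one, MonomialOrder.degree_one, T_zero, hz]
    · intro t ht
      rw [hz] at ht
      omega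
  | succ N ih =>
    intro U hU h0
    obtain ⟨g, hg1, hg2, hg3⟩ := ih _ hU.pred (by show U 0 0 - 1 ≤ N; omega)
    obtain ⟨s, a, b, ha, hb, hs, hl, hr⟩ := young hU
    refine ⟨((XP K n m).submatrix a b).det * g, ?_, ?_, ?_⟩
    · have h1 := (minor_homogeneous (K := K) a b).mul hg1
      have h2 : s + ∑ k ∈ range (min n m), (U k k - 1) = ∑ k ∈ range (min n m), U k k := by
        have h3 : ∀ k, U k k = (U k k - 1) + (if k < s then 1 else 0) := by
          intro k
          split_ifs with h
          · have := (hs k).mpr h; omega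
          · have : ¬ 1 ≤ U k k := fun h' => h ((hs k).mp h')
            omega
        have h4 : ∑ k ∈ range (min n m), U k k =
            ∑ k ∈ range (min n m), ((U k k - 1) + (if k < s then 1 else 0)) :=
          Finset.sum_congr rfl (fun k _ => h3 k)
        rw [h4, Finset.sum_add_distrib]
        have h5 : ∑ k ∈ range (min n m), (if k < s then 1 else 0) = s := by
          rw [← Finset.sum_filter, Finset.sum_const, smul_eq_mul, mul_one]
          have h6 : (range (min n m)).filter (fun k => k < s) = range s := by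
            ext k
            simp only [Finset.mem_filter, Finset.mem_range]
            constructor
            · exact fun h => h.2
            · intro h
              refine ⟨?_, h⟩
              have h7 := (hs k).mpr h
              by_contra hcon
              rw [not_lt] at hcon
              rcases le_total n m with h8 | h8
              · rw [min_eq_left h8] at hcon
                rw [hU.zl k k hcon] at h7; omega
              · rw [min_eq_right h8] at hcon
                rw [hU.zr k k hcon] at h7; omega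
          rw [h6, Finset.card_range]
        rw [h5]; ring
      rw [← h2]
      exact h1
    · intro r hr0
      have hsr : s ≤ r := by
        by_contra hcon
        push Not at hcon
        have := (hs r).mpr hcon
        omega
      obtain ⟨e1, e2⟩ := psi_minor_degree (K := K) a b ha hb hsr
      obtain ⟨e3, e4⟩ := hg2 r (by show U r r - 1 = 0; omega)
      refine ⟨by rw [map_mul]; exact mul_ne_zero e1 e3, ?_⟩
      intro p
      rw [map_mul, MonomialOrder.degree_mul e1 e3, T_add, e4 p, e2, T_expo hsr a b p]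
      by_cases hc : p.1.2.val ≤ p.1.1.val
      · rw [if_pos hc]
        have h1 := hl p.1.1.val p.1.2.val hc
        split_ifs with h2
        · have := h1.mpr h2; omega
        · have : ¬ 1 ≤ U p.1.1.val p.1.2.val := fun h' => h2 (h1.mp h')
          omega
      · rw [if_neg hc]
        have h1 := hr p.1.1.val p.1.2.val (by omega)
        split_ifs with h2
        · have := h1.mpr h2; omega
        · have : ¬ 1 ≤ U p.1.1.val p.1.2.val := fun h' => h2 (h1.mp h')
          omega
    · intro t ht
      apply Ideal.mul_mem_right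
      exact minor_mem ((hs t).mp ht) a b

end Pool.Agent.Lib.MP_829e7b_ag
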