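import Mathlib
import Pool.Agent.Lib.MP_829e7b_ag.Std

set_option autoImplicit false
set_option linter.unusedSectionVars false

namespace Pool.Agent.Lib.MP_829e7b_ag

open Finset MvPolynomial

/-- extension by zero of a matrix -/
def ext0 {n m : ℕ} (μ : Fin n × Fin m →₀ ℕ) (i j : ℕ) : ℕ :=
  if h : i < n ∧ j < m then μ (⟨i, h.1⟩, ⟨j, h.2⟩) else 0

/-- the plane partition of a matrix -/
def UU {n m : ℕ} (μ : Fin n × Fin m →₀ ℕ) (x y : ℕ) : ℕ :=
  if x < n ∧ y < m then rsk (ext0 μ) n m x y else 0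

theorem UU_pp {n m : ℕ} (μ : Fin n × Fin m →₀ ℕ) : PP n m (UU μ) := by
  refine ⟨?_, ?_, ?_, ?_⟩
  · intro x y
    unfold UU
    split_ifs with h1 h2 h2
    · exact rsk_anti_left _ _ _ _ _ h1.1.le h1.2
    · exact absurd ⟨by omega, h1.2⟩ h2
    · exact Nat.zero_le _
    · exact le_refl _
  · intro x y
    unfold UU
    split_ifs with h1 h2 h2
    · exact rsk_anti_right _ _ _ _ _ h1.1 h1.2.le
    · exact absurd ⟨h1.1, by omega⟩ h2
    · exact Nat.zero_le _
    · exact le_refl _
  · intro x y hx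
    unfold UU
    rw [if_neg (by omega)]
  · intro x y hy
    unfold UU
    rw [if_neg (by omega)]

theorem UU_inj {n m : ℕ} {μ μ' : Fin n × Fin m →₀ ℕ}
    (h : ∀ x y, x < n → y < m → UU μ x y = UU μ' x y) : μ = μ' := by
  ext ⟨i, j⟩
  have h1 := rsk_injective (ext0 μ) (ext0 μ') n m (fun x hx y hy => by
    have := h x y hx hy
    unfold UU at this
    rwa [if_pos ⟨hx, hy⟩, if_pos ⟨hx, hy⟩] at this) i.val j.val i.isLt j.isLt
  unfold ext0 at h1
  rw [dif_pos ⟨i.isLt, j.isLt⟩, dif_pos ⟨i.isLt, j.isLt⟩] at h1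
  exact h1

theorem UU_trace {n m : ℕ} (μ : Fin n × Fin m →₀ ℕ) :
    ∑ k ∈ range (min n m), UU μ k k = μ.degree := by
  have h1 : ∑ k ∈ range (min n m), UU μ k k = ∑ k ∈ range (min n m), rsk (ext0 μ) n m k k := by
    apply Finset.sum_congr rfl
    intro k hk
    rw [Finset.mem_range] at hk
    unfold UU
    rw [if_pos (by omega)]
  rw [h1, rsk_trace, Finsupp.degree_eq_sum, Fintype.sum_prod_type,
    Finset.sum_range]
  apply Finset.sum_congr rfl
  intro i _
  rw [Finset.sum_range]
  apply Finset.sum_congr rfl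
  intro j _
  unfold ext0
  rw [dif_pos ⟨i.isLt, j.isLt⟩]

/-- the standard product of minors attached to a matrix -/
noncomputable def stdm (K : Type*) [Field K] {n m : ℕ} (μ : Fin n × Fin m →₀ ℕ) :
    MvPolynomial (Fin n × Fin m) K :=
  Classical.choose (exists_std K n m _ (UU μ) (UU_pp μ) le_rfl)

theorem stdm_homogeneous (K : Type*) [Field K] {n m : ℕ} (μ : Fin n × Fin m →₀ ℕ) :
    (stdm K μ).IsHomogeneous μ.degree := by
  have := (Classical.choose_spec (exists_std K n m _ (UU μ) (UU_pp μ) le_rfl)).1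
  have h2 : (stdm K μ).IsHomogeneous (∑ k ∈ range (min n m), UU μ k k) := this
  rw [UU_trace] at h2
  exact h2

theorem stdm_spec (K : Type*) [Field K] {n m : ℕ} (μ : Fin n × Fin m →₀ ℕ) (r : ℕ)
    (h : UU μ r r = 0) : psi K n m r (stdm K μ) ≠ 0 ∧
        ∀ p : Cell n m r, T ((MonomialOrder.lex (σ := BV n m r)).degree (psi K n m r (stdm K μ))) p =
          UU μ p.1.1.val p.1.2.val :=
  (Classical.choose_spec (exists_std K n m _ (UU μ) (UU_pp μ) le_rfl)).2.1 r h

theorem stdm_mem (K : Type*) [Field K] {n m : ℕ} (μ : Fin n × Fin m →₀ ℕ) (t : ℕ)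
    (h : 1 ≤ UU μ t t) : stdm K μ ∈ minP K n m (t + 1) :=
  (Classical.choose_spec (exists_std K n m _ (UU μ) (UU_pp μ) le_rfl)).2.2 t h

variable {K : Type*} [Field K]

theorem degree_linComb {τ ι : Type*} (mo : MonomialOrder τ) (G : ι → MvPolynomial τ K) (s : Finset ι)
    (hs : s.Nonempty) (c : ι → K) (hc : ∀ i ∈ s, c i ≠ 0) (hG : ∀ i ∈ s, G i ≠ 0)
    (hinj : ∀ i ∈ s, ∀ j ∈ s, mo.degree (G i) = mo.degree (G j) → i = j) :
    ∃ i ∈ s, ∑ i ∈ s, c i • G i ≠ 0 ∧ mo.degree (∑ i ∈ s, c i • G i) = mo.degree (G i) := by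
  classical
  obtain ⟨i, hi, hmax⟩ := Finset.exists_max_image s (fun i => mo.toSyn (mo.degree (G i))) hs
  refine ⟨i, hi, ?_⟩
  have h1 : (∑ j ∈ s, c j • G j).coeff (mo.degree (G i)) ≠ 0 := by
    rw [coeff_sum, Finset.sum_eq_single i]
    · rw [coeff_smul, smul_eq_mul]
      apply mul_ne_zero (hc i hi)
      exact mo.leadingCoeff_ne_zero_iff.mpr (hG i hi)
    · intro j hj hji
      rw [coeff_smul, smul_eq_mul]
      rw [mo.coeff_eq_zero_of_lt, mul_zero]
      apply lt_of_le_of_ne (hmax j hj)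
      intro h
      exact hji (hinj j hj i hi (mo.toSyn.injective h))
    · intro h; exact absurd hi h
  refine ⟨?_, ?_⟩
  · intro h
    rw [h] at h1
    exact h1 (coeff_zero _)
  · apply degree_eq_of_support mo _ _ h1
    intro e he
    rw [mem_support_iff, coeff_sum] at he
    obtain ⟨j, hj, hne⟩ := Finset.exists_ne_zero_of_sum_ne_zero he
    rw [coeff_smul, smul_eq_mul] at hne
    have h2 : (G j).coeff e ≠ 0 := right_ne_zero_of_mul hne
    exact (mo.le_degree (by rwa [mem_support_iff])).trans (hmax j hj)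

/-- T-values on cells determine the matrix, once the plane partition is supported on the cells -/
theorem UU_inj_cells {n m r : ℕ} {μ μ' : Fin n × Fin m →₀ ℕ} (h : UU μ r r = 0) (h' : UU μ' r r = 0)
    (he : ∀ p : Cell n m r, UU μ p.1.1.val p.1.2.val = UU μ' p.1.1.val p.1.2.val) : μ = μ' := by
  apply UU_inj
  intro x y hx hy
  by_cases hr : min x y < r
  · exact he ⟨(⟨x, hx⟩, ⟨y, hy⟩), hr⟩
  · push Not at hr
    have h1 : ∀ ν : Fin n × Fin m →₀ ℕ, UU ν r r = 0 → UU ν x y = 0 := by
      intro ν hν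
      have h2 := (UU_pp ν).anti_left (show r ≤ x by omega) y
      have h3 := (UU_pp ν).anti_right r (show r ≤ y by omega)
      omega
    rw [h1 μ h, h1 μ' h']

theorem UU_min {n m : ℕ} (μ : Fin n × Fin m →₀ ℕ) : UU μ (min n m) (min n m) = 0 := by
  rcases le_total n m with h | h
  · exact (UU_pp μ).zl _ _ (by omega)
  · exact (UU_pp μ).zr _ _ (by omega)

theorem stdm_degree_inj {n m r : ℕ} {μ μ' : Fin n × Fin m →₀ ℕ} (h : UU μ r r = 0)
    (h' : UU μ' r r = 0)
    (he : (MonomialOrder.lex (σ := BV n m r)).degree (psi K n m r (stdm K μ)) =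
      (MonomialOrder.lex (σ := BV n m r)).degree (psi K n m r (stdm K μ'))) : μ = μ' := by
  apply UU_inj_cells h h'
  intro p
  rw [← (stdm_spec K μ r h).2 p, ← (stdm_spec K μ' r h').2 p, he]

/-- nonvanishing of linear combinations -/
theorem stdm_comb {n m r : ℕ} (c : (Fin n × Fin m →₀ ℕ) → K) (s : Finset (Fin n × Fin m →₀ ℕ))
    (hs : s.Nonempty) (hc : ∀ μ ∈ s, c μ ≠ 0) (h0 : ∀ μ ∈ s, UU μ r r = 0) :
    ∃ μ ∈ s, psi K n m r (∑ μ ∈ s, c μ • stdm K μ) ≠ 0 ∧
      (MonomialOrder.lex (σ := BV n m r)).degree (psi K n m r (∑ μ ∈ s, c μ • stdm K μ)) =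
      (MonomialOrder.lex (σ := BV n m r)).degree (psi K n m r (stdm K μ)) := by
  have h1 := degree_linComb (MonomialOrder.lex (σ := BV n m r)) (fun μ => psi K n m r (stdm K μ)) s
    hs c hc (fun μ hμ => (stdm_spec K μ r (h0 μ hμ)).1)
    (fun μ hμ μ' hμ' he => stdm_degree_inj (h0 μ hμ) (h0 μ' hμ') he)
  have h2 : psi K n m r (∑ μ ∈ s, c μ • stdm K μ) = ∑ μ ∈ s, c μ • psi K n m r (stdm K μ) := by
    rw [map_sum]
    apply Finset.sum_congr rfl
    intro μ _
    rw [map_smul]
  rw [h2]
  exact h1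

theorem stdm_linearIndependent (K : Type*) [Field K] (n m : ℕ) :
    LinearIndependent K (stdm K : (Fin n × Fin m →₀ ℕ) → MvPolynomial (Fin n × Fin m) K) := by
  rw [linearIndependent_iff]
  intro c hc
  by_contra hne
  obtain ⟨μ, _, h1, _⟩ := stdm_comb (r := min n m) (fun μ => c μ) c.support
    (Finsupp.support_nonempty_iff.mpr hne) (fun μ hμ => Finsupp.mem_support_iff.mp hμ)
    (fun μ _ => UU_min μ)
  apply h1
  rw [Finsupp.linearCombination_apply, Finsupp.sum] at hc
  rw [hc, map_zero]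

theorem stdm_span (K : Type*) [Field K] (n m : ℕ) :
    Submodule.span K (Set.range (stdm K : (Fin n × Fin m →₀ ℕ) → MvPolynomial (Fin n × Fin m) K)) = ⊤ := by
  classical
  rw [eq_top_iff]
  have key : ∀ k : ℕ, homogeneousSubmodule (Fin n × Fin m) K k ≤
      Submodule.span K (Set.range (stdm K : (Fin n × Fin m →₀ ℕ) → MvPolynomial (Fin n × Fin m) K)) := by
    intro k
    let S : Set (Fin n × Fin m →₀ ℕ) := {d | d.degree = k}
    have hfin : S.Finite := Finsupp.finite_of_degree_eq k
    have : Fintype S := hfin.fintype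
    let e : homogeneousSubmodule (Fin n × Fin m) K k ≃ₗ[K] (S →₀ K) :=
      (LinearEquiv.ofEq _ _ (homogeneousSubmodule_eq_finsupp_supported (Fin n × Fin m) K k)).trans
        (AddMonoidAlgebra.supportedEquivFinsupp S)
    have : FiniteDimensional K (homogeneousSubmodule (Fin n × Fin m) K k) :=
      Module.Finite.equiv e.symm
    have hrank : Module.finrank K (homogeneousSubmodule (Fin n × Fin m) K k) = Fintype.card S := by
      rw [e.finrank_eq, Module.finrank_finsupp_self]
    let v : S → homogeneousSubmodule (Fin n × Fin m) K k := fun μ =>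
      ⟨stdm K μ.1, by
        have := stdm_homogeneous K μ.1
        rw [show μ.1.degree = k from μ.2] at this
        exact this⟩
    have hv : LinearIndependent K v := by
      have h1 : LinearIndependent K (fun μ : S => stdm K μ.1) :=
        (stdm_linearIndependent K n m).comp _ Subtype.val_injective
      exact LinearIndependent.of_comp (homogeneousSubmodule (Fin n × Fin m) K k).subtype h1
    have hspan := hv.span_eq_top_of_card_eq_finrank' hrank.symm
    intro f hf
    have h2 : (⟨f, hf⟩ : homogeneousSubmodule (Fin n × Fin m) K k) ∈ Submodule.span K (Set.range v) := by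
      rw [hspan]; exact Submodule.mem_top
    have h3 := Submodule.mem_map_of_mem (f := (homogeneousSubmodule (Fin n × Fin m) K k).subtype) h2
    rw [Submodule.map_span] at h3
    refine Submodule.span_mono ?_ h3
    rintro _ ⟨_, ⟨μ, rfl⟩, rfl⟩
    exact ⟨μ.1, rfl⟩
  intro f _
  rw [← sum_homogeneousComponent f]
  apply Submodule.sum_mem
  intro k _
  exact key k (homogeneousComponent_mem k f)

/-- every polynomial is a combination of standard ones -/
theorem exists_comb {n m : ℕ} (f : MvPolynomial (Fin n × Fin m) K) :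
    ∃ c : (Fin n × Fin m →₀ ℕ) →₀ K, f = ∑ μ ∈ c.support, c μ • stdm K μ := by
  have h1 : f ∈ Submodule.span K (Set.range (stdm K : (Fin n × Fin m →₀ ℕ) → MvPolynomial (Fin n × Fin m) K)) := by
    rw [stdm_span]; exact Submodule.mem_top
  rw [Finsupp.mem_span_range_iff_exists_finsupp] at h1
  obtain ⟨c, hc⟩ := h1
  exact ⟨c, hc.symm⟩

/-- The main dichotomy. -/
theorem dichotomy {n m : ℕ} (r : ℕ) (f : MvPolynomial (Fin n × Fin m) K) :
    f ∈ minP K n m (r + 1) ∨ ∃ μ : Fin n × Fin m →₀ ℕ, UU μ r r = 0 ∧ psi K n m r f ≠ 0 ∧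
      (MonomialOrder.lex (σ := BV n m r)).degree (psi K n m r f) =
      (MonomialOrder.lex (σ := BV n m r)).degree (psi K n m r (stdm K μ)) := by
  classical
  obtain ⟨c, hc⟩ := exists_comb f
  let s := c.support.filter (fun μ => UU μ r r = 0)
  have h1 : f = ∑ μ ∈ s, c μ • stdm K μ +
      ∑ μ ∈ c.support.filter (fun μ => ¬ UU μ r r = 0), c μ • stdm K μ := by
    rw [Finset.sum_filter_add_sum_filter_not]
    exact hc
  have h2 : ∑ μ ∈ c.support.filter (fun μ => ¬ UU μ r r = 0), c μ • stdm K μ ∈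
      minP K n m (r + 1) := by
    apply Ideal.sum_mem
    intro μ hμ
    rw [Finset.mem_filter] at hμ
    rw [MvPolynomial.smul_eq_C_mul]
    apply Ideal.mul_mem_left
    exact stdm_mem K μ r (by omega)
  rcases s.eq_empty_or_nonempty with hs | hs
  · left
    rw [h1, hs, Finset.sum_empty, zero_add]
    exact h2
  · right
    obtain ⟨μ, hμ, h3, h4⟩ := stdm_comb (r := r) (fun μ => c μ) s hs
      (fun μ hμ => by
        have := (Finset.mem_filter.mp hμ).1
        exact Finsupp.mem_support_iff.mp this)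
      (fun μ hμ => (Finset.mem_filter.mp hμ).2)
    refine ⟨μ, (Finset.mem_filter.mp hμ).2, ?_⟩
    have h5 : psi K n m r f = psi K n m r (∑ μ ∈ s, c μ • stdm K μ) := by
      conv_lhs => rw [h1]
      rw [map_add, minP_le_ker n m r _ h2, add_zero]
    rw [h5]
    exact ⟨h3, h4⟩

theorem psi_eq_zero_iff {n m : ℕ} (r : ℕ) (f : MvPolynomial (Fin n × Fin m) K) :
    psi K n m r f = 0 ↔ f ∈ minP K n m (r + 1) := by
  constructor
  · intro h
    rcases dichotomy r f with h1 | ⟨μ, _, h1, _⟩
    · exact h1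
    · exact absurd h h1
  · exact minP_le_ker n m r f


/-- the valuation -/
noncomputable def val (K : Type*) [Field K] (n m r : ℕ) (f : MvPolynomial (Fin n × Fin m) K) :
    Cell n m r → ℕ :=
  T ((MonomialOrder.lex (σ := BV n m r)).degree (psi K n m r f))

theorem val_mul {n m r : ℕ} {f g : MvPolynomial (Fin n × Fin m) K} (hf : psi K n m r f ≠ 0)
    (hg : psi K n m r g ≠ 0) : val K n m r (f * g) = val K n m r f + val K n m r g := by
  funext p
  unfold val
  rw [map_mul, MonomialOrder.degree_mul hf hg, T_add]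
  rfl

theorem val_one {n m r : ℕ} : val K n m r 1 = 0 := by
  funext p
  unfold val
  rw [map_one, MonomialOrder.degree_one, T_zero]
  rfl

theorem val_mem_cone {n m r : ℕ} {f : MvPolynomial (Fin n × Fin m) K} (hf : psi K n m r f ≠ 0) :
    val K n m r f ∈ cone (crel (n := n) (m := m) (r := r)) := by
  rcases dichotomy r f with h | ⟨μ, h0, _, h2⟩
  · exact absurd (minP_le_ker n m r f h) hf
  · intro a b hab
    unfold val
    rw [h2, (stdm_spec K μ r h0).2 a, (stdm_spec K μ r h0).2 b]
    rcases hab with ⟨h3, h4⟩ | ⟨h3, h4⟩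
    · rw [h3, h4]
      exact (UU_pp μ).left _ _
    · rw [h3, h4]
      exact (UU_pp μ).right _ _

/-- extension of a point of the cone -/
def extU {n m r : ℕ} (s : Cell n m r → ℕ) (x y : ℕ) : ℕ :=
  if h : (x < n ∧ y < m) ∧ min x y < r then s ⟨(⟨x, h.1.1⟩, ⟨y, h.1.2⟩), h.2⟩ else 0

theorem extU_pp {n m r : ℕ} {s : Cell n m r → ℕ} (hs : s ∈ cone (crel (n := n) (m := m) (r := r))) :
    PP n m (extU s) := by
  refine ⟨?_, ?_, ?_, ?_⟩
  · intro x y
    unfold extU
    split_ifs with h1 h2 h2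
    · exact hs _ _ (Or.inl ⟨rfl, rfl⟩)
    · exact absurd ⟨⟨by omega, by omega⟩, by omega⟩ h2
    · exact Nat.zero_le _
    · exact le_refl _
  · intro x y
    unfold extU
    split_ifs with h1 h2 h2
    · exact hs _ _ (Or.inr ⟨rfl, rfl⟩)
    · exact absurd ⟨⟨by omega, by omega⟩, by omega⟩ h2
    · exact Nat.zero_le _
    · exact le_refl _
  · intro x y hx
    unfold extU
    rw [dif_neg (by omega)]
  · intro x y hy
    unfold extU
    rw [dif_neg (by omega)]

theorem val_surj (K : Type*) [Field K] {n m r : ℕ} {s : Cell n m r → ℕ}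
    (hs : s ∈ cone (crel (n := n) (m := m) (r := r))) :
    ∃ f : MvPolynomial (Fin n × Fin m) K, psi K n m r f ≠ 0 ∧ val K n m r f = s := by
  obtain ⟨f, _, h2, _⟩ := exists_std K n m _ (extU s) (extU_pp hs) le_rfl
  obtain ⟨h3, h4⟩ := h2 r (by unfold extU; rw [dif_neg (by omega)])
  refine ⟨f, h3, ?_⟩
  funext p
  unfold val
  rw [h4 p]
  unfold extU
  rw [dif_pos ⟨⟨p.1.1.isLt, p.1.2.isLt⟩, p.2⟩]

theorem val_inj {n m r : ℕ} {f g : MvPolynomial (Fin n × Fin m) K} (hf : psi K n m r f ≠ 0)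
    (hg : psi K n m r g ≠ 0) (h : val K n m r f = val K n m r g) :
    (MonomialOrder.lex (σ := BV n m r)).degree (psi K n m r f) =
      (MonomialOrder.lex (σ := BV n m r)).degree (psi K n m r g) := by
  rcases dichotomy r f with h1 | ⟨μ, h0, _, h2⟩
  · exact absurd (minP_le_ker n m r f h1) hf
  rcases dichotomy r g with h1' | ⟨μ', h0', _, h2'⟩
  · exact absurd (minP_le_ker n m r g h1') hg
  rw [h2, h2']
  have : μ = μ' := by
    apply UU_inj_cells h0 h0'
    intro p
    have := congrFun h p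
    unfold val at this
    rw [h2, h2', (stdm_spec K μ r h0).2 p, (stdm_spec K μ' r h0').2 p] at this
    exact this
  rw [this]

/-- cancelling leading terms -/
theorem val_cancel {n m r : ℕ} {f g : MvPolynomial (Fin n × Fin m) K} (hf : psi K n m r f ≠ 0)
    (hg : psi K n m r g ≠ 0) (h : val K n m r f = val K n m r g) :
    ∃ c : K, psi K n m r (f - c • g) = 0 ∨
      (MonomialOrder.lex (σ := BV n m r)).toSyn
        ((MonomialOrder.lex (σ := BV n m r)).degree (psi K n m r (f - c • g))) <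
      (MonomialOrder.lex (σ := BV n m r)).toSyn
        ((MonomialOrder.lex (σ := BV n m r)).degree (psi K n m r f)) := by
  set mo := MonomialOrder.lex (σ := BV n m r)
  have hd := val_inj hf hg h
  set F := psi K n m r f
  set G := psi K n m r g
  have hG : mo.leadingCoeff G ≠ 0 := mo.leadingCoeff_ne_zero_iff.mpr hg
  refine ⟨mo.leadingCoeff F / mo.leadingCoeff G, ?_⟩
  by_cases hz : psi K n m r (f - (mo.leadingCoeff F / mo.leadingCoeff G) • g) = 0
  · exact Or.inl hz
  · right
    have h1 : psi K n m r (f - (mo.leadingCoeff F / mo.leadingCoeff G) • g) =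
        F - (mo.leadingCoeff F / mo.leadingCoeff G) • G := by
      rw [map_sub, map_smul]
    rw [h1] at hz ⊢
    set H := F - (mo.leadingCoeff F / mo.leadingCoeff G) • G
    have h2 : H.coeff (mo.degree F) = 0 := by
      show (F - (mo.leadingCoeff F / mo.leadingCoeff G) • G).coeff (mo.degree F) = 0
      rw [coeff_sub, coeff_smul, smul_eq_mul]
      have h3 : G.coeff (mo.degree F) = mo.leadingCoeff G := by
        rw [show mo.degree F = mo.degree G from hd]; rfl
      rw [h3, div_mul_cancel₀ _ hG]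
      exact sub_self _
    have h4 : mo.toSyn (mo.degree H) ≤ mo.toSyn (mo.degree F) := by
      rw [mo.degree_le_iff]
      intro e he
      rw [mem_support_iff] at he
      have h5 : F.coeff e ≠ 0 ∨ G.coeff e ≠ 0 := by
        by_contra hcon
        push Not at hcon
        apply he
        show (F - (mo.leadingCoeff F / mo.leadingCoeff G) • G).coeff e = 0
        rw [coeff_sub, coeff_smul, smul_eq_mul, hcon.1, hcon.2, mul_zero, sub_zero]
      rcases h5 with h5 | h5
      · exact mo.le_degree (by rwa [mem_support_iff])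
      · rw [show mo.degree F = mo.degree G from hd]
        exact mo.le_degree (by rwa [mem_support_iff])
    apply lt_of_le_of_ne h4
    intro h6
    have h7 := mo.toSyn.injective h6
    rw [← h7] at h2
    exact (mo.leadingCoeff_ne_zero_iff.mpr hz) h2

end Pool.Agent.Lib.MP_829e7b_ag
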