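import Mathlib
import Pool.Agent.Lib.MP_829e7b_ag.Val

set_option autoImplicit false
set_option linter.unusedSectionVars false

namespace Pool.Agent.Lib.MP_829e7b_ag

open Finset MvPolynomial

variable {K : Type*} [Field K] {n m r : ℕ}

/-- the values of an ideal -/
def valSet (r : ℕ) (J : Ideal (MvPolynomial (Fin n × Fin m) K)) : Set (Cell n m r → ℕ) :=
  {s | ∃ f ∈ J, psi K n m r f ≠ 0 ∧ val K n m r f = s}

theorem valSet_sub_cone (J : Ideal (MvPolynomial (Fin n × Fin m) K)) :
    valSet r J ⊆ cone (crel (n := n) (m := m) (r := r)) := by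
  rintro s ⟨f, _, hf, rfl⟩
  exact val_mem_cone hf

theorem ncard_le_finrank (J : Ideal (MvPolynomial (Fin n × Fin m) K))
    [FiniteDimensional K (MvPolynomial (Fin n × Fin m) K ⧸ J)] :
    (cone (crel (n := n) (m := m) (r := r)) \ valSet r J).Finite ∧
    (cone (crel (n := n) (m := m) (r := r)) \ valSet r J).ncard ≤
      Module.finrank K (MvPolynomial (Fin n × Fin m) K ⧸ J) := by
  classical
  set D := cone (crel (n := n) (m := m) (r := r)) \ valSet r J
  have hch : ∀ s : D, ∃ f : MvPolynomial (Fin n × Fin m) K, psi K n m r f ≠ 0 ∧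
      val K n m r f = s.1 := fun s => val_surj K s.2.1
  choose f hf1 hf2 using hch
  have hli : LinearIndependent K (fun s : D => (Ideal.Quotient.mkₐ K J (f s))) := by
    rw [linearIndependent_iff]
    intro c hc
    by_contra hne
    rw [Finsupp.linearCombination_apply, Finsupp.sum] at hc
    have h1 := degree_linComb (MonomialOrder.lex (σ := BV n m r)) (fun s : D => psi K n m r (f s))
      c.support (Finsupp.support_nonempty_iff.mpr hne) (fun s => c s)
      (fun s hs => Finsupp.mem_support_iff.mp hs) (fun s _ => hf1 s)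
      (fun s _ s' _ he => by
        apply Subtype.ext
        rw [← hf2 s, ← hf2 s']
        funext p
        unfold val
        rw [he])
    obtain ⟨s, _, h2, h3⟩ := h1
    have h4 : psi K n m r (∑ s ∈ c.support, c s • f s) = ∑ s ∈ c.support, c s • psi K n m r (f s) := by
      rw [map_sum]
      apply Finset.sum_congr rfl
      intro μ _
      rw [map_smul]
    rw [← h4] at h2 h3
    have h5 : ∑ s ∈ c.support, c s • f s ∈ J := by
      rw [← Ideal.Quotient.eq_zero_iff_mem]
      have h6 : (Ideal.Quotient.mkₐ K J) (∑ s ∈ c.support, c s • f s) = 0 := by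
        rw [map_sum, ← hc]
        apply Finset.sum_congr rfl
        intro μ _
        rw [map_smul]
      exact h6
    apply s.2.2
    refine ⟨_, h5, h2, ?_⟩
    rw [← hf2 s]
    funext p
    unfold val
    rw [h3]
  have hfin : Finite D := hli.finite
  have hD : D.Finite := hfin
  refine ⟨hD, ?_⟩
  have : Fintype D := hD.fintype
  have h7 := hli.fintype_card_le_finrank
  rwa [← Nat.card_eq_fintype_card, Nat.card_coe_set_eq] at h7

theorem finrank_le_ncard (J : Ideal (MvPolynomial (Fin n × Fin m) K))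
    (hJ : minP K n m (r + 1) ≤ J)
    (hfin : (cone (crel (n := n) (m := m) (r := r)) \ valSet r J).Finite) :
    FiniteDimensional K (MvPolynomial (Fin n × Fin m) K ⧸ J) ∧
    Module.finrank K (MvPolynomial (Fin n × Fin m) K ⧸ J) ≤
    (cone (crel (n := n) (m := m) (r := r)) \ valSet r J).ncard := by
  classical
  set D := cone (crel (n := n) (m := m) (r := r)) \ valSet r J with hDdef
  have hch : ∀ s : D, ∃ f : MvPolynomial (Fin n × Fin m) K, psi K n m r f ≠ 0 ∧
      val K n m r f = s.1 := fun s => val_surj K s.2.1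
  choose f hf1 hf2 using hch
  have : Fintype D := hfin.fintype
  set mo := MonomialOrder.lex (σ := BV n m r)
  let W : Submodule K (MvPolynomial (Fin n × Fin m) K ⧸ J) :=
    Submodule.span K (Set.range (fun s : D => (Ideal.Quotient.mkₐ K J (f s))))
  have key : ∀ (d : mo.syn) (g : MvPolynomial (Fin n × Fin m) K),
      mo.toSyn (mo.degree (psi K n m r g)) = d → Ideal.Quotient.mkₐ K J g ∈ W := by
    intro d
    induction d using WellFoundedLT.induction with
    | ind d ih =>
      intro g hd
      by_cases hz : psi K n m r g = 0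
      · have h1 : g ∈ J := hJ ((psi_eq_zero_iff r g).mp hz)
        have h2 : Ideal.Quotient.mkₐ K J g = 0 := Ideal.Quotient.eq_zero_iff_mem.mpr h1
        rw [h2]; exact W.zero_mem
      · have hmem : ∀ g', (psi K n m r g' = 0 ∨ mo.toSyn (mo.degree (psi K n m r g')) <
            mo.toSyn (mo.degree (psi K n m r g))) → Ideal.Quotient.mkₐ K J g' ∈ W := by
          intro g' h'
          rcases h' with h' | h'
          · have h1 : g' ∈ J := hJ ((psi_eq_zero_iff r g').mp h')
            have h2 : Ideal.Quotient.mkₐ K J g' = 0 := Ideal.Quotient.eq_zero_iff_mem.mpr h1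
            rw [h2]; exact W.zero_mem
          · exact ih _ (hd ▸ h') g' rfl
        by_cases hs : val K n m r g ∈ valSet r J
        · obtain ⟨h, hhJ, hh1, hh2⟩ := hs
          obtain ⟨c, hc⟩ := val_cancel hz hh1 hh2.symm
          have h3 := hmem _ hc
          have h4 : Ideal.Quotient.mkₐ K J (g - c • h) = Ideal.Quotient.mkₐ K J g := by
            rw [map_sub, map_smul]
            have h5 : Ideal.Quotient.mkₐ K J h = 0 := Ideal.Quotient.eq_zero_iff_mem.mpr hhJ
            rw [h5, smul_zero, sub_zero]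
          rwa [h4] at h3
        · have hsD : val K n m r g ∈ D := ⟨val_mem_cone hz, hs⟩
          obtain ⟨c, hc⟩ := val_cancel hz (hf1 ⟨_, hsD⟩) (hf2 ⟨_, hsD⟩).symm
          have h3 := hmem _ hc
          rw [map_sub, map_smul] at h3
          have h4 : c • Ideal.Quotient.mkₐ K J (f ⟨_, hsD⟩) ∈ W :=
            W.smul_mem _ (Submodule.subset_span ⟨_, rfl⟩)
          have h5 := W.add_mem h3 h4
          rwa [sub_add_cancel] at h5
  have hW : W = ⊤ := by
    rw [eq_top_iff]
    intro x _
    obtain ⟨g, rfl⟩ := Ideal.Quotient.mkₐ_surjective K J x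
    exact key _ g rfl
  refine ⟨?_, ?_⟩
  · refine ⟨?_⟩
    rw [← hW]
    exact Submodule.fg_span (Set.finite_range _)
  · have h1 : Module.finrank K W ≤ Fintype.card D := finrank_range_le_card _
    rw [hW, finrank_top] at h1
    rwa [← Nat.card_eq_fintype_card, Nat.card_coe_set_eq] at h1

theorem pw_sub_valSet (J J' : Ideal (MvPolynomial (Fin n × Fin m) K)) (k : ℕ) (hk : J ^ k ≤ J') :
    pw (crel (n := n) (m := m) (r := r)) (valSet r J) k ⊆ valSet r J' := by
  rintro u ⟨l, hl, hc, s, hs, rfl⟩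
  have h1 : ∀ l : Multiset (Cell n m r → ℕ), (∀ e ∈ l, e ∈ valSet r J) →
      ∃ f ∈ J ^ (Multiset.card l), psi K n m r f ≠ 0 ∧ val K n m r f = l.sum := by
    intro l
    induction l using Multiset.induction with
    | empty =>
      intro _
      refine ⟨1, by simp, by rw [map_one]; exact one_ne_zero, ?_⟩
      rw [val_one]; simp
    | cons a l ih =>
      intro hl
      obtain ⟨f, hf1, hf2, hf3⟩ := ih (fun e he => hl e (Multiset.mem_cons_of_mem he))
      obtain ⟨g, hg1, hg2, hg3⟩ := hl a (Multiset.mem_cons_self a l)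
      refine ⟨g * f, ?_, ?_, ?_⟩
      · rw [Multiset.card_cons, pow_succ']
        exact Ideal.mul_mem_mul hg1 hf1
      · rw [map_mul]; exact mul_ne_zero hg2 hf2
      · rw [val_mul hg2 hf2, hg3, hf3, Multiset.sum_cons]
  obtain ⟨f, hf1, hf2, hf3⟩ := h1 l hl
  obtain ⟨g, hg1, hg2⟩ := val_surj K hs
  refine ⟨f * g, ?_, ?_, ?_⟩
  · apply Ideal.mul_mem_right
    exact hk (Ideal.pow_le_pow_right hc hf1)
  · rw [map_mul]; exact mul_ne_zero hf2 hg1
  · rw [val_mul hf2 hg1, hf3, hg2]

theorem cone_top (hn : 0 < n) (hm : 0 < m) (hr : 0 < r) :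
    ∀ u ∈ cone (crel (n := n) (m := m) (r := r)), ∀ p : Cell n m r,
      u p ≤ u ⟨(⟨0, hn⟩, ⟨0, hm⟩), by simpa using hr⟩ := by
  intro u hu p
  have h := extU_pp hu
  have h1 := h.anti_left (Nat.zero_le p.1.1.val) p.1.2.val
  have h2 := h.anti_right 0 (Nat.zero_le p.1.2.val)
  have h3 : extU u p.1.1.val p.1.2.val = u p := by
    unfold extU
    rw [dif_pos ⟨⟨p.1.1.isLt, p.1.2.isLt⟩, p.2⟩]
  have h4 : extU u 0 0 = u ⟨(⟨0, hn⟩, ⟨0, hm⟩), by simpa using hr⟩ := by
    unfold extU
    rw [dif_pos ⟨⟨hn, hm⟩, by simpa using hr⟩]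
  rw [← h3, ← h4]
  exact h1.trans h2

/-- The key inequality. -/
theorem key_ineq (hn : 0 < n) (hm : 0 < m) (hr : 0 < r)
    (J J' : Ideal (MvPolynomial (Fin n × Fin m) K)) (hJ' : minP K n m (r + 1) ≤ J')
    [FiniteDimensional K (MvPolynomial (Fin n × Fin m) K ⧸ J)] (k : ℕ) (hk : J ^ k ≤ J') :
    FiniteDimensional K (MvPolynomial (Fin n × Fin m) K ⧸ J') ∧
    Module.finrank K (MvPolynomial (Fin n × Fin m) K ⧸ J') ≤
      (k + Fintype.card (Cell n m r)) ^ Fintype.card (Cell n m r) *
        Module.finrank K (MvPolynomial (Fin n × Fin m) K ⧸ J) := by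
  obtain ⟨h1, h2⟩ := ncard_le_finrank (r := r) J
  obtain ⟨h3, h4⟩ := comb_main (valSet_sub_cone J) h1 _ (cone_top hn hm hr) k
  have h5 : cone (crel (n := n) (m := m) (r := r)) \ valSet r J' ⊆
      cone crel \ pw crel (valSet r J) k :=
    Set.sdiff_subset_sdiff_right (pw_sub_valSet J J' k hk)
  obtain ⟨h6, h7⟩ := finrank_le_ncard (r := r) J' hJ' (h3.subset h5)
  refine ⟨h6, h7.trans ((Set.ncard_le_ncard h5 h3).trans (h4.trans ?_))⟩
  exact Nat.mul_le_mul_left _ h2

end Pool.Agent.Lib.MP_829e7b_ag
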