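import Mathlib
import Pool.Agent.Lib.MP_829e7b_ag.Dimen

set_option autoImplicit false
set_option linter.unusedSectionVars false

namespace Pool.Agent.Lib.MP_829e7b_ag

open Finset MvPolynomial

variable {K : Type*} [Field K] {n m r : ℕ}

/-- weight: variables of the first kind have weight one -/
def wY {n m r : ℕ} (q : BV n m r) : ℕ := Sum.elim (fun _ => 1) (fun _ => 0) (ofLex (ofLex q).1)

theorem wY_yv (a : Fin n) (k : Fin r) : wY (yv a k : BV n m r) = 1 := rfl
theorem wY_zv (b : Fin m) (k : Fin r) : wY (zv b k : BV n m r) = 0 := rfl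

theorem sum_BV {M : Type*} [AddCommMonoid M] (F : BV n m r → M) :
    ∑ q : BV n m r, F q = ∑ k : Fin r, (∑ a : Fin n, F (yv a k) + ∑ b : Fin m, F (zv b k)) := by
  rw [← Equiv.sum_comp (toLex : (((Fin n)ᵒᵈ ⊕ₗ (Fin m)ᵒᵈ) × Fin r) ≃ BV n m r),
    Fintype.sum_prod_type, Finset.sum_comm]
  apply Finset.sum_congr rfl
  intro k _
  rw [← Equiv.sum_comp (toLex : ((Fin n)ᵒᵈ ⊕ (Fin m)ᵒᵈ) ≃ _), Fintype.sum_sum_type]
  rfl

/-- the diagonal cells -/
def jj (hn : r ≤ n) (hm : r ≤ m) (j : Fin r) : Cell n m r :=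
  ⟨(⟨j.val, by omega⟩, ⟨j.val, by omega⟩), by simp⟩

theorem weight_eq (hn : r ≤ n) (hm : r ≤ m) (e : BV n m r →₀ ℕ) :
    Finsupp.weight wY e = ∑ j : Fin r, T e (jj hn hm j) := by
  rw [Finsupp.weight_apply, Finsupp.sum_fintype _ _ (by simp), sum_BV]
  apply Finset.sum_congr rfl
  intro j _
  have h1 : ∑ b : Fin m, e (zv b j) • wY (zv b j : BV n m r) = 0 := by
    apply Finset.sum_eq_zero
    intro b _
    rw [wY_zv, smul_zero]
  rw [h1, add_zero]
  unfold T
  rw [if_pos (by simp [jj])]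
  apply Finset.sum_congr rfl
  intro a _
  rw [wY_yv, if_pos (by simp [jj])]
  simp [jj]

theorem psi_X_wh (p : Fin n × Fin m) : IsWeightedHomogeneous (wY (n := n) (m := m) (r := r))
    (psi K n m r (X p)) 1 := by
  unfold psi
  rw [aeval_X]
  apply (weightedHomogeneousSubmodule K (wY (n := n) (m := m) (r := r)) 1).sum_mem
  intro k _
  have h1 : IsWeightedHomogeneous (wY (n := n) (m := m) (r := r))
      (X (yv p.1 k) * X (zv p.2 k) : MvPolynomial (BV n m r) K) (1 + 0) := by
    apply IsWeightedHomogeneous.mul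
    · exact isWeightedHomogeneous_X K _ _
    · exact isWeightedHomogeneous_X K _ _
  exact h1

theorem psi_monomial_wh (d : Fin n × Fin m →₀ ℕ) (c : K) :
    IsWeightedHomogeneous (wY (n := n) (m := m) (r := r)) (psi K n m r (monomial d c)) d.degree := by
  rw [monomial_eq, map_mul, Finsupp.prod_fintype _ _ (by simp), map_prod, Finsupp.degree_eq_sum]
  have h1 : IsWeightedHomogeneous (wY (n := n) (m := m) (r := r)) (psi K n m r (C c)) 0 := by
    rw [show psi K n m r (C c) = C c from AlgHom.commutes _ c]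
    exact isWeightedHomogeneous_C _ _
  have h2 : IsWeightedHomogeneous (wY (n := n) (m := m) (r := r))
      (∏ i, psi K n m r (X i ^ d i)) (∑ i, d i) := by
    apply IsWeightedHomogeneous.prod
    intro i _
    rw [map_pow]
    have := (psi_X_wh (K := K) (r := r) i).pow (d i)
    rwa [smul_eq_mul, mul_one] at this
  have h3 := h1.mul h2
  rwa [zero_add] at h3

theorem weight_ge (k : ℕ) (f : MvPolynomial (Fin n × Fin m) K)
    (hf : f ∈ idealOfVars (Fin n × Fin m) K ^ k) (e : BV n m r →₀ ℕ)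
    (he : (psi K n m r f).coeff e ≠ 0) : k ≤ Finsupp.weight wY e := by
  rw [f.as_sum, map_sum, coeff_sum] at he
  obtain ⟨d, hd, hne⟩ := Finset.exists_ne_zero_of_sum_ne_zero he
  rw [mem_pow_idealOfVars_iff] at hf
  rw [psi_monomial_wh d (coeff d f) hne]
  exact hf d hd

theorem val_ge (hn : r ≤ n) (hm : r ≤ m) (k : ℕ) (f : MvPolynomial (Fin n × Fin m) K)
    (hf : f ∈ idealOfVars (Fin n × Fin m) K ^ k ⊔ minP K n m (r + 1)) (h0 : psi K n m r f ≠ 0) :
    k ≤ ∑ j : Fin r, val K n m r f (jj hn hm j) := by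
  obtain ⟨g, hg, h, hh, rfl⟩ := Submodule.mem_sup.mp hf
  have h1 : psi K n m r (g + h) = psi K n m r g := by
    rw [map_add, minP_le_ker n m r h hh, add_zero]
  unfold val
  rw [← weight_eq]
  rw [h1] at h0 ⊢
  exact weight_ge k g hg _ ((MonomialOrder.lex (σ := BV n m r)).leadingCoeff_ne_zero_iff.mpr h0)

/-- points of the cone -/
def su (M : ℕ) (u : Cell n m r → Fin M) (p : Cell n m r) : ℕ :=
  (u p).val + M * (n + m - (p.1.1.val + p.1.2.val))

theorem su_inj (M : ℕ) : Function.Injective (su M : (Cell n m r → Fin M) → (Cell n m r → ℕ)) := by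
  intro u v h
  funext p
  have := congrFun h p
  unfold su at this
  apply Fin.ext
  omega

theorem su_cone (M : ℕ) (u : Cell n m r → Fin M) :
    su M u ∈ cone (crel (n := n) (m := m) (r := r)) := by
  intro a b hab
  have h1 : b.1.1.val + b.1.2.val = a.1.1.val + a.1.2.val + 1 := by
    rcases hab with ⟨h3, h4⟩ | ⟨h3, h4⟩ <;> omega
  unfold su
  have h2 := (u b).isLt
  have h3 : n + m - (a.1.1.val + a.1.2.val) = (n + m - (b.1.1.val + b.1.2.val)) + 1 := by
    have := a.1.1.isLt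
    have := b.1.1.isLt
    have := a.1.2.isLt
    have := b.1.2.isLt
    omega
  rw [h3, mul_add, mul_one]
  omega

theorem su_sum (hn : r ≤ n) (hm : r ≤ m) (hr : 0 < r) (M : ℕ) (u : Cell n m r → Fin M) :
    ∑ j : Fin r, su M u (jj hn hm j) < r * M * (n + m + 1) := by
  have h1 : ∀ j : Fin r, su M u (jj hn hm j) < M * (n + m + 1) := by
    intro j
    unfold su
    have h2 := (u (jj hn hm j)).isLt
    have h3 : M * (n + m - ((jj hn hm j).1.1.val + (jj hn hm j).1.2.val)) ≤ M * (n + m) :=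
      Nat.mul_le_mul_left _ (Nat.sub_le _ _)
    rw [mul_add M, mul_one]
    omega
  have : Nonempty (Fin r) := ⟨⟨0, hr⟩⟩
  have h2 : ∑ j : Fin r, su M u (jj hn hm j) < ∑ _j : Fin r, M * (n + m + 1) :=
    Finset.sum_lt_sum_of_nonempty Finset.univ_nonempty (fun j _ => h1 j)
  rw [Finset.sum_const, Finset.card_univ, Fintype.card_fin, smul_eq_mul, ← mul_assoc] at h2
  exact h2

theorem finrank_lower (hn : r ≤ n) (hm : r ≤ m) (hr : 0 < r) (k M : ℕ)
    (hk : r * M * (n + m + 1) ≤ k)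
    (J : Ideal (MvPolynomial (Fin n × Fin m) K))
    (hJ : J ≤ idealOfVars (Fin n × Fin m) K ^ k ⊔ minP K n m (r + 1))
    [FiniteDimensional K (MvPolynomial (Fin n × Fin m) K ⧸ J)] :
    M ^ Fintype.card (Cell n m r) ≤ Module.finrank K (MvPolynomial (Fin n × Fin m) K ⧸ J) := by
  classical
  obtain ⟨h1, h2⟩ := ncard_le_finrank (r := r) J
  have h3 : Set.range (su M : (Cell n m r → Fin M) → (Cell n m r → ℕ)) ⊆
      cone (crel (n := n) (m := m) (r := r)) \ valSet r J := by
    rintro _ ⟨u, rfl⟩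
    refine ⟨su_cone M u, ?_⟩
    rintro ⟨f, hf, hf0, hfv⟩
    have h4 := val_ge hn hm k f (hJ hf) hf0
    rw [hfv] at h4
    have h5 := su_sum hn hm hr M u
    omega
  have h4 := Set.ncard_le_ncard h3 h1
  rw [← Set.image_univ, Set.ncard_image_of_injective _ (su_inj M), Set.ncard_univ,
    Nat.card_eq_fintype_card, Fintype.card_fun, Fintype.card_fin] at h4
  exact h4.trans h2

end Pool.Agent.Lib.MP_829e7b_ag
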