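import Mathlib

set_option autoImplicit false
set_option linter.unusedSectionVars false

namespace Pool.Agent.Lib.MP_829e7b_ag

universe u

theorem len_eq {K : Type*} {R : Type*} [Field K] [CommRing R] [IsLocalRing R] [Algebra K R]
    (hK : ∀ x : R, ∃ c : K, x - algebraMap K R c ∈ IsLocalRing.maximalIdeal R) :
    ∀ (d : ℕ) (M : Type u) [AddCommGroup M] [Module R M] [Module K M] [IsScalarTower K R M]
      [FiniteDimensional K M], Module.finrank K M = d → Module.length R M = (d : ℕ∞) := by
  intro d
  induction d with
  | zero =>
    intro M _ _ _ _ _ hd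
    have : Subsingleton M := Module.finrank_zero_iff.mp hd
    rw [Module.length_eq_zero]; rfl
  | succ d ih =>
    intro M _ _ _ _ _ hd
    have hnt : Nontrivial M := by
      by_contra hcon
      rw [not_nontrivial_iff_subsingleton] at hcon
      rw [Module.finrank_zero_of_subsingleton] at hd
      omega
    have hfin : Module.Finite R M := Module.Finite.of_restrictScalars_finite K R M
    obtain ⟨N, hN⟩ : ∃ N : Submodule R M, IsCoatom N := by
      rcases IsCoatomic.eq_top_or_exists_le_coatom (⊥ : Submodule R M) with h | ⟨N, hN, _⟩
      · exact absurd h bot_ne_top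
      · exact ⟨N, hN⟩
    have hs : IsSimpleModule R (M ⧸ N) := isSimpleModule_iff_isCoatom.mpr hN
    have hann : Module.annihilator R (M ⧸ N) = IsLocalRing.maximalIdeal R :=
      IsLocalRing.eq_maximalIdeal (IsSimpleModule.annihilator_isMaximal)
    have h1 : Module.finrank K (M ⧸ N) = 1 := by
      obtain ⟨hnt', hsur⟩ := isSimpleModule_iff_toSpanSingleton_surjective.mp hs
      obtain ⟨x, hx⟩ := exists_ne (0 : M ⧸ N)
      rw [finrank_eq_one_iff']
      refine ⟨x, hx, ?_⟩
      intro w
      obtain ⟨a, ha⟩ := hsur x hx w
      obtain ⟨c, hc⟩ := hK a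
      refine ⟨c, ?_⟩
      rw [← hann, Module.mem_annihilator] at hc
      have h2 := hc x
      rw [sub_smul, sub_eq_zero, algebraMap_smul] at h2
      rw [← h2]
      exact ha
    have h2 : Module.finrank K N = d := by
      have h3 := Submodule.finrank_quotient_add_finrank (N.restrictScalars K)
      have h4 : Module.finrank K (M ⧸ N.restrictScalars K) = Module.finrank K (M ⧸ N) :=
        (Submodule.Quotient.restrictScalarsEquiv K N).finrank_eq
      have h5 : Module.finrank K (N.restrictScalars K) = Module.finrank K N := rfl
      omega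
    have hfd : FiniteDimensional K N :=
      inferInstanceAs (FiniteDimensional K (N.restrictScalars K))
    have h3 := ih N h2
    rw [Module.length_eq_add_of_exact N.subtype N.mkQ N.injective_subtype N.mkQ_surjective
      (LinearMap.exact_subtype_mkQ N), h3, Module.length_eq_one_iff.mpr hs]
    push_cast
    rfl

end Pool.Agent.Lib.MP_829e7b_ag
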