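import Mathlib

set_option autoImplicit false
set_option linter.unusedSectionVars false

namespace Pool.Agent.Lib.MP_829e7b_ag

open Finset

/-- polynomials modulo an ideal containing a power of the ideal of the variables -/
theorem finite_quot {σ : Type*} [Finite σ] {K : Type*} [Field K] (J : Ideal (MvPolynomial σ K)) (N : ℕ)
    (h : MvPolynomial.idealOfVars σ K ^ N ≤ J) : FiniteDimensional K (MvPolynomial σ K ⧸ J) := by
  let S : Set (σ →₀ ℕ) := {d | d.degree < N}
  have hS : S.Finite := Finsupp.finite_of_degree_lt N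
  let W : Submodule K (MvPolynomial σ K ⧸ J) :=
    Submodule.span K ((fun d => Ideal.Quotient.mkₐ K J (MvPolynomial.monomial d 1)) '' S)
  have hW : W = ⊤ := by
    rw [eq_top_iff]
    intro x _
    obtain ⟨f, rfl⟩ := Ideal.Quotient.mkₐ_surjective K J x
    rw [f.as_sum, map_sum]
    apply Submodule.sum_mem
    intro d _
    have h1 : MvPolynomial.monomial d (f.coeff d) = (f.coeff d) • MvPolynomial.monomial d (1 : K) := by
      rw [MvPolynomial.smul_monomial, smul_eq_mul, mul_one]
    rw [h1, map_smul]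
    apply Submodule.smul_mem
    by_cases hd : d.degree < N
    · exact Submodule.subset_span ⟨d, hd, rfl⟩
    · have h2 : MvPolynomial.monomial d (1 : K) ∈ J :=
        h ((MvPolynomial.monomial_mem_pow_idealOfVars_iff N d one_ne_zero).mpr (by omega))
      have h3 : Ideal.Quotient.mkₐ K J (MvPolynomial.monomial d (1 : K)) = 0 :=
        Ideal.Quotient.eq_zero_iff_mem.mpr h2
      rw [h3]
      exact Submodule.zero_mem _
  refine ⟨?_⟩
  rw [← hW]
  exact Submodule.fg_span (hS.image _)

/-- powers of an ideal with finitely many generators -/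
theorem pow_span {R : Type*} [CommRing R] (d : ℕ) (θ : Fin d → R) (k : ℕ) :
    (Ideal.span (Set.range θ)) ^ k =
      Ideal.span (Set.range (fun α : {α : Fin d →₀ ℕ | α.degree = k} => ∏ i, θ i ^ (α.1 i))) := by
  let F : MvPolynomial (Fin d) R →ₐ[R] R := MvPolynomial.aeval θ
  have h1 : (MvPolynomial.idealOfVars (Fin d) R).map F.toRingHom = Ideal.span (Set.range θ) := by
    rw [MvPolynomial.idealOfVars, Ideal.map_span, ← Set.range_comp]
    congr 2
    funext i
    simp [F]
  rw [← h1, ← Ideal.map_pow, MvPolynomial.pow_idealOfVars_eq_span, Ideal.map_span]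
  congr 1
  ext x
  constructor
  · rintro ⟨_, ⟨α, hα, rfl⟩, rfl⟩
    refine ⟨⟨α, hα⟩, ?_⟩
    simp [F, MvPolynomial.eval_monomial, Finsupp.prod_fintype]
  · rintro ⟨⟨α, hα⟩, rfl⟩
    refine ⟨_, ⟨α, hα, rfl⟩, ?_⟩
    simp [F, MvPolynomial.eval_monomial, Finsupp.prod_fintype]

theorem pow_bound {K R : Type*} [Field K] [CommRing R] [Algebra K R] (d : ℕ) (θ : Fin d → R)
    (q : Ideal R) (hq : q = Ideal.span (Set.range θ)) [FiniteDimensional K (R ⧸ q)] (k : ℕ) :
    FiniteDimensional K (R ⧸ q ^ k) ∧
      Module.finrank K (R ⧸ q ^ k) ≤ k ^ d * Module.finrank K (R ⧸ q) := by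
  classical
  set D := Module.finrank K (R ⧸ q) with hD
  let bas := Module.finBasis K (R ⧸ q)
  have hb : ∀ j, ∃ b : R, Ideal.Quotient.mkₐ K q b = bas j :=
    fun j => Ideal.Quotient.mkₐ_surjective K q _
  choose b hb using hb
  -- lifting
  have hlift : ∀ x : R, ∃ c : Fin D → K, x - ∑ j, c j • b j ∈ q := by
    intro x
    refine ⟨fun j => bas.repr (Ideal.Quotient.mkₐ K q x) j, ?_⟩
    rw [← Ideal.Quotient.eq_zero_iff_mem]
    show Ideal.Quotient.mkₐ K q _ = 0
    rw [map_sub, map_sum]
    have h1 := bas.sum_repr (Ideal.Quotient.mkₐ K q x)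
    rw [sub_eq_zero]
    conv_lhs => rw [← h1]
    apply Finset.sum_congr rfl
    intro j _
    rw [map_smul, hb]
  let V : ℕ → Submodule K R := fun k =>
    Submodule.span K (Set.range (fun p : (Fin d → Fin k) × Fin D =>
      (∏ i, θ i ^ ((p.1 i : ℕ))) * b p.2))
  have hVmono : ∀ k, V k ≤ V (k + 1) := by
    intro k
    apply Submodule.span_mono
    rintro _ ⟨p, rfl⟩
    exact ⟨(fun i => (p.1 i).castSucc, p.2), rfl⟩
  have hV : ∀ k (x : R), ∃ v ∈ V k, x - v ∈ q ^ k := by
    intro k
    induction k with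
    | zero => intro x; exact ⟨0, Submodule.zero_mem _, by simp⟩
    | succ k ih =>
      intro x
      obtain ⟨v, hv, hx⟩ := ih x
      -- elements of q^k
      have key : ∀ y ∈ q ^ k, ∃ w ∈ V (k + 1), y - w ∈ q ^ (k + 1) := by
        intro y hy
        rw [hq, pow_span] at hy
        have hfin : Finite {α : Fin d →₀ ℕ | α.degree = k} := Finsupp.finite_of_degree_eq k
        have : Fintype {α : Fin d →₀ ℕ | α.degree = k} := Fintype.ofFinite _
        rw [Ideal.span, Submodule.mem_span_range_iff_exists_fun] at hy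
        obtain ⟨c, rfl⟩ := hy
        have hc : ∀ α : {α : Fin d →₀ ℕ | α.degree = k}, ∃ w ∈ V (k + 1),
            c α • (∏ i, θ i ^ (α.1 i)) - w ∈ q ^ (k + 1) := by
          intro α
          obtain ⟨e, he⟩ := hlift (c α)
          refine ⟨∑ j, e j • ((∏ i, θ i ^ (α.1 i)) * b j), ?_, ?_⟩
          · apply Submodule.sum_mem
            intro j _
            apply Submodule.smul_mem
            apply Submodule.subset_span
            have hle : ∀ i, α.1 i < k + 1 := by
              intro i
              have h1 : α.1.degree = k := α.2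
              have h2 := Finsupp.le_degree i α.1
              omega
            exact ⟨(fun i => ⟨α.1 i, hle i⟩, j), rfl⟩
          · have h1 : c α • (∏ i, θ i ^ (α.1 i)) - ∑ j, e j • ((∏ i, θ i ^ (α.1 i)) * b j) =
                (∏ i, θ i ^ (α.1 i)) * (c α - ∑ j, e j • b j) := by
              rw [mul_sub, Finset.mul_sum, smul_eq_mul, mul_comm (c α)]
              congr 1
              apply Finset.sum_congr rfl
              intro j _
              rw [mul_smul_comm]
            rw [h1, pow_succ]
            apply Ideal.mul_mem_mul _ he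
            rw [hq, pow_span]
            exact Ideal.subset_span ⟨α, rfl⟩
        choose w hw1 hw2 using hc
        refine ⟨∑ α, w α, Submodule.sum_mem _ (fun α _ => hw1 α), ?_⟩
        rw [← Finset.sum_sub_distrib]
        exact Ideal.sum_mem _ (fun α _ => hw2 α)
      obtain ⟨w, hw, hy⟩ := key _ hx
      refine ⟨v + w, Submodule.add_mem _ (hVmono k hv) hw, ?_⟩
      rw [← sub_sub]
      exact hy
  let W : Submodule K (R ⧸ q ^ k) :=
    Submodule.span K (Set.range (fun p : (Fin d → Fin k) × Fin D =>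
      Ideal.Quotient.mkₐ K (q ^ k) ((∏ i, θ i ^ ((p.1 i : ℕ))) * b p.2)))
  have hW : W = ⊤ := by
    rw [eq_top_iff]
    intro x _
    obtain ⟨f, rfl⟩ := Ideal.Quotient.mkₐ_surjective K (q ^ k) x
    obtain ⟨v, hv, hx⟩ := hV k f
    have h1 : Ideal.Quotient.mkₐ K (q ^ k) f = Ideal.Quotient.mkₐ K (q ^ k) v :=
      Ideal.Quotient.mk_eq_mk_iff_sub_mem _ _ |>.mpr hx
    rw [h1]
    have h2 := Submodule.mem_map_of_mem (f := (Ideal.Quotient.mkₐ K (q ^ k)).toLinearMap) hv
    rw [Submodule.map_span, ← Set.range_comp] at h2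
    exact h2
  refine ⟨⟨?_⟩, ?_⟩
  · rw [← hW]
    exact Submodule.fg_span (Set.finite_range _)
  · have h1 : Module.finrank K W ≤ Fintype.card ((Fin d → Fin k) × Fin D) := finrank_range_le_card _
    rw [hW, finrank_top] at h1
    simpa using h1

end Pool.Agent.Lib.MP_829e7b_ag
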