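import Mathlib

set_option autoImplicit false
set_option linter.unusedSectionVars false

namespace Pool.Agent.Lib.MP_829e7b_ag

open Finset

variable {σ : Type*} [Finite σ] {K : Type*} [Field K]

/-- the inclusion of polynomials into power series -/
noncomputable abbrev inc (σ K : Type*) [Field K] : MvPolynomial σ K →+* MvPowerSeries σ K :=
  MvPolynomial.coeToMvPowerSeries.ringHom

theorem map_idealOfVars : (MvPolynomial.idealOfVars σ K).map (inc σ K) =
    Ideal.span (Set.range (MvPowerSeries.X : σ → MvPowerSeries σ K)) := by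
  rw [MvPolynomial.idealOfVars, Ideal.map_span]
  congr 1
  rw [← Set.range_comp]
  congr 1
  funext i
  exact MvPolynomial.coe_X i

theorem mem_pow_of_coeff (N : ℕ) (f : MvPowerSeries σ K)
    (hf : ∀ d : σ →₀ ℕ, d.degree < N → MvPowerSeries.coeff d f = 0) :
    f ∈ (Ideal.span (Set.range (MvPowerSeries.X : σ → MvPowerSeries σ K))) ^ N := by
  classical
  have hch : ∀ e : σ →₀ ℕ, ∃ d : σ →₀ ℕ, N ≤ e.degree → d ≤ e ∧ d.degree = N := by
    intro e
    by_cases h : N ≤ e.degree
    · obtain ⟨d, h1, h2⟩ := Finsupp.exists_le_degree_eq e N h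
      exact ⟨d, fun _ => ⟨h1, h2⟩⟩
    · exact ⟨0, fun h' => absurd h' h⟩
  choose δ hδ using hch
  let S : Finset (σ →₀ ℕ) := (Finsupp.finite_of_degree_eq (σ := σ) N).toFinset
  have hS : ∀ d, d ∈ S ↔ d.degree = N := by
    intro d
    simp [S]
  let g : (σ →₀ ℕ) → MvPowerSeries σ K := fun d c =>
    if N ≤ (c + d).degree ∧ δ (c + d) = d then MvPowerSeries.coeff (c + d) f else 0
  have hg : ∀ d c, MvPowerSeries.coeff c (g d) =
      if N ≤ (c + d).degree ∧ δ (c + d) = d then MvPowerSeries.coeff (c + d) f else 0 := by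
    intro d c
    rfl
  have hsum : f = ∑ d ∈ S, MvPowerSeries.monomial d (1 : K) * g d := by
    apply MvPowerSeries.ext
    intro e
    rw [map_sum]
    have h1 : ∀ d ∈ S, MvPowerSeries.coeff e (MvPowerSeries.monomial d (1 : K) * g d) =
        if d = δ e then (if N ≤ e.degree then MvPowerSeries.coeff e f else 0) else 0 := by
      intro d hd
      rw [MvPowerSeries.coeff_monomial_mul]
      by_cases h2 : d ≤ e
      · rw [if_pos h2, one_mul, hg, tsub_add_cancel_of_le h2]
        by_cases h3 : N ≤ e.degree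
        · by_cases h4 : d = δ e
          · rw [if_pos ⟨h3, h4.symm⟩, if_pos h4, if_pos h3]
          · rw [if_neg (fun h => h4 h.2.symm), if_neg h4]
        · rw [if_neg (fun h => h3 h.1), if_neg h3]
          simp
      · rw [if_neg h2]
        by_cases h4 : d = δ e
        · rw [if_pos h4]
          by_cases h3 : N ≤ e.degree
          · exact absurd (h4 ▸ (hδ e h3).1) h2
          · rw [if_neg h3]
        · rw [if_neg h4]
    rw [Finset.sum_congr rfl h1]
    by_cases h3 : N ≤ e.degree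
    · rw [Finset.sum_eq_single (δ e)]
      · rw [if_pos rfl, if_pos h3]
      · intro d _ hd
        rw [if_neg hd]
      · intro h5
        exact absurd ((hS _).mpr (hδ e h3).2) h5
    · rw [hf e (by omega)]
      symm
      apply Finset.sum_eq_zero
      intro d _
      rw [if_neg h3]
      simp
  rw [hsum]
  apply Ideal.sum_mem
  intro d hd
  apply Ideal.mul_mem_right
  have h1 : (MvPolynomial.monomial d (1 : K)) ∈ MvPolynomial.idealOfVars σ K ^ N := by
    rw [MvPolynomial.monomial_mem_pow_idealOfVars_iff _ _ one_ne_zero]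
    exact ((hS d).mp hd).ge
  have h2 := Ideal.mem_map_of_mem (inc σ K) h1
  rw [Ideal.map_pow, map_idealOfVars] at h2
  rwa [← MvPolynomial.coe_monomial]

theorem maximalIdeal_eq : IsLocalRing.maximalIdeal (MvPowerSeries σ K) =
    Ideal.span (Set.range (MvPowerSeries.X : σ → MvPowerSeries σ K)) := by
  classical
  apply le_antisymm
  · intro f hf
    have h1 : MvPowerSeries.constantCoeff f = 0 := by
      by_contra hne
      rw [IsLocalRing.mem_maximalIdeal] at hf
      exact hf (MvPowerSeries.isUnit_iff_constantCoeff.mpr (isUnit_iff_ne_zero.mpr hne))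
    have h2 := mem_pow_of_coeff 1 f (fun d hd => by
      have h3 : d = 0 := by
        rw [← Finsupp.degree_eq_zero_iff]; omega
      rw [h3]
      exact h1)
    rwa [pow_one] at h2
  · rw [Ideal.span_le]
    rintro _ ⟨i, rfl⟩
    rw [SetLike.mem_coe, IsLocalRing.mem_maximalIdeal]
    intro h
    have := MvPowerSeries.isUnit_iff_constantCoeff.mp h
    rw [MvPowerSeries.constantCoeff_X] at this
    exact not_isUnit_zero this

/-- the quotient ring of the power series ring defined by a polynomial ideal -/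
abbrev QR (𝔞 : Ideal (MvPolynomial σ K)) := MvPowerSeries σ K ⧸ (𝔞.map (inc σ K))

/-- the natural map from polynomials -/
noncomputable def piR (𝔞 : Ideal (MvPolynomial σ K)) : MvPolynomial σ K →+* QR 𝔞 :=
  (Ideal.Quotient.mk _).comp (inc σ K)

theorem map_le_maximal (𝔞 : Ideal (MvPolynomial σ K)) (h : 𝔞 ≤ MvPolynomial.idealOfVars σ K) :
    𝔞.map (inc σ K) ≤ IsLocalRing.maximalIdeal (MvPowerSeries σ K) := by
  rw [maximalIdeal_eq, ← map_idealOfVars]
  exact Ideal.map_mono h

theorem QR_local (𝔞 : Ideal (MvPolynomial σ K)) (h : 𝔞 ≤ MvPolynomial.idealOfVars σ K) :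
    IsLocalRing (QR 𝔞) := by
  have : Nontrivial (QR 𝔞) := Ideal.Quotient.nontrivial_iff.mpr (fun h' => by
    have h1 := map_le_maximal 𝔞 h
    rw [h', top_le_iff] at h1
    exact (IsLocalRing.maximalIdeal.isMaximal (MvPowerSeries σ K)).ne_top h1)
  exact IsLocalRing.of_surjective' (Ideal.Quotient.mk (𝔞.map (inc σ K))) Ideal.Quotient.mk_surjective

theorem QR_maximalIdeal (𝔞 : Ideal (MvPolynomial σ K)) [IsLocalRing (QR 𝔞)] :
    IsLocalRing.maximalIdeal (QR 𝔞) = (MvPolynomial.idealOfVars σ K).map (piR 𝔞) := by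
  rw [piR, ← Ideal.map_map, map_idealOfVars, ← maximalIdeal_eq]
  symm
  apply IsLocalRing.eq_maximalIdeal
  rcases Ideal.map_eq_top_or_isMaximal_of_surjective (Ideal.Quotient.mk (𝔞.map (inc σ K)))
    Ideal.Quotient.mk_surjective (IsLocalRing.maximalIdeal.isMaximal (MvPowerSeries σ K)) with h | h
  · exfalso
    have h1 : 𝔞.map (inc σ K) ≤ IsLocalRing.maximalIdeal (MvPowerSeries σ K) := by
      apply IsLocalRing.le_maximalIdeal
      intro h2
      have : Subsingleton (QR 𝔞) := Ideal.Quotient.subsingleton_iff.mpr h2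
      exact not_subsingleton (QR 𝔞) this
    have h3 := Ideal.comap_map_of_surjective (Ideal.Quotient.mk (𝔞.map (inc σ K)))
      Ideal.Quotient.mk_surjective (IsLocalRing.maximalIdeal (MvPowerSeries σ K))
    rw [h, Ideal.comap_top] at h3
    have h4 : Ideal.comap (Ideal.Quotient.mk (𝔞.map (inc σ K))) ⊥ = 𝔞.map (inc σ K) := by
      rw [← RingHom.ker_eq_comap_bot, Ideal.mk_ker]
    rw [h4, sup_eq_left.mpr h1] at h3
    exact (IsLocalRing.maximalIdeal.isMaximal (MvPowerSeries σ K)).ne_top h3.symm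
  · exact h

theorem piR_approx (𝔞 : Ideal (MvPolynomial σ K)) [IsLocalRing (QR 𝔞)] (N : ℕ) (x : QR 𝔞) :
    ∃ f : MvPolynomial σ K, x - piR 𝔞 f ∈ IsLocalRing.maximalIdeal (QR 𝔞) ^ N := by
  obtain ⟨g, rfl⟩ := Ideal.Quotient.mk_surjective x
  refine ⟨MvPowerSeries.truncTotal N g, ?_⟩
  have h1 : g - inc σ K (MvPowerSeries.truncTotal N g) ∈
      (Ideal.span (Set.range (MvPowerSeries.X : σ → MvPowerSeries σ K))) ^ N := by
    apply mem_pow_of_coeff
    intro d hd
    rw [map_sub, sub_eq_zero]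
    show _ = MvPowerSeries.coeff d ((MvPowerSeries.truncTotal N g : MvPolynomial σ K) : MvPowerSeries σ K)
    rw [MvPolynomial.coeff_coe, MvPowerSeries.coeff_truncTotal _ hd]
  rw [← map_idealOfVars] at h1
  have h2 := Ideal.mem_map_of_mem (Ideal.Quotient.mk (𝔞.map (inc σ K))) h1
  rw [Ideal.map_pow, Ideal.map_map, map_sub] at h2
  rw [QR_maximalIdeal]
  exact h2

theorem comap_pow_le (𝔞 : Ideal (MvPolynomial σ K)) [IsLocalRing (QR 𝔞)] (k : ℕ) :
    (IsLocalRing.maximalIdeal (QR 𝔞) ^ k).comap (piR 𝔞) ≤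
      MvPolynomial.idealOfVars σ K ^ k ⊔ 𝔞 := by
  set B := MvPolynomial.idealOfVars σ K ^ k ⊔ 𝔞 with hB
  let Φ : MvPowerSeries σ K →+* MvPolynomial σ K ⧸ B :=
    (Ideal.Quotient.factor (le_sup_left : MvPolynomial.idealOfVars σ K ^ k ≤ B)).comp
      (MvPowerSeries.truncTotalAlgHom σ K k).toRingHom
  have hΦ : ∀ f : MvPolynomial σ K, Φ (inc σ K f) = Ideal.Quotient.mk B f := by
    intro f
    have h1 : (MvPowerSeries.truncTotalAlgHom σ K k) (algebraMap (MvPolynomial σ K) _ f) =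
        Ideal.Quotient.mk (MvPolynomial.idealOfVars σ K ^ k) f :=
      (MvPowerSeries.truncTotalAlgHom σ K k).commutes f
    have h2 : algebraMap (MvPolynomial σ K) (MvPowerSeries σ K) f = inc σ K f := by
      rw [MvPowerSeries.algebraMap_apply']
      ext d
      simp
    rw [h2] at h1
    show (Ideal.Quotient.factor (le_sup_left : MvPolynomial.idealOfVars σ K ^ k ≤ B))
      ((MvPowerSeries.truncTotalAlgHom σ K k) (inc σ K f)) = _
    rw [h1, Ideal.Quotient.factor_mk]
  have hker : 𝔞.map (inc σ K) ≤ RingHom.ker Φ := by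
    rw [Ideal.map_le_iff_le_comap]
    intro f hf
    rw [Ideal.mem_comap, RingHom.mem_ker, hΦ, Ideal.Quotient.eq_zero_iff_mem]
    exact Ideal.mem_sup_right hf
  let Ψ : QR 𝔞 →+* MvPolynomial σ K ⧸ B := Ideal.Quotient.lift _ Φ (fun a ha => hker ha)
  have hΨ : ∀ f : MvPolynomial σ K, Ψ (piR 𝔞 f) = Ideal.Quotient.mk B f := by
    intro f
    have h1 : Ψ (Ideal.Quotient.mk _ (inc σ K f)) = Φ (inc σ K f) :=
      Ideal.Quotient.lift_mk (𝔞.map (inc σ K)) Φ (fun a ha => hker ha)
    exact h1.trans (hΦ f)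
  intro f hf
  rw [Ideal.mem_comap] at hf
  rw [← Ideal.Quotient.eq_zero_iff_mem, ← hΨ]
  have h1 := Ideal.mem_map_of_mem Ψ hf
  rw [Ideal.map_pow, QR_maximalIdeal, Ideal.map_map] at h1
  have h2 : Ψ.comp (piR 𝔞) = Ideal.Quotient.mk B := RingHom.ext hΨ
  rw [h2, ← Ideal.map_pow] at h1
  have h3 : (MvPolynomial.idealOfVars σ K ^ k).map (Ideal.Quotient.mk B) = ⊥ := by
    rw [Ideal.map_eq_bot_iff_le_ker, Ideal.mk_ker]
    exact le_sup_left
  rw [h3] at h1
  exact h1

theorem algebraMap_QR (𝔞 : Ideal (MvPolynomial σ K)) (c : K) :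
    algebraMap K (QR 𝔞) c = piR 𝔞 (MvPolynomial.C c) := by
  show _ = Ideal.Quotient.mk _ (inc σ K (MvPolynomial.C c))
  have : inc σ K (MvPolynomial.C c) = algebraMap K (MvPowerSeries σ K) c := by
    show ((MvPolynomial.C c : MvPolynomial σ K) : MvPowerSeries σ K) = _
    rw [MvPolynomial.coe_C]
    rfl
  rw [this]
  rfl

/-- `piR` as an algebra map -/
noncomputable def piA (𝔞 : Ideal (MvPolynomial σ K)) : MvPolynomial σ K →ₐ[K] QR 𝔞 :=
  { piR 𝔞 with commutes' := fun c => (algebraMap_QR 𝔞 c).symm }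

theorem piA_apply (𝔞 : Ideal (MvPolynomial σ K)) (f : MvPolynomial σ K) : piA 𝔞 f = piR 𝔞 f := rfl

/-- the comparison of quotients -/
theorem quot_equiv (𝔞 : Ideal (MvPolynomial σ K)) [IsLocalRing (QR 𝔞)] (I : Ideal (QR 𝔞)) (N : ℕ)
    (hN : IsLocalRing.maximalIdeal (QR 𝔞) ^ N ≤ I) :
    Nonempty ((MvPolynomial σ K ⧸ I.comap (piR 𝔞)) ≃ₗ[K] (QR 𝔞 ⧸ I)) := by
  let F : MvPolynomial σ K →ₐ[K] (QR 𝔞 ⧸ I) := (Ideal.Quotient.mkₐ K I).comp (piA 𝔞)
  have hF : Function.Surjective F := by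
    intro y
    obtain ⟨x, rfl⟩ := Ideal.Quotient.mkₐ_surjective K I y
    obtain ⟨f, hf⟩ := piR_approx 𝔞 N x
    refine ⟨f, ?_⟩
    show Ideal.Quotient.mk I (piR 𝔞 f) = Ideal.Quotient.mk I x
    symm
    rw [Ideal.Quotient.mk_eq_mk_iff_sub_mem]
    exact hN hf
  have hker : I.comap (piR 𝔞) = RingHom.ker F := by
    ext f
    rw [Ideal.mem_comap, RingHom.mem_ker]
    show _ ↔ Ideal.Quotient.mk I (piR 𝔞 f) = 0
    rw [Ideal.Quotient.eq_zero_iff_mem]
  exact ⟨((Ideal.quotientEquivAlgOfEq K hker).trans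
    (Ideal.quotientKerAlgEquivOfSurjective hF)).toLinearEquiv⟩

end Pool.Agent.Lib.MP_829e7b_ag
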