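import Mathlib
import Pool.Agent.Lib.MP_829e7b_ag.Std

set_option autoImplicit false
set_option linter.unusedSectionVars false

namespace Pool.Agent.Lib.MP_829e7b_ag

open Finset MvPolynomial

variable {K : Type*} [Field K] {n m r : ℕ}

/-- the diagonal through a position -/
def diagn (n m : ℕ) (p : Fin n × Fin m) : Finset (Fin n × Fin m) :=
  Finset.univ.filter (fun q => q.1.val + p.2.val = q.2.val + p.1.val)

theorem mem_diagn (p q : Fin n × Fin m) : q ∈ diagn n m p ↔ q.1.val + p.2.val = q.2.val + p.1.val := by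
  simp [diagn]

/-- elementary symmetric polynomials of the diagonals -/
noncomputable def theta (K : Type*) [Field K] {n m r : ℕ} (p : Cell n m r) :
    MvPolynomial (Fin n × Fin m) K :=
  ∑ S ∈ (diagn n m p.1).powersetCard (min p.1.1.val p.1.2.val + 1), ∏ q ∈ S, X q

theorem exists_enum (q0 : Fin n × Fin m) (s : ℕ) (Z : Finset (Fin n × Fin m)) (hc : Z.card = s)
    (hZ : ∀ q ∈ Z, q.1.val + q0.2.val = q.2.val + q0.1.val) :
    ∃ q : Fin s → Fin n × Fin m, (∀ i, q i ∈ Z) ∧ ∀ i j, i < j → (q i).1.val < (q j).1.val := by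
  classical
  have hinj : Set.InjOn (fun q : Fin n × Fin m => q.1) (Z : Set (Fin n × Fin m)) := by
    intro q hq q' hq' he
    have e1 := hZ q hq
    have e2 := hZ q' hq'
    have e3 : q.1.val = q'.1.val := congrArg Fin.val he
    apply Prod.ext he
    apply Fin.ext
    omega
  have hci : (Z.image (fun q => q.1)).card = s := by
    rw [Finset.card_image_of_injOn hinj, hc]
  have hmem : ∀ i, ∃ q ∈ Z, q.1 = (Z.image (fun q => q.1)).orderEmbOfFin hci i := by
    intro i
    have := Finset.orderEmbOfFin_mem (Z.image (fun q => q.1)) hci i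
    rw [Finset.mem_image] at this
    exact this
  choose q hq1 hq2 using hmem
  refine ⟨q, hq1, ?_⟩
  intro i j hij
  rw [hq2 i, hq2 j]
  exact ((Z.image (fun q => q.1)).orderEmbOfFin hci).strictMono hij

theorem card_bound {D : Type*} [CommRing D] [IsDomain D]
    (φ : MvPolynomial (Fin n × Fin m) K →+* D)
    (h1 : ∀ f ∈ minP K n m (r + 1), φ f = 0) (q0 : Fin n × Fin m)
    (hlow : ∀ q : Fin n × Fin m, q.1.val + (m - q.2.val) < q0.1.val + (m - q0.2.val) → φ (X q) = 0)
    (Z : Finset (Fin n × Fin m))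
    (hZ : ∀ q ∈ Z, (q.1.val + q0.2.val = q.2.val + q0.1.val ∧ φ (X q) ≠ 0)) : Z.card ≤ r := by
  by_contra hcon
  push Not at hcon
  obtain ⟨Z', hZ', hc'⟩ := Finset.exists_subset_card_eq (show r + 1 ≤ Z.card from hcon)
  obtain ⟨q, hq1, hq2⟩ := exists_enum q0 (r + 1) Z' hc' (fun q hq => (hZ q (hZ' hq)).1)
  have hqZ : ∀ i, (q i).1.val + q0.2.val = (q i).2.val + q0.1.val ∧ φ (X (q i)) ≠ 0 :=
    fun i => hZ _ (hZ' (hq1 i))
  have hdet := h1 _ (minor_mem (K := K) (le_refl (r + 1)) (fun i => (q i).1) (fun i => (q i).2))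
  rw [RingHom.map_det] at hdet
  have hentry : ∀ i j, (φ.mapMatrix ((XP K n m).submatrix (fun i => (q i).1) (fun i => (q i).2))) i j
      = φ (X ((q i).1, (q j).2)) := fun i j => rfl
  generalize φ.mapMatrix ((XP K n m).submatrix (fun i => (q i).1) (fun i => (q i).2)) = M at hdet hentry
  have htri : M.BlockTriangular OrderDual.toDual := by
    intro i j hij
    have hij' : i < j := hij
    rw [hentry]
    apply hlow
    have e1 := (hqZ i).1
    have e2 := (hqZ j).1
    have e3 := hq2 i j hij'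
    have e6 := (q j).2.isLt
    have e7 := (q i).2.isLt
    have e8 := q0.2.isLt
    simp only
    omega
  rw [Matrix.det_of_lowerTriangular _ htri, Finset.prod_eq_zero_iff] at hdet
  obtain ⟨i, _, hi⟩ := hdet
  rw [hentry] at hi
  exact (hqZ i).2 hi

theorem exists_cell (q0 : Fin n × Fin m) (Z : Finset (Fin n × Fin m)) (hpos : 0 < Z.card)
    (hr : Z.card ≤ r) (hZ : ∀ q ∈ Z, q.1.val + q0.2.val = q.2.val + q0.1.val) :
    ∃ p : Cell n m r, diagn n m p.1 = diagn n m q0 ∧ min p.1.1.val p.1.2.val + 1 = Z.card := by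
  classical
  have hbig : ∃ q ∈ Z, Z.card - 1 ≤ min q.1.val q.2.val := by
    by_contra hcon
    push Not at hcon
    have h3 : Z.card ≤ (Finset.range (Z.card - 1)).card := by
      apply Finset.card_le_card_of_injOn (fun q => min q.1.val q.2.val)
      · intro q hq
        rw [Finset.mem_coe, Finset.mem_range]
        exact hcon q hq
      · intro q hq q' hq' he
        have e1 := hZ q hq
        have e2 := hZ q' hq'
        simp only at he
        apply Prod.ext
        · apply Fin.ext; omega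
        · apply Fin.ext; omega
    rw [Finset.card_range] at h3
    omega
  obtain ⟨q, hqZ, hqb⟩ := hbig
  have e1 := hZ q hqZ
  set s := Z.card with hs
  obtain ⟨x, hx0⟩ : ∃ x, x = q.1.val - (min q.1.val q.2.val - (s - 1)) := ⟨_, rfl⟩
  obtain ⟨y, hy0⟩ : ∃ y, y = q.2.val - (min q.1.val q.2.val - (s - 1)) := ⟨_, rfl⟩
  have hx : x < n := by
    have := q.1.isLt
    omega
  have hy : y < m := by
    have := q.2.isLt
    omega
  have hmin : min x y = s - 1 := by omega
  refine ⟨⟨(⟨x, hx⟩, ⟨y, hy⟩), by simp only; omega⟩, ?_, ?_⟩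
  · ext q'
    rw [mem_diagn, mem_diagn]
    simp only
    omega
  · simp only
    omega

theorem theta_kill {D : Type*} [CommRing D] [IsDomain D]
    (φ : MvPolynomial (Fin n × Fin m) K →+* D)
    (h1 : ∀ f ∈ minP K n m (r + 1), φ f = 0) (h2 : ∀ p : Cell n m r, φ (theta K p) = 0) :
    ∀ (N : ℕ) (q : Fin n × Fin m), q.1.val + (m - q.2.val) = N → φ (X q) = 0 := by
  classical
  intro N
  induction N using Nat.strong_induction_on with
  | _ N ih =>
  intro q0 hq0
  by_contra hne
  obtain ⟨Z, hZ⟩ : ∃ Z : Finset (Fin n × Fin m), ∀ q, q ∈ Z ↔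
      (q.1.val + q0.2.val = q.2.val + q0.1.val ∧ φ (X q) ≠ 0) :=
    ⟨(diagn n m q0).filter (fun q => φ (X q) ≠ 0), fun q => by
      rw [Finset.mem_filter, mem_diagn]⟩
  have hq0Z : q0 ∈ Z := (hZ q0).mpr ⟨add_comm _ _, hne⟩
  have hcard : Z.card ≤ r := card_bound φ h1 q0 (fun q hq => ih _ (hq0 ▸ hq) q rfl) Z
    (fun q hq => (hZ q).mp hq)
  have hpos : 0 < Z.card := Finset.card_pos.mpr ⟨q0, hq0Z⟩
  obtain ⟨p, hpd, hps⟩ := exists_cell q0 Z hpos hcard (fun q hq => ((hZ q).mp hq).1)
  have h3 := h2 p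
  unfold theta at h3
  rw [hpd, hps, map_sum, Finset.sum_eq_single Z] at h3
  · rw [map_prod, Finset.prod_eq_zero_iff] at h3
    obtain ⟨q', hq', h4⟩ := h3
    exact ((hZ q').mp hq').2 h4
  · intro S hS hne'
    rw [Finset.mem_powersetCard] at hS
    rw [map_prod]
    by_contra h4
    have h5 := Finset.prod_ne_zero_iff.mp h4
    have h6 : S ⊆ Z := by
      intro q' hq'
      exact (hZ q').mpr ⟨(mem_diagn q0 q').mp (hS.1 hq'), h5 q' hq'⟩
    exact hne' (Finset.eq_of_subset_of_card_le h6 (by rw [hS.2]))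
  · intro h4
    exfalso
    apply h4
    rw [Finset.mem_powersetCard]
    exact ⟨fun q hq => (mem_diagn q0 q).mpr ((hZ q).mp hq).1, rfl⟩

end Pool.Agent.Lib.MP_829e7b_ag
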