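import Mathlib
import Pool.Agent.Lib.MP_829e7b_ag.Cnt
import Pool.Agent.Lib.MP_829e7b_ag.Sop
import Pool.Agent.Lib.MP_829e7b_ag.Ser
import Pool.Agent.Lib.MP_829e7b_ag.Len
import Pool.Agent.Lib.MP_829e7b_ag.PowB

set_option autoImplicit false
set_option linter.unusedSectionVars false

namespace Pool.Agent.Lib.MP_829e7b_ag

open Finset MvPolynomial IsLocalRing

variable {K : Type*} [Field K] {n m r : ℕ}

theorem minP_le_vars {t : ℕ} (ht : 1 ≤ t) :
    minP K n m t ≤ idealOfVars (Fin n × Fin m) K := by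
  rw [minP, Ideal.span_le]
  rintro _ ⟨a, b, rfl⟩
  have h1 := minor_homogeneous (K := K) a b
  have h2 : ((XP K n m).submatrix a b).det ∈ idealOfVars (Fin n × Fin m) K ^ 1 := by
    rw [mem_pow_idealOfVars_iff]
    intro d hd
    rw [mem_support_iff] at hd
    have h3 : d.degree = t := by
      have h4 := h1 hd
      rw [← h4, Finsupp.degree_eq_weight_one]
      rfl
    omega
  rwa [pow_one] at h2

/-- the determinantal ring, presented through polynomial minors -/
abbrev RR (K : Type*) [Field K] (n m t : ℕ) := QR (minP K n m t)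

theorem RR_local {t : ℕ} (ht : 1 ≤ t) : IsLocalRing (RR K n m t) := QR_local _ (minP_le_vars ht)

section

variable {t : ℕ} [IsLocalRing (RR K n m t)]

theorem vars_pow_le (I : Ideal (RR K n m t)) (N : ℕ) (hN : maximalIdeal (RR K n m t) ^ N ≤ I) :
    idealOfVars (Fin n × Fin m) K ^ N ≤ I.comap (piR (minP K n m t)) := by
  rw [← Ideal.map_le_iff_le_comap, Ideal.map_pow, ← QR_maximalIdeal]
  exact hN

theorem minP_le_comap (I : Ideal (RR K n m t)) : minP K n m t ≤ I.comap (piR (minP K n m t)) := by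
  intro f hf
  rw [Ideal.mem_comap]
  have : piR (minP K n m t) f = 0 := by
    show Ideal.Quotient.mk _ (inc _ K f) = 0
    rw [Ideal.Quotient.eq_zero_iff_mem]
    exact Ideal.mem_map_of_mem _ hf
  rw [this]
  exact I.zero_mem

theorem fd_comap (I : Ideal (RR K n m t)) (N : ℕ) (hN : maximalIdeal (RR K n m t) ^ N ≤ I) :
    FiniteDimensional K (MvPolynomial (Fin n × Fin m) K ⧸ I.comap (piR (minP K n m t))) :=
  finite_quot _ N (vars_pow_le I N hN)

theorem fd_quot (I : Ideal (RR K n m t)) (N : ℕ) (hN : maximalIdeal (RR K n m t) ^ N ≤ I) :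
    FiniteDimensional K (RR K n m t ⧸ I) ∧
    Module.finrank K (MvPolynomial (Fin n × Fin m) K ⧸ I.comap (piR (minP K n m t))) =
      Module.finrank K (RR K n m t ⧸ I) := by
  obtain ⟨e⟩ := quot_equiv (minP K n m t) I N hN
  have := fd_comap I N hN
  exact ⟨Module.Finite.equiv e, e.finrank_eq⟩

theorem residue (x : RR K n m t) : ∃ c : K, x - algebraMap K (RR K n m t) c ∈
    maximalIdeal (RR K n m t) := by
  obtain ⟨f, hf⟩ := piR_approx (minP K n m t) 1 x
  refine ⟨coeff 0 f, ?_⟩
  rw [algebraMap_QR]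
  have h1 : f - C (coeff 0 f) ∈ idealOfVars (Fin n × Fin m) K ^ 1 := by
    rw [mem_pow_idealOfVars_iff']
    intro d hd
    have h2 : d = 0 := by
      rw [← Finsupp.degree_eq_zero_iff]; omega
    rw [h2, coeff_sub, coeff_C, if_pos rfl, sub_self]
  rw [pow_one] at h1 hf
  have h2 := Ideal.mem_map_of_mem (piR (minP K n m t)) h1
  rw [← QR_maximalIdeal, map_sub] at h2
  have h3 := Ideal.add_mem _ hf h2
  rwa [sub_add_sub_cancel] at h3

theorem length_eq (I : Ideal (RR K n m t)) (N : ℕ) (hN : maximalIdeal (RR K n m t) ^ N ≤ I) :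
    Module.length (RR K n m t) (RR K n m t ⧸ I) =
      (Module.finrank K (RR K n m t ⧸ I) : ℕ∞) := by
  have := (fd_quot I N hN).1
  exact len_eq residue _ _ rfl

theorem X_mem_max (q : Fin n × Fin m) : piR (minP K n m t) (X q) ∈ maximalIdeal (RR K n m t) := by
  rw [QR_maximalIdeal]
  exact Ideal.mem_map_of_mem _ (Ideal.subset_span ⟨q, rfl⟩)

end

theorem max_le_prime [IsLocalRing (RR K n m (r + 1))] (p : Ideal (RR K n m (r + 1))) [p.IsPrime]
    (h : ∀ c : Cell n m r, piR (minP K n m (r + 1)) (theta K c) ∈ p) :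
    maximalIdeal (RR K n m (r + 1)) ≤ p := by
  rw [QR_maximalIdeal, Ideal.map_le_iff_le_comap, idealOfVars, Ideal.span_le]
  rintro _ ⟨q, rfl⟩
  let φ : MvPolynomial (Fin n × Fin m) K →+* (RR K n m (r + 1) ⧸ p) :=
    (Ideal.Quotient.mk p).comp (piR (minP K n m (r + 1)))
  have h2 : ∀ f ∈ minP K n m (r + 1), φ f = 0 := by
    intro f hf
    have : piR (minP K n m (r + 1)) f = 0 := by
      show Ideal.Quotient.mk _ (inc _ K f) = 0
      rw [Ideal.Quotient.eq_zero_iff_mem]
      exact Ideal.mem_map_of_mem _ hf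
    show Ideal.Quotient.mk p (piR (minP K n m (r + 1)) f) = 0
    rw [this, map_zero]
  have h3 : ∀ c : Cell n m r, φ (theta K c) = 0 := by
    intro c
    show Ideal.Quotient.mk p (piR (minP K n m (r + 1)) (theta K c)) = 0
    rw [Ideal.Quotient.eq_zero_iff_mem]
    exact h c
  have h1 : φ (X q) = 0 := theta_kill (D := RR K n m (r + 1) ⧸ p) φ h2 h3 _ q rfl
  have h4 : Ideal.Quotient.mk p (piR (minP K n m (r + 1)) (X q)) = 0 := h1
  rw [Ideal.Quotient.eq_zero_iff_mem] at h4
  exact h4

theorem height_le [IsLocalRing (RR K n m (r + 1))] :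
    (maximalIdeal (RR K n m (r + 1))).height ≤ Fintype.card (Cell n m r) := by
  classical
  let Θ : Finset (RR K n m (r + 1)) :=
    Finset.univ.image (fun c : Cell n m r => piR (minP K n m (r + 1)) (theta K c))
  have h1 : maximalIdeal (RR K n m (r + 1)) ∈ (Ideal.span (Θ : Set (RR K n m (r + 1)))).minimalPrimes := by
    refine ⟨⟨inferInstance, ?_⟩, ?_⟩
    · rw [Ideal.span_le]
      intro x hx
      simp only [Θ, Finset.coe_image, Set.mem_image, Finset.mem_coe] at hx
      obtain ⟨c, _, rfl⟩ := hx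
      show piR (minP K n m (r + 1)) (theta K c) ∈ maximalIdeal (RR K n m (r + 1))
      unfold theta
      rw [map_sum]
      apply Ideal.sum_mem
      intro S hS
      rw [Finset.mem_powersetCard] at hS
      have hne : S.Nonempty := by
        rw [← Finset.card_pos]; omega
      obtain ⟨q, hq⟩ := hne
      rw [map_prod, ← Finset.mul_prod_erase S _ hq]
      exact Ideal.mul_mem_right _ _ (X_mem_max q)
    · intro p ⟨hp1, hp2⟩ _
      have : p.IsPrime := hp1
      apply max_le_prime p
      intro c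
      apply hp2
      apply Ideal.subset_span
      simp only [Θ, Finset.coe_image, Set.mem_image, Finset.mem_coe]
      exact ⟨c, Finset.mem_univ _, rfl⟩
  refine (Ideal.height_le_card_of_mem_minimalPrimes_span_finset h1).trans ?_
  have h2 : Θ.card ≤ Fintype.card (Cell n m r) := by
    refine Finset.card_image_le.trans ?_
    rw [Finset.card_univ]
  exact_mod_cast h2

/-- lower growth of the powers of the maximal ideal -/
theorem growth_lower [IsLocalRing (RR K n m (r + 1))] (hn : r ≤ n) (hm : r ≤ m) (hr : 0 < r)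
    (k M : ℕ) (hk : r * M * (n + m + 1) ≤ k) :
    M ^ Fintype.card (Cell n m r) ≤
      Module.finrank K (RR K n m (r + 1) ⧸ maximalIdeal (RR K n m (r + 1)) ^ k) := by
  rw [← (fd_quot (maximalIdeal (RR K n m (r + 1)) ^ k) k le_rfl).2]
  have := fd_comap (maximalIdeal (RR K n m (r + 1)) ^ k) k le_rfl
  exact finrank_lower hn hm hr k M hk _ (comap_pow_le _ k)

theorem finrank_mono {I I' : Ideal (RR K n m r)} (h : I ≤ I')
    [FiniteDimensional K (RR K n m r ⧸ I)] :
    Module.finrank K (RR K n m r ⧸ I') ≤ Module.finrank K (RR K n m r ⧸ I) := by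
  apply LinearMap.finrank_le_finrank_of_surjective (f := (Ideal.Quotient.factorₐ K h).toLinearMap)
  exact Ideal.Quotient.factor_surjective h

theorem le_height [IsLocalRing (RR K n m (r + 1))] (hn : r ≤ n) (hm : r ≤ m) (hr : 0 < r) :
    (Fintype.card (Cell n m r) : ℕ∞) ≤ (maximalIdeal (RR K n m (r + 1))).height := by
  classical
  set 𝔪 := maximalIdeal (RR K n m (r + 1)) with h𝔪
  obtain ⟨s, hs1, hs2⟩ := Ideal.exists_finset_card_eq_height_of_isNoetherianRing 𝔪
  rw [← hs2]
  by_contra hcon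
  have hlt : s.card < Fintype.card (Cell n m r) := by
    rw [not_le] at hcon
    exact_mod_cast hcon
  set q := Ideal.span (s : Set (RR K n m (r + 1))) with hq
  have hrad : 𝔪 ≤ q.radical := by
    rw [Ideal.radical_eq_sInf]
    apply le_sInf
    intro p ⟨hp1, hp2⟩
    exact hs1.2 ⟨hp2, hp1⟩ (IsLocalRing.le_maximalIdeal hp2.ne_top)
  obtain ⟨N, hN⟩ := Ideal.exists_pow_le_of_le_radical_of_fg hrad (IsNoetherian.noetherian 𝔪)
  have hfd := (fd_quot q N hN).1
  have hqm : q ≤ 𝔪 := hs1.1.2
  let θ : Fin s.card → RR K n m (r + 1) := fun i => (s.equivFin.symm i).1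
  have hθ : q = Ideal.span (Set.range θ) := by
    rw [hq]
    congr 1
    ext x
    constructor
    · intro hx
      exact ⟨s.equivFin ⟨x, hx⟩, by simp [θ]⟩
    · rintro ⟨i, rfl⟩
      exact (s.equivFin.symm i).2
  set D := Module.finrank K (RR K n m (r + 1) ⧸ q)
  set c := r * (n + m + 1)
  -- contradiction by growth
  have key : ∀ M : ℕ, M ^ Fintype.card (Cell n m r) ≤ (c * M) ^ s.card * D := by
    intro M
    obtain ⟨h1, h2⟩ := pow_bound (K := K) s.card θ q hθ (c * M)
    have h3 := growth_lower (K := K) hn hm hr (c * M) M (le_of_eq (by show _ = r * (n + m + 1) * M; ring))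
    have h4 := finrank_mono (Ideal.pow_right_mono hqm (c * M))
    exact h3.trans (h4.trans h2)
  have h5 := key (c ^ s.card * D + 1)
  set M := c ^ s.card * D + 1
  have h6 : (c * M) ^ s.card * D = (c ^ s.card * D) * M ^ s.card := by rw [mul_pow]; ring
  rw [h6] at h5
  have h7 : M ^ (s.card + 1) ≤ M ^ Fintype.card (Cell n m r) :=
    Nat.pow_le_pow_right (Nat.succ_pos _) hlt
  have h8 : M ^ (s.card + 1) ≤ (c ^ s.card * D) * M ^ s.card := h7.trans h5
  rw [pow_succ, mul_comm] at h8
  have h9 : M ≤ c ^ s.card * D := Nat.le_of_mul_le_mul_right h8 (pow_pos (Nat.succ_pos _) _)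
  omega

theorem krullDim_eq [IsLocalRing (RR K n m (r + 1))] (hn : r ≤ n) (hm : r ≤ m) (hr : 0 < r) :
    ringKrullDim (RR K n m (r + 1)) = (Fintype.card (Cell n m r) : ℕ) := by
  rw [← IsLocalRing.maximalIdeal_height_eq_ringKrullDim]
  have h := le_antisymm (height_le (K := K) (n := n) (m := m) (r := r)) (le_height hn hm hr)
  rw [h]
  rfl

/-- The upper bound for powers of an ideal, in terms of dimensions. -/
theorem growth_upper [IsLocalRing (RR K n m (r + 1))] (hn : 0 < n) (hm : 0 < m) (hr : 0 < r)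
    (I : Ideal (RR K n m (r + 1))) (N : ℕ) (hN : maximalIdeal (RR K n m (r + 1)) ^ N ≤ I) (k : ℕ) :
    Module.finrank K (RR K n m (r + 1) ⧸ I ^ k) ≤
      (k + Fintype.card (Cell n m r)) ^ Fintype.card (Cell n m r) *
        Module.finrank K (RR K n m (r + 1) ⧸ I) := by
  have hNk : maximalIdeal (RR K n m (r + 1)) ^ (N * k) ≤ I ^ k := by
    rw [pow_mul]
    exact Ideal.pow_right_mono hN k
  rw [← (fd_quot I N hN).2, ← (fd_quot (I ^ k) (N * k) hNk).2]
  have := fd_comap I N hN
  refine (key_ineq hn hm hr (I.comap (piR (minP K n m (r + 1))))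
    ((I ^ k).comap (piR (minP K n m (r + 1)))) (minP_le_comap _) k ?_).2
  exact Ideal.le_comap_pow _ _

end Pool.Agent.Lib.MP_829e7b_ag
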