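import Mathlib

set_option autoImplicit false
set_option linter.unusedSectionVars false

namespace Pool.Agent.Lib.MP_829e7b_ag

open Finset IsLocalRing Filter
open scoped ENNReal

theorem ennreal_formula (F L k d : ℕ) (hk : 0 < k) :
    (F : ℝ≥0∞) * (L : ℝ≥0∞) / (k : ℝ≥0∞) ^ d = ENNReal.ofReal ((F : ℝ) * L / (k : ℝ) ^ d) := by
  have hk' : (0 : ℝ) < (k : ℝ) ^ d := pow_pos (by exact_mod_cast hk) d
  rw [ENNReal.ofReal_div_of_pos hk', ENNReal.ofReal_mul (by positivity), ENNReal.ofReal_natCast,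
    ENNReal.ofReal_natCast, ENNReal.ofReal_pow (by positivity), ENNReal.ofReal_natCast]

theorem limit_aux (d : ℕ) (C : ℝ) :
    Tendsto (fun k : ℕ => C * ((k : ℝ) + d) ^ d / (k : ℝ) ^ d) atTop (nhds C) := by
  have h1 : Tendsto (fun k : ℕ => C * (1 + (d : ℝ) / (k : ℝ)) ^ d) atTop (nhds (C * (1 + 0) ^ d)) := by
    apply Tendsto.const_mul
    apply Tendsto.pow
    apply Tendsto.const_add
    exact tendsto_const_div_atTop_nhds_zero_nat (d : ℝ)
  rw [add_zero, one_pow, mul_one] at h1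
  apply h1.congr'
  filter_upwards [eventually_gt_atTop 0] with k hk
  have hk' : (k : ℝ) ≠ 0 := by exact_mod_cast hk.ne'
  rw [mul_div_assoc, ← div_pow, add_div, div_self hk']

/-- abstract upper bound -/
theorem limsup_le_aux (d F : ℕ) (ℓ : ℕ → ℕ) (h : ∀ k, ℓ k ≤ (k + d) ^ d * F) :
    limsup (fun k : ℕ => (d.factorial : ℝ≥0∞) * (ℓ k : ℝ≥0∞) / (k : ℝ≥0∞) ^ d) atTop ≤
      (d.factorial : ℝ≥0∞) * (F : ℝ≥0∞) := by
  have h1 : Tendsto (fun k : ℕ => ENNReal.ofReal (((d.factorial : ℝ) * F) * ((k : ℝ) + d) ^ d / (k : ℝ) ^ d))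
      atTop (nhds (ENNReal.ofReal ((d.factorial : ℝ) * F))) :=
    ENNReal.tendsto_ofReal (limit_aux d _)
  have h2 : (d.factorial : ℝ≥0∞) * (F : ℝ≥0∞) = ENNReal.ofReal ((d.factorial : ℝ) * F) := by
    rw [ENNReal.ofReal_mul (by positivity), ENNReal.ofReal_natCast, ENNReal.ofReal_natCast]
  rw [h2, ← h1.limsup_eq]
  apply limsup_le_limsup
  · filter_upwards [eventually_gt_atTop 0] with k hk
    rw [ennreal_formula _ _ _ _ hk]
    apply ENNReal.ofReal_le_ofReal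
    have hk' : (0 : ℝ) < (k : ℝ) ^ d := pow_pos (by exact_mod_cast hk) d
    apply div_le_div_of_nonneg_right _ hk'.le
    have h3 : (ℓ k : ℝ) ≤ ((k : ℝ) + d) ^ d * F := by exact_mod_cast h k
    calc (d.factorial : ℝ) * (ℓ k : ℝ) ≤ (d.factorial : ℝ) * (((k : ℝ) + d) ^ d * F) := by gcongr
      _ = _ := by ring
  · exact isCobounded_le_of_bot
  · exact isBounded_le_of_top

/-- abstract lower bound -/
theorem sup_ge_aux (d : ℕ) (ℓ : ℕ → ℕ) (c : ℕ) (hc : 0 < c)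
    (hlow : ∀ M, M ^ d ≤ ℓ (c * M)) (hmono : Monotone ℓ)
    (B : ℝ≥0∞) (hB : B ≠ ⊤)
    (hup : limsup (fun k : ℕ => (d.factorial : ℝ≥0∞) * (ℓ k : ℝ≥0∞) / (k : ℝ≥0∞) ^ d) atTop ≤ B)
    (S : ℝ≥0∞)
    (hS : ∀ j, 0 < j → limsup (fun k : ℕ => (d.factorial : ℝ≥0∞) * (ℓ (j * k) : ℝ≥0∞) /
      (k : ℝ≥0∞) ^ d) atTop / ((d.factorial : ℝ≥0∞) * (ℓ j : ℝ≥0∞)) ≤ S) : 1 ≤ S := by
  set a : ℕ → ℝ≥0∞ := fun k => (d.factorial : ℝ≥0∞) * (ℓ k : ℝ≥0∞) / (k : ℝ≥0∞) ^ d with ha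
  set L := liminf a atTop with hL
  have hLtop : L ≠ ⊤ := by
    have h1 : L ≤ limsup a atTop := liminf_le_limsup
    exact ne_top_of_le_ne_top hB (h1.trans hup)
  -- positivity
  have hLpos : 0 < L := by
    have hcc : (0 : ℝ) < 1 / ((2 * c : ℝ)) ^ d := by positivity
    have h1 : ENNReal.ofReal (1 / ((2 * c : ℝ)) ^ d) ≤ L := by
      apply le_liminf_of_le
      · exact isCobounded_ge_of_top
      · filter_upwards [eventually_ge_atTop c] with k hk
        have hk0 : 0 < k := lt_of_lt_of_le hc hk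
        rw [ha]
        simp only
        rw [ennreal_formula _ _ _ _ hk0]
        apply ENNReal.ofReal_le_ofReal
        have h2 : 1 ≤ k / c := (Nat.one_le_div_iff hc).mpr hk
        have h3 : k < c * (k / c) + c := by
          have := Nat.div_add_mod k c
          have := Nat.mod_lt k hc
          omega
        have h4 : k ≤ 2 * c * (k / c) := by nlinarith
        have h5 : (k / c) ^ d ≤ ℓ k := (hlow (k / c)).trans (hmono (Nat.mul_div_le k c))
        have h6 : (k : ℝ) ^ d ≤ (2 * c : ℝ) ^ d * (ℓ k : ℝ) := by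
          have h7 : (k : ℝ) ≤ (2 * c : ℝ) * ((k / c : ℕ) : ℝ) := by exact_mod_cast h4
          calc (k : ℝ) ^ d ≤ ((2 * c : ℝ) * ((k / c : ℕ) : ℝ)) ^ d := by gcongr
            _ = (2 * c : ℝ) ^ d * ((k / c : ℕ) : ℝ) ^ d := by rw [mul_pow]
            _ ≤ _ := by
              gcongr
              exact_mod_cast h5
        have hk' : (0 : ℝ) < (k : ℝ) ^ d := pow_pos (by exact_mod_cast hk0) d
        have hc' : (0 : ℝ) < (2 * c : ℝ) ^ d := by positivity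
        rw [div_le_div_iff₀ hc' hk', one_mul]
        have h8 : (1 : ℝ) ≤ (d.factorial : ℝ) := by exact_mod_cast Nat.succ_le_of_lt (Nat.factorial_pos d)
        calc (k : ℝ) ^ d ≤ (2 * c : ℝ) ^ d * (ℓ k : ℝ) := h6
          _ ≤ (d.factorial : ℝ) * ((2 * c : ℝ) ^ d * (ℓ k : ℝ)) := by
            nlinarith [mul_nonneg hc'.le (Nat.cast_nonneg (α := ℝ) (ℓ k))]
          _ = _ := by ring
    exact lt_of_lt_of_le (ENNReal.ofReal_pos.mpr hcc) h1
  -- main argument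
  apply le_of_forall_lt
  intro x hx
  obtain ⟨x', hx1, hx2⟩ := exists_between hx
  obtain ⟨y, hy1, hy2⟩ := exists_between hx2
  have hx'0 : x' ≠ 0 := (pos_of_gt hx1).ne'
  have hx't : x' ≠ ⊤ := ne_top_of_lt hx2
  have hy0 : y ≠ 0 := (pos_of_gt hy1).ne'
  have hyt : y ≠ ⊤ := ne_top_of_lt hy2
  refine lt_of_lt_of_le hx1 ?_
  have hcL : L * y < L := by
    conv_rhs => rw [← mul_one L]
    exact ENNReal.mul_lt_mul_right hLpos.ne' hLtop hy2
  have hev : ∀ᶠ k in atTop, L * y < a k := eventually_lt_of_lt_liminf hcL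
  have hLx : L < L * y / x' := by
    rw [ENNReal.lt_div_iff_mul_lt (Or.inl hx'0) (Or.inl hx't)]
    exact ENNReal.mul_lt_mul_right hLpos.ne' hLtop hy1
  have hfr : ∃ᶠ k in atTop, a k < L * y / x' := frequently_lt_of_liminf_lt (by isBoundedDefault) hLx
  obtain ⟨j, hj1, hj2⟩ := (hfr.and_eventually (eventually_gt_atTop 0)).exists
  refine le_trans ?_ (hS j hj2)
  have hj0 : ((j : ℝ≥0∞) ^ d) ≠ 0 := pow_ne_zero _ (by exact_mod_cast hj2.ne')
  have hjt : ((j : ℝ≥0∞) ^ d) ≠ ⊤ := ENNReal.pow_ne_top (ENNReal.natCast_ne_top j)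
  have h3 : (j : ℝ≥0∞) ^ d * (L * y) ≤ limsup (fun k : ℕ => (d.factorial : ℝ≥0∞) *
      (ℓ (j * k) : ℝ≥0∞) / (k : ℝ≥0∞) ^ d) atTop := by
    refine le_trans ?_ liminf_le_limsup
    apply le_liminf_of_le
    · exact isCobounded_ge_of_top
    · obtain ⟨K0, hK0⟩ := eventually_atTop.mp hev
      filter_upwards [eventually_ge_atTop K0, eventually_gt_atTop 0] with k hk hk0
      have h4 := hK0 (j * k) (hk.trans (Nat.le_mul_of_pos_left k hj2))
      have h5 : (j : ℝ≥0∞) ^ d * a (j * k) =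
          (d.factorial : ℝ≥0∞) * (ℓ (j * k) : ℝ≥0∞) / (k : ℝ≥0∞) ^ d := by
        rw [ha]
        simp only
        push_cast
        rw [mul_pow, ← mul_div_assoc, ENNReal.mul_div_mul_left _ _ hj0 hjt]
      rw [← h5]
      gcongr
  -- conclude
  have h6 : x' * ((d.factorial : ℝ≥0∞) * (ℓ j : ℝ≥0∞)) ≤ (j : ℝ≥0∞) ^ d * (L * y) := by
    have h7 : a j ≤ L * y / x' := hj1.le
    rw [ENNReal.le_div_iff_mul_le (Or.inl hx'0) (Or.inl hx't)] at h7
    have h8 : (j : ℝ≥0∞) ^ d * (a j * x') ≤ (j : ℝ≥0∞) ^ d * (L * y) := by gcongr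
    have h9 : (j : ℝ≥0∞) ^ d * (a j * x') = x' * ((d.factorial : ℝ≥0∞) * (ℓ j : ℝ≥0∞)) := by
      rw [ha]
      simp only
      rw [mul_comm (_ / _) x', mul_left_comm, ENNReal.mul_div_cancel hj0 hjt]
    rw [← h9]
    exact h8
  by_cases hz : (d.factorial : ℝ≥0∞) * (ℓ j : ℝ≥0∞) = 0
  · rw [hz, ENNReal.div_zero]
    · exact le_top
    · intro h
      rw [h] at h3
      have h10 : (j : ℝ≥0∞) ^ d * (L * y) ≠ 0 := mul_ne_zero hj0 (mul_ne_zero hLpos.ne' hy0)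
      exact h10 (le_antisymm h3 bot_le)
  · have hzt : (d.factorial : ℝ≥0∞) * (ℓ j : ℝ≥0∞) ≠ ⊤ :=
      ENNReal.mul_ne_top (ENNReal.natCast_ne_top _) (ENNReal.natCast_ne_top _)
    rw [ENNReal.le_div_iff_mul_le (Or.inl hz) (Or.inl hzt)]
    exact h6.trans h3

end Pool.Agent.Lib.MP_829e7b_ag
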