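import Mathlib
import Pool.Agent.Lib.MP_829e7b_ag.Dim

set_option autoImplicit false
set_option linter.unusedSectionVars false

namespace Pool.Agent.Lib.MP_829e7b_ag

open Finset IsLocalRing

theorem card_ge (n r : ℕ) : Fintype.card {i : Fin n // r ≤ i.val} = n - r := by
  have e : {i : Fin n // r ≤ i.val} ≃ Fin (n - r) :=
    { toFun := fun i => ⟨i.1.val - r, by have := i.1.isLt; have := i.2; omega⟩
      invFun := fun j => ⟨⟨j.val + r, by have := j.isLt; omega⟩, by simp⟩
      left_inv := fun i => by
        apply Subtype.ext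
        apply Fin.ext
        have := i.2
        simp only
        omega
      right_inv := fun j => by
        apply Fin.ext
        simp }
  rw [Fintype.card_congr e, Fintype.card_fin]

theorem card_cell (n m r : ℕ) (hn : r ≤ n) (hm : r ≤ m) :
    Fintype.card (Cell n m r) = r * (n + m - r) := by
  have h1 : Fintype.card {p : Fin n × Fin m // ¬ min p.1.val p.2.val < r} = (n - r) * (m - r) := by
    have e : {p : Fin n × Fin m // ¬ min p.1.val p.2.val < r} ≃
        {i : Fin n // r ≤ i.val} × {j : Fin m // r ≤ j.val} :=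
      { toFun := fun p => (⟨p.1.1, by have := p.2; omega⟩, ⟨p.1.2, by have := p.2; omega⟩)
        invFun := fun q => ⟨(q.1.1, q.2.1), by
          have := q.1.2
          have := q.2.2
          simp only
          omega⟩
        left_inv := fun p => rfl
        right_inv := fun q => rfl }
    rw [Fintype.card_congr e, Fintype.card_prod, card_ge, card_ge]
  have h2 := Fintype.card_subtype_compl (fun p : Fin n × Fin m => min p.1.val p.2.val < r)
  rw [h1, Fintype.card_prod, Fintype.card_fin, Fintype.card_fin] at h2
  have h3 : Fintype.card (Cell n m r) ≤ n * m := by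
    have := Fintype.card_subtype_le (fun p : Fin n × Fin m => min p.1.val p.2.val < r)
    rwa [Fintype.card_prod, Fintype.card_fin, Fintype.card_fin] at this
  have h4 : (n - r) * (m - r) + Fintype.card (Cell n m r) = n * m := by
    rw [h2]
    exact Nat.sub_add_cancel h3
  obtain ⟨a, rfl⟩ := Nat.exists_eq_add_of_le hn
  obtain ⟨b, rfl⟩ := Nat.exists_eq_add_of_le hm
  have e1 : r + a + (r + b) - r = r + a + b := by omega
  have e2 : r + a - r = a := by omega
  have e3 : r + b - r = b := by omega
  rw [e2, e3] at h4
  rw [e1]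
  have h5 : (r + a) * (r + b) = a * b + r * (r + a + b) := by ring
  omega

/-- minors with arbitrary index maps lie in the ideal of increasing minors -/
theorem det_mem_increasing {R : Type*} [CommRing R] {n m t : ℕ} (M : Matrix (Fin n) (Fin m) R)
    (a : Fin t → Fin n) (b : Fin t → Fin m) :
    (M.submatrix a b).det ∈ Ideal.span {f : R | ∃ (a : Fin t ↪o Fin n) (b : Fin t ↪o Fin m),
      f = (M.submatrix a b).det} := by
  by_cases ha : Function.Injective a
  · by_cases hb : Function.Injective b
    · have ha' : StrictMono (a ∘ Tuple.sort a) :=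
        (Tuple.monotone_sort a).strictMono_of_injective (ha.comp (Tuple.sort a).injective)
      have hb' : StrictMono (b ∘ Tuple.sort b) :=
        (Tuple.monotone_sort b).strictMono_of_injective (hb.comp (Tuple.sort b).injective)
      have h1 : (M.submatrix (a ∘ Tuple.sort a) (b ∘ Tuple.sort b)).det ∈
          Ideal.span {f : R | ∃ (a : Fin t ↪o Fin n) (b : Fin t ↪o Fin m),
            f = (M.submatrix a b).det} := by
        apply Ideal.subset_span
        exact ⟨OrderEmbedding.ofStrictMono _ ha', OrderEmbedding.ofStrictMono _ hb', rfl⟩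
      have h2 : (M.submatrix a b).det = ((Equiv.Perm.sign (Tuple.sort a)⁻¹ : ℤ) : R) *
          (((Equiv.Perm.sign (Tuple.sort b)⁻¹ : ℤ) : R) *
          (M.submatrix (a ∘ Tuple.sort a) (b ∘ Tuple.sort b)).det) := by
        have h3 : M.submatrix a b = ((M.submatrix (a ∘ Tuple.sort a) (b ∘ Tuple.sort b)).submatrix
            id ((Tuple.sort b)⁻¹ : Equiv.Perm (Fin t))).submatrix
              ((Tuple.sort a)⁻¹ : Equiv.Perm (Fin t)) id := by
          ext i j
          simp
        conv_lhs => rw [h3]
        rw [Matrix.det_permute, Matrix.det_permute']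
      rw [h2]
      exact Ideal.mul_mem_left _ _ (Ideal.mul_mem_left _ _ h1)
    · have : ∃ i j, b i = b j ∧ i ≠ j := by
        unfold Function.Injective at hb
        push Not at hb
        exact hb
      obtain ⟨i, j, h1, h2⟩ := this
      rw [Matrix.det_zero_of_column_eq h2]
      · exact Ideal.zero_mem _
      · intro k
        simp [h1]
  · have : ∃ i j, a i = a j ∧ i ≠ j := by
      unfold Function.Injective at ha
      push Not at ha
      exact ha
    obtain ⟨i, j, h1, h2⟩ := this
    rw [Matrix.det_zero_of_row_eq h2]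
    · exact Ideal.zero_mem _
    · funext k
      simp [h1]

theorem minorIdeal_eq (K : Type*) [Field K] (n m t : ℕ) :
    Ideal.span {f : MvPowerSeries (Fin n × Fin m) K |
      ∃ (a : Fin t ↪o Fin n) (b : Fin t ↪o Fin m),
      f = ((Matrix.of fun (i : Fin n) (j : Fin m) =>
        (MvPowerSeries.X (i, j) : MvPowerSeries (Fin n × Fin m) K)).submatrix a b).det} =
    (minP K n m t).map (inc (Fin n × Fin m) K) := by
  have key : ∀ (a : Fin t → Fin n) (b : Fin t → Fin m),
      inc (Fin n × Fin m) K ((XP K n m).submatrix a b).det =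
      ((Matrix.of fun (i : Fin n) (j : Fin m) =>
        (MvPowerSeries.X (i, j) : MvPowerSeries (Fin n × Fin m) K)).submatrix a b).det := by
    intro a b
    rw [RingHom.map_det]
    congr 1
    ext1 i j
    exact MvPolynomial.coe_X _
  apply le_antisymm
  · rw [Ideal.span_le]
    rintro _ ⟨a, b, rfl⟩
    rw [← key a b]
    apply Ideal.mem_map_of_mem
    exact Ideal.subset_span ⟨a, b, rfl⟩
  · rw [minP, Ideal.map_span, Ideal.span_le]
    rintro _ ⟨_, ⟨a, b, rfl⟩, rfl⟩
    rw [key a b]
    exact det_mem_increasing _ a b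

/-- the case of 1-minors -/
theorem max_one (K : Type*) [Field K] (n m : ℕ) [IsLocalRing (RR K n m (0 + 1))] :
    maximalIdeal (RR K n m (0 + 1)) = ⊥ := by
  rw [QR_maximalIdeal, eq_bot_iff, Ideal.map_le_iff_le_comap, MvPolynomial.idealOfVars, Ideal.span_le]
  rintro _ ⟨⟨i, j⟩, rfl⟩
  show piR (minP K n m (0 + 1)) (MvPolynomial.X (i, j)) = 0
  have h1 : (MvPolynomial.X (i, j) : MvPolynomial (Fin n × Fin m) K) ∈ minP K n m (0 + 1) := by
    apply Ideal.subset_span
    refine ⟨fun _ => i, fun _ => j, ?_⟩
    rw [Matrix.det_fin_one]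
    rfl
  show Ideal.Quotient.mk _ (inc _ K (MvPolynomial.X (i, j))) = 0
  rw [Ideal.Quotient.eq_zero_iff_mem]
  exact Ideal.mem_map_of_mem _ h1

end Pool.Agent.Lib.MP_829e7b_ag
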